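import Pool.Agent.Work.MP_69fea5_lc.TX.Mix
import Pool.Agent.Work.MP_69fea5_lc.TW.Stmts

/-!
# Assembly of the block TX
-/

set_option autoImplicit false

namespace Pool.Agent.Work.MP_69fea5_lc.TX

open Filter Topology HK
open TW (Close pre pre2 close_mono close_of_mem close_congr mem_of_close StC1 StC2 StC5 StC6)

variable {k l : ℕ} {τ : ℕ → ℕ} {φ : Fin l → Fin k}

theorem pre_nil {E : Set (ℕ → Fin l)} : pre E [] ↔ E.Nonempty := by
  constructor
  · rintro ⟨z, hz, _⟩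
    exact ⟨z, hz⟩
  · rintro ⟨z, hz⟩
    exact ⟨z, hz, fun i h => absurd h (Nat.not_lt_zero _)⟩

theorem ar_pre_M {S : Set (Set ℕ)} (hS : Cl S) {M : Set (ℕ → Fin l)}
    {R : Set ((ℕ → Fin l) × (ℕ → Fin l))} (hR : ICER τ M R) (h : Ar S (pre2 R)) : Ar S (pre M) := by
  refine (h.comp hS (f := fun w : List (Fin l) => (w, w)) (Primrec.id.pair Primrec.id)).congr
    fun w => ?_
  constructor
  · rintro ⟨z, hz, h⟩
    exact ⟨(z, z), hR.refl _ hz, h, h⟩
  · rintro ⟨p, hp, h1, _⟩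
    exact ⟨p.1, (hR.sub _ _ hp).1, h1⟩

theorem icer_iInter {M : Set (ℕ → Fin l)} {R : ℕ → Set ((ℕ → Fin l) × (ℕ → Fin l))}
    (hR : ∀ n, ICER τ M (R n)) : ICER τ M (⋂ n, R n) where
  closed := isClosed_iInter fun n => (hR n).closed
  sub a b h := (hR 0).sub a b (Set.mem_iInter.1 h 0)
  refl a ha := Set.mem_iInter.2 fun n => (hR n).refl a ha
  symm a b h := Set.mem_iInter.2 fun n => (hR n).symm a b (Set.mem_iInter.1 h n)
  trans a b d h h' := Set.mem_iInter.2 fun n =>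
    (hR n).trans a b d (Set.mem_iInter.1 h n) (Set.mem_iInter.1 h' n)
  shift a b h := Set.mem_iInter.2 fun n => (hR n).shift a b (Set.mem_iInter.1 h n)

/-! ### the three constructors -/

theorem good_point (hC3 : StC3) (hτ : Primrec τ) {S : Set (Set ℕ)} (hS : Cl S) {M : Set (ℕ → Fin l)}
    (hM : Minimal τ M) {c : ℕ → Fin k} (hc : ArF S c)
    {R : Set ((ℕ → Fin l) × (ℕ → Fin l))} (hR : ICER τ M R) (hRS : Ar S (pre2 R)) {y : ℕ → Fin l}
    (hy : y ∈ M) (hyc : ∀ m, ∃ x, CloseC τ φ c R m (sh τ x y) x)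
    (hd : ∀ z ∈ M, ProxMod τ R y z → (y, z) ∈ R) :
    Good S τ M φ c R := by
  obtain ⟨h1, h2⟩ := hC3 k l S hS τ hτ M R hR hRS φ c hc M hM.closed subset_rfl (ar_pre_M hS hR hRS)
  obtain ⟨h3, h4⟩ := I_D6 k l τ M R hR φ c M subset_rfl fun y _ z h => (hR.sub _ _ h).2
  exact ⟨Ret τ φ c R M, ⟨y, I_D5 k l τ M hM R hR φ c y hy hyc hd⟩, h1, fun z hz => hz.1, h4, h3, h2⟩

theorem good_distal (hC1 : StC1) (hC2 : StC2) (hC3 : StC3) (hτ : Primrec τ)
    {S : Set (Set ℕ)} (hS : Cl S)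
    {M : Set (ℕ → Fin l)} (hM : Minimal τ M) {c : ℕ → Fin k} (hc : ArF S c)
    {R R' : Set ((ℕ → Fin l) × (ℕ → Fin l))} (hR : ICER τ M R) (hRS : Ar S (pre2 R))
    (hR' : ICER τ M R') (hRS' : Ar S (pre2 R')) (hRR : R' ⊆ R) (hd : DistStep τ R R')
    (h : Good S τ M φ c R) : Good S τ M φ c R' := by
  obtain ⟨E, hEn, hEc, hEM, hsat, hright, hES⟩ := h
  obtain ⟨y, hyE, hyS⟩ := hC1 l S hS E hEc hEn hES
  have hKc : IsClosed {z | (y, z) ∈ R} := hR.closed.preimage (continuous_const.prodMk continuous_id)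
  have hKM : {z | (y, z) ∈ R} ⊆ M := fun z hz => (hR.sub _ _ hz).2
  obtain ⟨h1, h2⟩ := hC3 k l S hS τ hτ M R' hR' hRS' φ c hc _ hKc hKM (hC2 l S hS R hR.closed hRS y hyS)
  obtain ⟨h3, h4⟩ := I_D6 k l τ M R' hR' φ c {z | (y, z) ∈ R} hKM
    fun z hz z' h => hR.trans _ _ _ hz (hRR h)
  exact ⟨Ret τ φ c R' {z | (y, z) ∈ R}, I_D4 k l τ M hM R R' hR hR' hRR hd φ c y (hEM hyE) (hright y hyE),
    h1, fun z hz => hKM hz.1, h4, h3, h2⟩

section tower

variable (τ : ℕ → ℕ) (φ : Fin l → Fin k) (E0 : Set (ℕ → Fin l)) (R : ℕ → Set ((ℕ → Fin l) × (ℕ → Fin l))) (c : ℕ → Fin k)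

/-- the closed sets of the intersection -/
def FF (s : List (ℕ × ℕ × ℕ × ℕ)) (n : ℕ) : Set (ℕ → Fin l) :=
  match n with
  | 0 => E0
  | i + 1 => match s[i]? with
    | none => E0
    | some q => AA τ φ c (R i) (R (i + 1)) q

/-- the closed set of a list of choices -/
def EE (s : List (ℕ × ℕ × ℕ × ℕ)) : Set (ℕ → Fin l) := ⋂ n, FF τ φ E0 R c s n

variable {τ φ E0 R c}

theorem mem_EE {s : List (ℕ × ℕ × ℕ × ℕ)} {y : ℕ → Fin l} : y ∈ EE τ φ E0 R c s ↔
    y ∈ E0 ∧ ∀ i (h : i < s.length), y ∈ AA τ φ c (R i) (R (i + 1)) s[i] := by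
  constructor
  · intro h
    refine ⟨Set.mem_iInter.1 h 0, fun i hi => ?_⟩
    have := Set.mem_iInter.1 h (i + 1)
    simp only [FF, List.getElem?_eq_getElem hi] at this
    exact this
  · rintro ⟨h0, h1⟩
    refine Set.mem_iInter.2 fun n => ?_
    cases n with
    | zero => exact h0
    | succ i =>
      simp only [FF]
      by_cases hi : i < s.length
      · rw [List.getElem?_eq_getElem hi]
        exact h1 i hi
      · rw [List.getElem?_eq_none (by omega)]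
        exact h0

theorem EE_append (s : List (ℕ × ℕ × ℕ × ℕ)) (q : ℕ × ℕ × ℕ × ℕ) :
    EE τ φ E0 R c (s ++ [q]) = EE τ φ E0 R c s ∩ AA τ φ c (R s.length) (R (s.length + 1)) q := by
  ext y
  rw [Set.mem_inter_iff, mem_EE, mem_EE]
  constructor
  · rintro ⟨h0, h1⟩
    refine ⟨⟨h0, fun i hi => ?_⟩, ?_⟩
    · have := h1 i (by simp; omega)
      rwa [List.getElem_append_left hi] at this
    · have := h1 s.length (by simp)
      simpa using this
  · rintro ⟨⟨h0, h1⟩, h2⟩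
    refine ⟨h0, fun i hi => ?_⟩
    simp only [List.length_append, List.length_singleton] at hi
    rcases Nat.lt_succ_iff_lt_or_eq.1 hi with h | rfl
    · rw [List.getElem_append_left h]
      exact h1 i h
    · simpa using h2

theorem ar_pre_FF {S : Set (Set ℕ)} (hS : Cl S) (hE : Ar S (pre E0))
    (hA : Ar S fun p : (ℕ × ℕ × ℕ × ℕ × ℕ) × List (Fin l) =>
      pre (AA τ φ c (R p.1.1) (R (p.1.1 + 1)) p.1.2) p.2) :
    Ar S fun p : (List (ℕ × ℕ × ℕ × ℕ) × ℕ) × List (Fin l) => pre (FF τ φ E0 R c p.1.1 p.1.2) p.2 := by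
  have hE' : Ar S fun p : ((List (ℕ × ℕ × ℕ × ℕ) × ℕ) × List (Fin l)) × ℕ => pre E0 p.1.2 :=
    hE.comp hS (Primrec.snd.comp Primrec.fst)
  have hget : Primrec fun p : ((List (ℕ × ℕ × ℕ × ℕ) × ℕ) × List (Fin l)) × ℕ =>
      p.1.1.1[p.2]? := Primrec.list_getElem?.comp
        (Primrec.fst.comp (Primrec.fst.comp Primrec.fst)) Primrec.snd
  have h1 : Ar S fun p : ((List (ℕ × ℕ × ℕ × ℕ) × ℕ) × List (Fin l)) × ℕ =>
      ∃ q, p.1.1.1[p.2]? = some q ∧ pre (AA τ φ c (R p.2) (R (p.2 + 1)) q) p.1.2 := by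
    refine Ar.ex hS (R := fun (p : ((List (ℕ × ℕ × ℕ × ℕ) × ℕ) × List (Fin l)) × ℕ) q =>
      p.1.1.1[p.2]? = some q ∧ pre (AA τ φ c (R p.2) (R (p.2 + 1)) q) p.1.2) ?_
    refine Ar.and hS ?_ ?_
    · exact Ar.eq hS (ArF.of_primrec hS (hget.comp Primrec.fst))
        (ArF.of_primrec hS (Primrec.option_some.comp Primrec.snd))
    · refine hA.comp hS (f := fun p : (((List (ℕ × ℕ × ℕ × ℕ) × ℕ) × List (Fin l)) × ℕ) ×
        (ℕ × ℕ × ℕ × ℕ) => ((p.1.2, p.2), p.1.1.2)) ?_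
      exact ((Primrec.snd.comp Primrec.fst).pair Primrec.snd).pair
        (Primrec.snd.comp (Primrec.fst.comp Primrec.fst))
  refine Ar.congr (R := fun p : (List (ℕ × ℕ × ℕ × ℕ) × ℕ) × List (Fin l) =>
    (p.1.2 = 0 ∧ pre E0 p.2) ∨ ∃ i, p.1.2 = i + 1 ∧ ((p.1.1[i]? = none ∧ pre E0 p.2) ∨
      ∃ q, p.1.1[i]? = some q ∧ pre (AA τ φ c (R i) (R (i + 1)) q) p.2)) ?_ ?_
  · refine Ar.or hS (Ar.and hS ?_ ?_) ?_
    · exact Ar.eq hS (ArF.of_primrec hS (Primrec.snd.comp Primrec.fst)) (ArF.const hS 0)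
    · exact hE.comp hS Primrec.snd
    · refine Ar.ex hS (R := fun (p : (List (ℕ × ℕ × ℕ × ℕ) × ℕ) × List (Fin l)) i =>
        p.1.2 = i + 1 ∧ ((p.1.1[i]? = none ∧ pre E0 p.2) ∨
        ∃ q, p.1.1[i]? = some q ∧ pre (AA τ φ c (R i) (R (i + 1)) q) p.2)) ?_
      refine Ar.and hS ?_ (Ar.or hS (Ar.and hS ?_ hE') h1)
      · exact Ar.eq hS (ArF.of_primrec hS (Primrec.snd.comp (Primrec.fst.comp Primrec.fst)))
          (ArF.of_primrec hS (Primrec.succ.comp Primrec.snd))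
      · exact Ar.eq hS (ArF.of_primrec hS hget) (ArF.const hS none)
  · rintro ⟨⟨s, n⟩, w⟩
    cases n with
    | zero => simp [FF]
    | succ i =>
      simp only [FF, Nat.add_eq_zero_iff, one_ne_zero, and_false, false_and, Nat.add_right_cancel_iff,
        false_or]
      cases h : s[i]? with
      | none => simp [h]
      | some q => simp [h]

theorem good_tower (hC4 : StC4) (hC5 : StC5) (hτ : Primrec τ) {S : Set (Set ℕ)} (hS : Cl S)
    {M : Set (ℕ → Fin l)} (hM : Minimal τ M) {c : ℕ → Fin k} (hc : ArF S c)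
    {R : ℕ → Set ((ℕ → Fin l) × (ℕ → Fin l))} (hR : ∀ n, ICER τ M (R n))
    (hRS : Ar S fun p : ℕ × List (Fin l) × List (Fin l) => pre2 (R p.1) p.2)
    (hRR : ∀ n, R (n + 1) ⊆ R n)
    (hs : ∀ n, ProxStep τ (R n) (R (n + 1)) ∨ DistStep τ (R n) (R (n + 1)) ∧
      FinStep (R n) (R (n + 1))) (h : Good S τ M φ c (R 0)) : Good S τ M φ c (⋂ n, R n) := by
  classical
  obtain ⟨E0, hEn, hEc, hEM, hsat, hright, hES⟩ := h
  obtain ⟨hAc, hAS⟩ := hC4 k l S hS τ hτ M R hM.closed hR hRS φ c hc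
  have hFc : ∀ s n, IsClosed (FF τ φ E0 R c s n) := by
    intro s n
    cases n with
    | zero => exact hEc
    | succ i =>
      simp only [FF]
      cases s[i]? with
      | none => exact hEc
      | some q => exact hAc i q
  have hEEc : ∀ s, IsClosed (EE τ φ E0 R c s) := fun s => isClosed_iInter (hFc s)
  have hEES : Ar S fun p : List (ℕ × ℕ × ℕ × ℕ) × List (Fin l) => pre (EE τ φ E0 R c p.1) p.2 :=
    hC5 l S hS (List (ℕ × ℕ × ℕ × ℕ)) (FF τ φ E0 R c) hFc (ar_pre_FF hS hES hAS)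
  -- nonemptiness
  let NE : List (ℕ × ℕ × ℕ × ℕ) → Prop := fun s => (EE τ φ E0 R c s).Nonempty
  have hNE : Ar S NE := (hEES.comp hS (f := fun s : List (ℕ × ℕ × ℕ × ℕ) => (s, []))
    (Primrec.id.pair (Primrec.const []))).congr fun s => pre_nil.symm
  let P : List (ℕ × ℕ × ℕ × ℕ) → ℕ × ℕ × ℕ × ℕ → Prop := fun s q => NE (s ++ [q]) ∧
    ∀ q' : ℕ × ℕ × ℕ × ℕ, q.1 < q'.1 → ¬ NE (s ++ [q'])
  have hPS : Ar S fun p : List (ℕ × ℕ × ℕ × ℕ) × (ℕ × ℕ × ℕ × ℕ) => P p.1 p.2 := by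
    have happ : Primrec fun p : List (ℕ × ℕ × ℕ × ℕ) × (ℕ × ℕ × ℕ × ℕ) => p.1 ++ [p.2] :=
      Primrec.list_append.comp Primrec.fst
        (Primrec.list_cons.comp Primrec.snd (Primrec.const []))
    refine Ar.and hS (hNE.comp hS happ) ?_
    refine Ar.all hS (R := fun (p : List (ℕ × ℕ × ℕ × ℕ) × (ℕ × ℕ × ℕ × ℕ))
      (q' : ℕ × ℕ × ℕ × ℕ) => p.2.1 < q'.1 → ¬ NE (p.1 ++ [q'])) ?_
    refine Ar.imp hS ?_ (Ar.not hS (hNE.comp hS (happ.comp
      ((Primrec.fst.comp Primrec.fst).pair Primrec.snd))))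
    exact Ar.lt hS (ArF.of_primrec hS (Primrec.fst.comp (Primrec.snd.comp Primrec.fst)))
      (ArF.of_primrec hS (Primrec.fst.comp Primrec.snd))
  -- the choice
  let RR : List (ℕ × ℕ × ℕ × ℕ) → ℕ × ℕ × ℕ × ℕ → Prop := fun s q =>
    (P s q ∧ ∀ q', Encodable.encode q' < Encodable.encode q → ¬ P s q') ∨
      ((∀ q', ¬ P s q') ∧ q = (0, 0, 0, 0))
  have hRRS : Ar S fun p : List (ℕ × ℕ × ℕ × ℕ) × (ℕ × ℕ × ℕ × ℕ) => RR p.1 p.2 := by
    have hP' : Ar S fun p : (List (ℕ × ℕ × ℕ × ℕ) × (ℕ × ℕ × ℕ × ℕ)) × (ℕ × ℕ × ℕ × ℕ) =>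
        ¬ P p.1.1 p.2 := Ar.not hS (hPS.comp hS
          ((Primrec.fst.comp Primrec.fst).pair Primrec.snd))
    refine Ar.or hS (Ar.and hS hPS ?_) (Ar.and hS ?_ ?_)
    · refine Ar.all hS (R := fun (p : List (ℕ × ℕ × ℕ × ℕ) × (ℕ × ℕ × ℕ × ℕ))
        (q' : ℕ × ℕ × ℕ × ℕ) => Encodable.encode q' < Encodable.encode p.2 → ¬ P p.1 q') ?_
      exact Ar.imp hS (Ar.lt hS (ArF.of_primrec hS (Primrec.encode.comp Primrec.snd))
        (ArF.of_primrec hS (Primrec.encode.comp (Primrec.snd.comp Primrec.fst)))) hP'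
    · exact Ar.all hS (R := fun (p : List (ℕ × ℕ × ℕ × ℕ) × (ℕ × ℕ × ℕ × ℕ))
        (q' : ℕ × ℕ × ℕ × ℕ) => ¬ P p.1 q') hP'
    · exact Ar.eq hS (ArF.snd hS) (ArF.const hS _)
  have hRRe : ∀ s, ∃ q, RR s q := by
    intro s
    by_cases hq : ∃ q, P s q
    · have hq' : ∃ n, ∃ q, Encodable.encode q = n ∧ P s q := by
        obtain ⟨q, hq⟩ := hq
        exact ⟨_, q, rfl, hq⟩
      obtain ⟨q, hqe, hqP⟩ := Nat.find_spec hq'
      refine ⟨q, Or.inl ⟨hqP, fun q' hq'' hP => ?_⟩⟩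
      rw [hqe] at hq''
      exact Nat.find_min hq' hq'' ⟨q', rfl, hP⟩
    · push Not at hq
      exact ⟨_, Or.inr ⟨hq, rfl⟩⟩
  have hRRu : ∀ s q q', RR s q → RR s q' → q = q' := by
    rintro s q q' (⟨h1, h2⟩ | ⟨h1, h2⟩) (⟨h3, h4⟩ | ⟨h3, h4⟩)
    · rcases lt_trichotomy (Encodable.encode q) (Encodable.encode q') with h | h | h
      · exact absurd h1 (h4 _ h)
      · exact Encodable.encode_injective h
      · exact absurd h3 (h2 _ h)
    · exact absurd h1 (h3 _)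
    · exact absurd h3 (h1 _)
    · rw [h2, h4]
  choose g hg using hRRe
  have hgS : ArF S g := ArF.of_exists hRRS fun s q =>
    ⟨fun h => h ▸ hg s, fun h => hRRu _ _ _ (hg s) h⟩
  -- the sequence of choices
  let L : ℕ → List (ℕ × ℕ × ℕ × ℕ) := fun n => Nat.rec [] (fun _ s => s ++ [g s]) n
  have hL0 : L 0 = [] := rfl
  have hL : ∀ n, L (n + 1) = L n ++ [g (L n)] := fun n => rfl
  have hLl : ∀ n, (L n).length = n := by
    intro n
    induction n with
    | zero => rfl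
    | succ n ih => rw [hL, List.length_append, ih]; rfl
  have hLf : ∀ n, L n = (List.range n).map fun i => g (L i) := by
    intro n
    induction n with
    | zero => rfl
    | succ n ih => rw [hL, List.range_succ, List.map_append, ← ih]; rfl
  have hfS : ArF S fun n : ℕ => g (L n) := by
    have := ArF.cov hS (α := ℕ) (β := ℕ × ℕ × ℕ × ℕ) (G := fun _ l => g l)
      (f := fun _ n => g (L n)) (hgS.comp hS (ArF.snd hS)) fun a n => by rw [← hLf]
    exact this.comp hS (f := fun n : ℕ => (0, n)) ((ArF.const hS 0).pair hS (ArF.id hS))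
  -- the invariant
  have hinv : ∀ n, NE (L n) ∧ (∀ y ∈ EE τ φ E0 R c (L n), ∀ z, (y, z) ∈ R n → z ∈ EE τ φ E0 R c (L n)) ∧
      ∀ y ∈ EE τ φ E0 R c (L n), Right τ φ c (R n) y := by
    intro n
    induction n with
    | zero =>
      have e : EE τ φ E0 R c (L 0) = E0 := by
        ext y
        rw [mem_EE]
        exact ⟨fun h => h.1, fun h => ⟨h, fun i hi => absurd hi (Nat.not_lt_zero _)⟩⟩
      refine ⟨?_, ?_, ?_⟩
      · show (EE τ φ E0 R c (L 0)).Nonempty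
        rw [e]
        exact hEn
      · rw [e]
        exact hsat
      · rw [e]
        exact hright
    | succ n ih =>
      obtain ⟨ih1, ih2, ih3⟩ := ih
      have e : ∀ q, EE τ φ E0 R c (L n ++ [q]) = EE τ φ E0 R c (L n) ∩ AA τ φ c (R n) (R (n + 1)) q := by
        intro q
        rw [EE_append, hLl]
      have hsubM : EE τ φ E0 R c (L n) ⊆ M := fun y hy => hEM (mem_EE.1 hy).1
      have h0 : NE (L n ++ [(0, 0, 0, 0)]) := by
        obtain ⟨y, hy⟩ := ih1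
        refine ⟨y, ?_⟩
        rw [e]
        exact ⟨hy, y, (hR (n + 1)).refl _ (hsubM hy), fun _ => y,
          fun a ha => absurd ha (Nat.not_lt_zero _)⟩
      rw [hL, e]
      refine ⟨?_, ?_, ?_⟩
      · rcases hg (L n) with h | h
        · exact h.1.1
        · rw [h.2]
          exact h0
      · rintro y ⟨hy, z0, hz0, f, hf⟩ z hyz
        exact ⟨ih2 y hy z (hRR n hyz), z0, (hR (n + 1)).trans _ _ _ hz0 hyz, f, hf⟩
      · intro y hy
        rcases hs n with hp | ⟨hd, hfin⟩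
        · exact I_D2 k l τ M hM (R n) (R (n + 1)) (hR n) (hR (n + 1)) hp φ c y (ih3 y hy.1)
        · have hPe : ∃ q, P (L n) q := by
            obtain ⟨p, hp⟩ := I_D8 k l τ M (R n) (R (n + 1)) (hR n) (hR (n + 1)) (hRR n) hfin φ c
            let T : Set ℕ := {j | ∃ q : ℕ × ℕ × ℕ × ℕ, q.1 = j ∧ NE (L n ++ [q])}
            have hT : ∀ j ∈ T, j ≤ p := by
              rintro j ⟨q, rfl, y', hy'⟩
              by_contra hj
              rw [e, hp q (not_le.1 hj)] at hy'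
              exact hy'.2
            have hTb : BddAbove T := ⟨p, hT⟩
            obtain ⟨q, hq, hq'⟩ := Nat.sSup_mem (s := T) ⟨0, (0, 0, 0, 0), rfl, h0⟩ hTb
            refine ⟨q, hq', fun q' hqq hn => ?_⟩
            have := le_csSup hTb (show q'.1 ∈ T from ⟨q', rfl, hn⟩)
            omega
          have hPg : P (L n) (g (L n)) := by
            rcases hg (L n) with h | h
            · exact h.1
            · obtain ⟨q, hq⟩ := hPe
              exact absurd hq (h.1 q)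
          refine I_D7 k l τ M hM (R n) (R (n + 1)) (hR n) (hR (n + 1)) (hRR n) hd φ c
            (EE τ φ E0 R c (L n)) hsubM ih2 ih3 (g (L n)) (fun q' hq' => ?_) y hy
          rw [← e]
          exact hPg.2 q' hq'
  have hanti : ∀ n, EE τ φ E0 R c (L (n + 1)) ⊆ EE τ φ E0 R c (L n) := by
    intro n
    rw [hL, EE_append]
    exact Set.inter_subset_left
  -- the limit set
  let F' : ℕ → ℕ → Set (ℕ → Fin l) := fun _ n => match n with
    | 0 => E0
    | i + 1 => AA τ φ c (R i) (R (i + 1)) (g (L i))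
  have hEq : (⋂ n, F' 0 n) = ⋂ n, EE τ φ E0 R c (L n) := by
    ext y
    constructor
    · intro hy
      refine Set.mem_iInter.2 fun n => mem_EE.2 ⟨Set.mem_iInter.1 hy 0, fun i hi => ?_⟩
      have h1 := Set.mem_iInter.1 hy (i + 1)
      have h2 : (L n)[i] = g (L i) := by
        simp only [hLf n, List.getElem_map, List.getElem_range]
      rw [h2]
      exact h1
    · intro hy
      refine Set.mem_iInter.2 fun n => ?_
      cases n with
      | zero => exact (mem_EE.1 (Set.mem_iInter.1 hy 0)).1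
      | succ i =>
        have h1 := Set.mem_iInter.1 hy (i + 1)
        rw [hL, EE_append, hLl] at h1
        exact h1.2
  have hF'c : ∀ a n, IsClosed (F' a n) := by
    intro a n
    cases n with
    | zero => exact hEc
    | succ i => exact hAc i _
  have hF'S : Ar S fun p : (ℕ × ℕ) × List (Fin l) => pre (F' p.1.1 p.1.2) p.2 := by
    have h1 : Ar S fun p : ((ℕ × ℕ) × List (Fin l)) × ℕ =>
        pre (AA τ φ c (R p.2) (R (p.2 + 1)) (g (L p.2))) p.1.2 := by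
      refine hAS.sub hS (f := fun p : ((ℕ × ℕ) × List (Fin l)) × ℕ =>
        ((p.2, g (L p.2)), p.1.2)) ?_
      exact ((ArF.snd hS).pair hS (hfS.comp hS (ArF.snd hS))).pair hS
        (ArF.of_primrec hS (Primrec.snd.comp Primrec.fst))
    refine Ar.congr (R := fun p : (ℕ × ℕ) × List (Fin l) => (p.1.2 = 0 ∧ pre E0 p.2) ∨
      ∃ i, p.1.2 = i + 1 ∧ pre (AA τ φ c (R i) (R (i + 1)) (g (L i))) p.2) ?_ ?_
    · refine Ar.or hS (Ar.and hS ?_ (hES.comp hS Primrec.snd)) ?_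
      · exact Ar.eq hS (ArF.of_primrec hS (Primrec.snd.comp Primrec.fst)) (ArF.const hS 0)
      · refine Ar.ex hS (R := fun (p : (ℕ × ℕ) × List (Fin l)) i => p.1.2 = i + 1 ∧
          pre (AA τ φ c (R i) (R (i + 1)) (g (L i))) p.2) (Ar.and hS ?_ h1)
        exact Ar.eq hS (ArF.of_primrec hS (Primrec.snd.comp (Primrec.fst.comp Primrec.fst)))
          (ArF.of_primrec hS (Primrec.succ.comp Primrec.snd))
    · rintro ⟨⟨a, n⟩, w⟩
      cases n with
      | zero => simp [F']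
      | succ i => simp [F']
  have hFin := hC5 l S hS ℕ F' hF'c hF'S
  refine ⟨⋂ n, F' 0 n, ?_, isClosed_iInter fun n => hF'c 0 n, ?_, ?_, ?_, ?_⟩
  · rw [hEq]
    exact IsCompact.nonempty_iInter_of_sequence_nonempty_isCompact_isClosed _ hanti
      (fun n => (hinv n).1) (hEEc _).isCompact fun n => hEEc _
  · exact fun y hy => hEM (Set.mem_iInter.1 hy 0)
  · rw [hEq]
    intro y hy z hyz
    exact Set.mem_iInter.2 fun n => (hinv n).2.1 y (Set.mem_iInter.1 hy n) z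
      (Set.mem_iInter.1 hyz n)
  · rw [hEq]
    intro y hy
    exact I_D9 k l τ M R hR hRR φ c y fun n => (hinv n).2.2 y (Set.mem_iInter.1 hy n)
  · exact (hFin.comp hS (f := fun w : List (Fin l) => (0, w))
      ((Primrec.const 0).pair Primrec.id)).congr fun w => Iff.rfl

end tower

/-! ### codes of intersections -/

theorem pre2_iInter {R : ℕ → Set ((ℕ → Fin l) × (ℕ → Fin l))} (hc : ∀ n, IsClosed (R n))
    (hRR : ∀ n, R (n + 1) ⊆ R n) (w : List (Fin l) × List (Fin l)) :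
    pre2 (⋂ n, R n) w ↔ ∀ n, pre2 (R n) w := by
  constructor
  · rintro ⟨p, hp, h⟩ n
    exact ⟨p, Set.mem_iInter.1 hp n, h⟩
  · intro h
    let C : Set ((ℕ → Fin l) × (ℕ → Fin l)) :=
      {p | (∀ i (h : i < w.1.length), p.1 i = w.1[i]) ∧ ∀ i (h : i < w.2.length), p.2 i = w.2[i]}
    have hC : IsClosed C := by
      have h1 : C = (⋂ i, ⋂ (h : i < w.1.length), {p | p.1 i = w.1[i]}) ∩
          ⋂ i, ⋂ (h : i < w.2.length), {p : (ℕ → Fin l) × (ℕ → Fin l) | p.2 i = w.2[i]} := by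
        ext p
        simp [C]
      rw [h1]
      refine IsClosed.inter ?_ ?_
      · exact isClosed_iInter fun i => isClosed_iInter fun h =>
          isClosed_eq ((continuous_apply i).comp continuous_fst) continuous_const
      · exact isClosed_iInter fun i => isClosed_iInter fun h =>
          isClosed_eq ((continuous_apply i).comp continuous_snd) continuous_const
    have hne : (⋂ n, (R n ∩ C)).Nonempty :=
      IsCompact.nonempty_iInter_of_sequence_nonempty_isCompact_isClosed _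
        (fun n => Set.inter_subset_inter_left _ (hRR n))
        (fun n => by
          obtain ⟨p, hp, h1, h2⟩ := h n
          exact ⟨p, hp, h1, h2⟩)
        ((hc 0).inter hC).isCompact fun n => (hc n).inter hC
    obtain ⟨p, hp⟩ := hne
    have h0 := (Set.mem_iInter.1 hp 0).2
    exact ⟨p, Set.mem_iInter.2 fun n => (Set.mem_iInter.1 hp n).1, h0.1, h0.2⟩

/-! ### the theorem -/

/-- mixing towers -/
theorem good_mixing (hC1 : StC1) (hC2 : StC2) (hC7 : StC7) (hτ : Primrec τ)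
    {S : Set (Set ℕ)} (hS : Cl S) {M : Set (ℕ → Fin l)} (hM : Minimal τ M) {c : ℕ → Fin k}
    (hc : ArF S c) {R R' : Set ((ℕ → Fin l) × (ℕ → Fin l))} (hR : ICER τ M R)
    (hRS : Ar S (pre2 R)) (hRS' : Ar S (pre2 R')) (hm : Mixes τ M R R')
    (h : Good S τ M φ c R) : Good S τ M φ c R' := by
  obtain ⟨hR', hRR⟩ := hm.icer hR
  obtain ⟨E, hEn, hEc, hEM, hsat, hright, hES⟩ := h
  obtain ⟨y, hyE, hyS⟩ := hC1 l S hS E hEc hEn hES
  have hKc : IsClosed {z | (y, z) ∈ R} := hR.closed.preimage (continuous_const.prodMk continuous_id)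
  obtain ⟨z, hz, hzS, hzr⟩ := hC7 k l S hS τ hτ R' hR'.closed hRS' φ c hc {z | (y, z) ∈ R} hKc
    ⟨y, hR.refl _ (hEM hyE)⟩ (hC2 l S hS R hR.closed hRS y hyS) (by
      intro a ha m N
      obtain ⟨a', h1, h2, h3⟩ := mixes_dense hC7 hτ hM hR hm y (hEM hyE) (hright y hyE) a
        (hR.symm _ _ ha) m
      obtain ⟨x, h4, h5⟩ := h3 m N
      exact ⟨a', hR.symm _ _ h1, h2, x, h4, h5⟩)
  have hzM : z ∈ M := (hR.sub _ _ hz).2
  refine ⟨{z' | (z, z') ∈ R'}, ⟨z, hR'.refl _ hzM⟩,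
    hR'.closed.preimage (continuous_const.prodMk continuous_id), fun z' h => (hR'.sub _ _ h).2,
    fun z' h z'' h' => hR'.trans _ _ _ h h', fun z' h =>
      I_D3 k l τ M R' hR' φ c z z' h hzr, hC2 l S hS R' hR'.closed hRS' z hzS⟩

theorem good_of_built (hC1 : StC1) (hC2 : StC2) (hC3 : StC3) (hC4 : StC4) (hC5 : StC5)
    (hC7 : StC7) (hτ : Primrec τ)
    {S : Set (Set ℕ)} (hS : Cl S) {M : Set (ℕ → Fin l)} (hM : Minimal τ M)
    {c : ℕ → Fin k} (hc : ArF S c) {R : Set ((ℕ → Fin l) × (ℕ → Fin l))}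
    (h : Built S τ M φ c R) : Good S τ M φ c R ∧ ICER τ M R ∧ Ar S (pre2 R) := by
  induction h with
  | point R hR hRS y hy hyc hd => exact ⟨good_point hC3 hτ hS hM hc hR hRS hy hyc hd, hR, hRS⟩
  | distal R R' _ hR' hRS' hRR hd ih =>
    exact ⟨good_distal hC1 hC2 hC3 hτ hS hM hc ih.2.1 ih.2.2 hR' hRS' hRR hd ih.1, hR', hRS'⟩
  | mixing R R' _ hRS' hm ih =>
    exact ⟨good_mixing hC1 hC2 hC7 hτ hS hM hc ih.2.1 ih.2.2 hRS' hm ih.1, (hm.icer ih.2.1).1,
      hRS'⟩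
  | tower R _ hR hRS hRR hs ih =>
    refine ⟨good_tower hC4 hC5 hτ hS hM hc hR hRS hRR hs ih.1, icer_iInter hR, ?_⟩
    refine Ar.congr (R := fun w : List (Fin l) × List (Fin l) => ∀ n, pre2 (R n) w) ?_ fun w =>
      pre2_iInter (fun n => (hR n).closed) hRR w
    refine Ar.all hS (R := fun (w : List (Fin l) × List (Fin l)) n => pre2 (R n) w) ?_
    exact hRS.comp hS (Primrec.snd.pair Primrec.fst)

/-- the image of a minimal system is a minimal subshift -/
theorem image_minimal {M : Set (ℕ → Fin l)} (hM : Minimal τ M) :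
    TW.MinimalSubshift (th τ φ '' M) where
  nonempty := hM.nonempty.image _
  closed := (hM.closed.isCompact.image continuous_th).isClosed
  shift := by
    rintro _ ⟨z, hz, rfl⟩
    refine ⟨_, hM.shift z hz, ?_⟩
    funext i
    show φ (z (τ (τ^[i] 0))) = φ (z (τ^[i + 1] 0))
    rw [Function.iterate_succ_apply']
  minimal := by
    intro N hN hNn hNc hNs
    have h : M ∩ th τ φ ⁻¹' N = M := by
      refine hM.minimal _ Set.inter_subset_left ?_
        (hM.closed.inter (hNc.preimage continuous_th)) ?_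
      · obtain ⟨w, hw⟩ := hNn
        obtain ⟨z, hz, rfl⟩ := hN hw
        exact ⟨z, hz, hw⟩
      · rintro z ⟨hz, hzN⟩
        refine ⟨hM.shift z hz, ?_⟩
        have := hNs _ hzN
        have e : (fun n => th τ φ z (n + 1)) = th τ φ fun n => z (τ n) := by
          funext i
          show φ (z (τ^[i + 1] 0)) = φ (z (τ (τ^[i] 0)))
          rw [Function.iterate_succ_apply']
        rw [e] at this
        exact this
    refine Set.Subset.antisymm hN ?_
    rintro _ ⟨z, hz, rfl⟩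
    have hz' : z ∈ M ∩ th τ φ ⁻¹' N := by rw [h]; exact hz
    exact hz'.2

theorem main_of (hC1 : StC1) (hC2 : StC2) (hC3 : StC3) (hC4 : StC4) (hC5 : StC5) (hC6 : StC6)
    (hC7 : StC7) (hτ : Primrec τ)
    {S : Set (Set ℕ)} (hS : Cl S) {M : Set (ℕ → Fin l)} (hM : Minimal τ M)
    {c : ℕ → Fin k} (hc : ArF S c) {R : Set ((ℕ → Fin l) × (ℕ → Fin l))}
    (h : Built S τ M φ c R) (hφ : ∀ p ∈ R, φ (p.1 0) = φ (p.2 0)) :
    ∃ X ∈ S, X.Infinite ∧ (∀ x ∈ X, 0 < x) ∧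
      ∃ i, ∀ F : Finset ℕ, F.Nonempty → (↑F : Set ℕ) ⊆ X → c (∑ x ∈ F, x) = i := by
  obtain ⟨⟨E, hEn, hEc, hEM, _, hright, hES⟩, hR, -⟩ :=
    good_of_built hC1 hC2 hC3 hC4 hC5 hC7 hτ hS hM hc h
  obtain ⟨y, hyE, hyS⟩ := hC1 l S hS E hEc hEn hES
  have hth : ArF S (th τ φ y) := by
    have h1 : Primrec fun i : ℕ => τ^[i] 0 := Primrec.nat_iterate Primrec.id (Primrec.const 0)
      (hτ.comp Primrec.snd)
    exact ArF.map hS (Primrec.dom_finite φ) (hyS.comp hS (f := fun i : ℕ => τ^[i] 0)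
      (ArF.of_primrec hS h1))
  refine hC6 k S hS _ (image_minimal (φ := φ) hM) c hc (th τ φ y) ⟨y, hEM hyE, rfl⟩ hth
    fun m N => ?_
  obtain ⟨m', hm1, hm2⟩ := exists_big (fun i => τ^[i] 0) m
  obtain ⟨x, hx, p, hp, h1, h2⟩ := hright y hyE m' N
  refine ⟨x, hx, fun i hi => ?_⟩
  rw [← h2 i (hi.trans_le hm1), ← th_sh]
  show φ (sh τ x y (τ^[i] 0)) = φ (p.2 (τ^[i] 0))
  rw [← h1 _ (hm2 i hi)]
  exact hφ _ (hR.sh hp i)

end Pool.Agent.Work.MP_69fea5_lc.TX
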