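import Pool.Agent.Work.MP_69fea5_lc.TX.Dyn2

/-!
# Mixing steps
-/

set_option autoImplicit false

namespace Pool.Agent.Work.MP_69fea5_lc.TX

open Filter Topology HK
open TW (Close pre pre2 close_mono close_of_mem close_congr mem_of_close exists_ultra Late
  isClosed_late ul ul_spec ul_spec_lt hyper_ge ul_mem exists_bound)

attribute [local instance] Ultrafilter.add Ultrafilter.addSemigroup

variable {k l : ℕ} {s : ℕ → ℕ} {f : Fin l → Fin k} {c : ℕ → Fin k} {X : Set (ℕ → Fin l)}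

/-! ### minimal closed left ideals -/

/-- closed nonempty left ideals -/
structure LIdeal (I : Set (Ultrafilter ℕ)) : Prop where
  closed : IsClosed I
  nonempty : I.Nonempty
  left : ∀ q : Ultrafilter ℕ, ∀ p ∈ I, q + p ∈ I

/-- every closed left ideal contains a minimal one -/
theorem exists_minimal_ideal {L : Set (Ultrafilter ℕ)} (hL : LIdeal L) :
    ∃ I ⊆ L, LIdeal I ∧ ∀ J ⊆ I, LIdeal J → J = I := by
  let S : Set (Set (Ultrafilter ℕ)) := {I | LIdeal I ∧ I ⊆ L}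
  obtain ⟨I, hI⟩ : ∃ I, _root_.Minimal (· ∈ S) I := by
    refine zorn_superset _ fun C hCS hC => ?_
    rcases C.eq_empty_or_nonempty with rfl | hCn
    · exact ⟨L, ⟨hL, subset_rfl⟩, fun t ht => absurd ht (Set.notMem_empty _)⟩
    refine ⟨⋂₀ C, ⟨⟨isClosed_sInter fun t ht => (hCS ht).1.closed, ?_, fun q p hp => ?_⟩, ?_⟩,
      fun t ht => Set.sInter_subset_of_mem ht⟩
    · rw [Set.sInter_eq_iInter]
      have := hCn.coe_sort
      refine IsCompact.nonempty_iInter_of_directed_nonempty_isCompact_isClosed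
        ((↑) : C → Set (Ultrafilter ℕ)) ?_ ?_ ?_ ?_
      · exact DirectedOn.directed_val (IsChain.directedOn hC.symm)
      · exact fun i => (hCS i.prop).1.nonempty
      · exact fun i => (hCS i.prop).1.closed.isCompact
      · exact fun i => (hCS i.prop).1.closed
    · exact Set.mem_sInter.2 fun t ht => (hCS ht).1.left q p (Set.mem_sInter.1 hp t ht)
    · obtain ⟨t, ht⟩ := hCn
      exact (Set.sInter_subset_of_mem ht).trans (hCS ht).2
  exact ⟨I, hI.prop.2, hI.prop.1, fun J hJ hJi => hI.eq_of_subset ⟨hJi, hJ.trans hI.prop.2⟩ hJ⟩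

/-- thickly syndetic sets are large for the members of minimal left ideals -/
theorem mem_of_thickSyn {I : Set (Ultrafilter ℕ)} (hI : LIdeal I)
    (hmin : ∀ J ⊆ I, LIdeal J → J = I) {v : Ultrafilter ℕ} (hv : v ∈ I) {A : Set ℕ}
    (hA : ThickSyn A) : ∀ᶠ n in (v : Filter ℕ), n ∈ A := by
  by_contra hc
  rw [← Ultrafilter.eventually_not] at hc
  -- the complement is met with bounded gaps
  have h1 : ∀ q : Ultrafilter ℕ, ∃ a, ∀ᶠ m in (q : Filter ℕ), ∀ᶠ n in (v : Filter ℕ),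
      a + (m + n) ∉ A := by
    intro q
    have hJ : Set.range (fun r : Ultrafilter ℕ => r + (q + v)) = I := by
      refine hmin _ ?_ ⟨?_, Set.range_nonempty _, ?_⟩
      · rintro _ ⟨r, rfl⟩
        exact hI.left _ _ (hI.left _ _ hv)
      · exact (isCompact_range (Ultrafilter.continuous_add_left (q + v))).isClosed
      · rintro r _ ⟨r', rfl⟩
        exact ⟨r + r', by simp only [add_assoc]⟩
    obtain ⟨r, hr⟩ : v ∈ Set.range (fun r : Ultrafilter ℕ => r + (q + v)) := by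
      rw [hJ]
      exact hv
    have hr' : r + (q + v) = v := hr
    rw [← hr'] at hc
    obtain ⟨a, ha⟩ := ((Ultrafilter.eventually_add r (q + v) _).1 hc).exists
    exact ⟨a, (Ultrafilter.eventually_add q v _).1 ha⟩
  have h2 : ∃ D, ∀ m, ∃ a ≤ D, ∀ᶠ n in (v : Filter ℕ), a + (m + n) ∉ A := by
    by_contra hD
    push Not at hD
    obtain ⟨q, hq⟩ := exists_ultra (G := fun D => {m | ∀ a ≤ D, ∀ᶠ n in (v : Filter ℕ),
      a + (m + n) ∈ A}) (fun D D' hDD m hm a ha => hm a (ha.trans hDD)) hD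
    obtain ⟨a, ha⟩ := h1 q
    obtain ⟨m, hm, hm'⟩ := (ha.and (hq a)).exists
    obtain ⟨n, hn, hn'⟩ := (hm.and (hm' a le_rfl)).exists
    exact hn hn'
  obtain ⟨D, hD⟩ := h2
  obtain ⟨D', hD'⟩ := hA (D + 1)
  have h3 : ∃ i ≤ D', ∀ᶠ n in (v : Filter ℕ), ∀ j < D + 1, n + i + j ∈ A := by
    by_contra hi
    push Not at hi
    obtain ⟨n, hn⟩ := ((eventually_all_finset (Finset.range (D' + 1))).2 fun i hi' =>
      hi i (Nat.lt_succ_iff.1 (Finset.mem_range.1 hi'))).exists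
    obtain ⟨x, hx1, hx2, hx3⟩ := hD' n
    obtain ⟨j, hj, hj'⟩ := hn (x - n) (Finset.mem_range.2 (by omega))
    refine hj' ?_
    have e : n + (x - n) + j = x + j := by omega
    rw [e]
    exact hx3 j hj
  obtain ⟨i, hi, h3⟩ := h3
  obtain ⟨a, ha, h4⟩ := hD i
  obtain ⟨n, hn, hn'⟩ := (h3.and h4).exists
  refine hn' ?_
  have e : a + (i + n) = n + i + a := by omega
  rw [e]
  exact hn a (by omega)

/-! ### one mixing step -/

/-- the requirements for `R₂` can be met in every neighbourhood of every point of the class -/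
theorem mix_dense (hX : Minimal s X) {R₁ R₂ : Set ((ℕ → Fin l) × (ℕ → Fin l))}
    (h₁ : ICER s X R₁) (hm : MixStep s R₁ R₂) {a : ℕ → Fin l} (ha : a ∈ X)
    (har : Right s f c R₁ a) {a₁ : ℕ → Fin l} (haa : (a₁, a) ∈ R₁) (m N : ℕ) :
    ∃ a', (a', a) ∈ R₁ ∧ (∀ i < m, a' i = a₁ i) ∧ ∃ x, N ≤ x ∧ CloseC s f c R₂ m (sh s x a') x := by
  obtain ⟨p0, hp0, hp0R⟩ := (right_iff h₁.closed).1 har
  let L : Set (Ultrafilter ℕ) := {p | Late p} ∩ {p | (lm s p a, PD.lm p c) ∈ RC s f R₁}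
  have hL : LIdeal L := by
    refine ⟨isClosed_late.inter ((isClosed_RC h₁.closed).preimage
      ((continuous_lm a).prodMk (PD.continuous_lm c))), ⟨p0, hp0, hp0R⟩, ?_⟩
    rintro q p ⟨h1, h2⟩
    refine ⟨Late.add q h1, ?_⟩
    show (lm s (q + p) a, PD.lm (q + p) c) ∈ RC s f R₁
    rw [lm_add, PD.lm_add]
    exact RC_lm h₁ h2 q
  obtain ⟨I, hIL, hI, hmin⟩ := exists_minimal_ideal hL
  have hIz : (fun p : Ultrafilter ℕ => lm s p a) '' I = X := by
    refine hX.minimal _ ?_ (hI.nonempty.image _)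
      (hI.closed.isCompact.image (continuous_lm a)).isClosed ?_
    · rintro _ ⟨p, _, rfl⟩
      exact lm_mem hX.closed hX.shift p ha
    · rintro _ ⟨p, hp, rfl⟩
      refine ⟨pure 1 + p, hI.left _ p hp, ?_⟩
      simp only
      rw [lm_add, lm_pure_one]
  obtain ⟨p1, hp1, hp1a⟩ : a ∈ (fun p : Ultrafilter ℕ => lm s p a) '' I := hIz ▸ ha
  let S : Set (Ultrafilter ℕ) := I ∩ {p | lm s p a = a}
  have hSc : IsClosed S := hI.closed.inter (isClosed_eq (continuous_lm a) continuous_const)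
  obtain ⟨v, hv, hvv⟩ := exists_idempotent_in_compact_add_subsemigroup
    (fun r : Ultrafilter ℕ => Ultrafilter.continuous_add_left r) S ⟨p1, hp1, hp1a⟩
    hSc.isCompact (by
      rintro p ⟨_, h2⟩ q ⟨h3, h4⟩
      refine ⟨hI.left p q h3, ?_⟩
      have h2' : lm s p a = a := h2
      have h4' : lm s q a = a := h4
      show lm s (p + q) a = a
      rw [lm_add, h4', h2'])
  have hva : lm s v a = a := hv.2
  have hvL := hIL hv.1
  obtain ⟨w, hw, haw⟩ := (show (lm s v a, PD.lm v c) ∈ RC s f R₁ from hvL.2)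
  have hw' : th s f w = PD.lm v c := hw
  have haw' : (a, w) ∈ R₁ := by
    have : (lm s v a, w) ∈ R₁ := haw
    rwa [hva] at this
  have haz : (a, lm s v w) ∈ R₁ := by
    have := h₁.lm haw' v
    rwa [hva] at this
  have hzt : th s f (lm s v w) = PD.lm v c := by
    rw [th_lm, hw', ← PD.lm_add, hvv]
  have hvz : lm s v (lm s v w) = lm s v w := by rw [← lm_add, hvv]
  obtain ⟨M, hM1, hM2⟩ := exists_big (fun i => s^[i] 0) m
  have hA := mem_of_thickSyn hI hmin hv.1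
    (hm a₁ (lm s v w) (h₁.trans _ _ _ haa haz) M)
  obtain ⟨x, hx⟩ := (hA.and ((hvL.1 N).and ((PD.lm_spec_lt v c m).and
    (lm_spec_lt (s := s) v (lm s v w) M)))).exists
  obtain ⟨⟨a', h1, h2, p, hp, h3, h4⟩, h5, h6, h7⟩ := hx
  refine ⟨a', h₁.trans _ _ _ h1 (h₁.symm _ _ haz), fun i hi => h2 i (hi.trans_le hM1), x, h5,
    p, hp, fun i hi => h3 i (hi.trans_le hM1), fun i hi => ?_⟩
  rw [h4 _ (hM2 i hi), h7 _ (hM2 i hi), hvz, h6 i hi, ← hzt]
  rfl

/-! ### towers of mixing steps -/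

/-- the full family -/
theorem cl_univ : Cl (Set.univ : Set (Set ℕ)) :=
  ⟨Set.mem_univ _, fun _ _ => Set.mem_univ _, fun _ _ _ _ => Set.mem_univ _,
    fun _ _ => Set.mem_univ _, fun _ _ _ _ => Set.mem_univ _⟩

/-- exact points from approximate ones -/
theorem exact_of_dense (hC7 : StC7) (hs : Primrec s) {R : Set ((ℕ → Fin l) × (ℕ → Fin l))}
    (hR : IsClosed R) {K : Set (ℕ → Fin l)} (hK : IsClosed K)
    (h : ∀ a ∈ K, ∀ m N, ∃ a' ∈ K, (∀ i < m, a' i = a i) ∧ ∃ x, N ≤ x ∧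
      CloseC s f c R m (sh s x a') x) {a : ℕ → Fin l} (ha : a ∈ K) (m : ℕ) :
    ∃ a' ∈ K, (∀ i < m, a' i = a i) ∧ Right s f c R a' := by
  let K' : Set (ℕ → Fin l) := K ∩ ⋂ i, ⋂ (_ : i < m), {z | z i = a i}
  have hmem : ∀ z, z ∈ K' ↔ z ∈ K ∧ ∀ i < m, z i = a i := by
    intro z
    simp [K']
  have hK' : IsClosed K' := hK.inter (isClosed_iInter fun i => isClosed_iInter fun _ =>
    isClosed_eq (continuous_apply i) continuous_const)
  obtain ⟨z, hz, -, hzr⟩ := hC7 k l Set.univ cl_univ s hs R hR (Set.mem_univ _) f c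
    (Set.mem_univ _) K' hK' ⟨a, (hmem a).2 ⟨ha, fun _ _ => rfl⟩⟩ (Set.mem_univ _) (by
      intro b hb m' N
      obtain ⟨hbK, hba⟩ := (hmem b).1 hb
      obtain ⟨a', h1, h2, x, h3, h4⟩ := h b hbK (max m m') N
      exact ⟨a', (hmem a').2 ⟨h1, fun i hi => (h2 i (hi.trans_le (le_max_left _ _))).trans
        (hba i hi)⟩, fun i hi => h2 i (hi.trans_le (le_max_right _ _)), x, h3,
        closeC_mono (le_max_right _ _) h4⟩)
  exact ⟨z, ((hmem z).1 hz).1, ((hmem z).1 hz).2, hzr⟩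

theorem Mixes.icer {R R' : Set ((ℕ → Fin l) × (ℕ → Fin l))} (hR : ICER s X R)
    (h : Mixes s X R R') : ICER s X R' ∧ R' ⊆ R := by
  induction h with
  | refl => exact ⟨hR, subset_rfl⟩
  | step R₁ R₂ _ h2 hRR _ ih => exact ⟨h2, hRR.trans ih.2⟩
  | lim R' _ hRR ih =>
    refine ⟨⟨isClosed_iInter fun n => (ih n).1.closed,
      fun a b h => (ih 0).1.sub a b (Set.mem_iInter.1 h 0),
      fun a ha => Set.mem_iInter.2 fun n => (ih n).1.refl a ha,
      fun a b h => Set.mem_iInter.2 fun n => (ih n).1.symm a b (Set.mem_iInter.1 h n),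
      fun a b d h h' => Set.mem_iInter.2 fun n =>
        (ih n).1.trans a b d (Set.mem_iInter.1 h n) (Set.mem_iInter.1 h' n),
      fun a b h => Set.mem_iInter.2 fun n => (ih n).1.shift a b (Set.mem_iInter.1 h n)⟩,
      (Set.iInter_subset _ 0).trans (ih 0).2⟩

/-- mixing towers: the points that are right for the last relation are dense in every class of a
right point of the first one -/
theorem mixes_dense (hC7 : StC7) (hs : Primrec s) (hX : Minimal s X)
    {R R' : Set ((ℕ → Fin l) × (ℕ → Fin l))} (hR : ICER s X R) (h : Mixes s X R R') :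
    ∀ (y : ℕ → Fin l), y ∈ X → Right s f c R y → ∀ a, (a, y) ∈ R → ∀ m,
      ∃ a', (a', y) ∈ R ∧ (∀ i < m, a' i = a i) ∧ Right s f c R' a' := by
  have hcl : ∀ {R₀ : Set ((ℕ → Fin l) × (ℕ → Fin l))}, ICER s X R₀ → ∀ y : ℕ → Fin l,
      IsClosed {z | (z, y) ∈ R₀} := fun h₀ y =>
    h₀.closed.preimage (continuous_id.prodMk continuous_const)
  induction h with
  | refl =>
    intro y hy hr a ha m
    exact ⟨a, ha, fun _ _ => rfl, I_D3 k l s X R hR f c y a (hR.symm _ _ ha) hr⟩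
  | step R₁ R₂ h1 h2 hRR hm ih =>
    intro y hy hr a ha m
    obtain ⟨hR1, hR1R⟩ := h1.icer hR
    obtain ⟨a₁, ha1, haa, hr1⟩ := ih y hy hr a ha m
    have ha1X : a₁ ∈ X := (hR.sub _ _ ha1).1
    have hdense : ∀ b ∈ {z | (z, a₁) ∈ R₁}, ∀ m N, ∃ a' ∈ {z | (z, a₁) ∈ R₁},
        (∀ i < m, a' i = b i) ∧ ∃ x, N ≤ x ∧ CloseC s f c R₂ m (sh s x a') x := by
      intro b hb m N
      obtain ⟨a', h3, h4, h5⟩ := mix_dense hX hR1 hm ha1X hr1 (show (b, a₁) ∈ R₁ from hb) m N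
      exact ⟨a', h3, h4, h5⟩
    obtain ⟨a', h3, h4, h5⟩ := exact_of_dense hC7 hs h2.closed (hcl hR1 a₁) hdense
      (show a₁ ∈ {z | (z, a₁) ∈ R₁} from hR1.refl _ ha1X) m
    exact ⟨a', hR.trans _ _ _ (hR1R h3) ha1, fun i hi => (h4 i hi).trans (haa i hi), h5⟩
  | lim R' h hRR ih =>
    intro y hy hr a ha m
    have hcl' : ∀ n, IsClosed (R' n) := fun n => ((h n).icer hR).1.closed
    have hdense : ∀ b ∈ {z | (z, y) ∈ R}, ∀ m N, ∃ a' ∈ {z | (z, y) ∈ R},
        (∀ i < m, a' i = b i) ∧ ∃ x, N ≤ x ∧ CloseC s f c (⋂ n, R' n) m (sh s x a') x := by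
      intro b hb m N
      obtain ⟨n, hn⟩ := exists_level' (s := s) (f := f) (c := c) hcl' hRR m
      obtain ⟨a', h3, h4, h5⟩ := ih n y hy hr b hb m
      obtain ⟨x, hx, h6⟩ := h5 m N
      exact ⟨a', h3, h4, x, hx, hn _ _ h6⟩
    exact exact_of_dense hC7 hs (isClosed_iInter hcl') (hcl hR y) hdense
      (show a ∈ {z | (z, y) ∈ R} from ha) m

end Pool.Agent.Work.MP_69fea5_lc.TX
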