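import Pool.Agent.Work.MP_69fea5_lc.TX.Defs2
import Pool.Agent.Work.MP_69fea5_lc.TX.Mix

/-!
# Finite towers without codes: dynamics
-/

set_option autoImplicit false

namespace Pool.Agent.Work.MP_69fea5_lc.TX

open Filter Topology HK
open TW (Close pre pre2 close_mono close_of_mem close_congr mem_of_close exists_ultra Late
  isClosed_late ul ul_spec ul_spec_lt hyper_ge ul_mem exists_bound)

attribute [local instance] Ultrafilter.add Ultrafilter.addSemigroup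

variable {k l : ℕ} {s : ℕ → ℕ} {f : Fin l → Fin k} {c : ℕ → Fin k} {X : Set (ℕ → Fin l)}

/-! ### closed invariant relations -/

theorem ICER.cir {R : Set ((ℕ → Fin l) × (ℕ → Fin l))} (h : ICER s X R) : CIR s X R :=
  ⟨h.closed, h.sub, h.shift⟩

theorem CIR.sh {Q : Set ((ℕ → Fin l) × (ℕ → Fin l))} (hQ : CIR s X Q)
    {a b : ℕ → Fin l} (h : (a, b) ∈ Q) (x : ℕ) : (TX.sh s x a, TX.sh s x b) ∈ Q := by
  induction x with
  | zero => exact h
  | succ x ih =>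
    rw [sh_succ, sh_succ]
    exact hQ.shift _ _ ih

theorem CIR.lm {Q : Set ((ℕ → Fin l) × (ℕ → Fin l))} (hQ : CIR s X Q)
    {a b : ℕ → Fin l} (h : (a, b) ∈ Q) (p : Ultrafilter ℕ) : (TX.lm s p a, TX.lm s p b) ∈ Q :=
  lm_close hQ.closed p fun _ => Eventually.of_forall fun x => close_of_mem (hQ.sh h x)

theorem CIR.RC_lm {Q : Set ((ℕ → Fin l) × (ℕ → Fin l))} (hQ : CIR s X Q) {a : ℕ → Fin l}
    {b : ℕ → Fin k} (h : (a, b) ∈ RC s f Q) (p : Ultrafilter ℕ) :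
    (TX.lm s p a, PD.lm p b) ∈ RC s f Q := by
  obtain ⟨w, hw, h⟩ := h
  have hw' : th s f w = b := hw
  refine ⟨TX.lm s p w, ?_, hQ.lm h p⟩
  rw [th_lm, hw']

/-- an exact point is related to a point whose image is proximal to `c` -/
theorem exists_idem_exact (hX : Minimal s X) {Q : Set ((ℕ → Fin l) × (ℕ → Fin l))}
    (hQ : CIR s X Q) {y : ℕ → Fin l} (hy : y ∈ X) (h : Right s f c Q y) :
    ∃ (u : Ultrafilter ℕ) (z : ℕ → Fin l), lm s u z = z ∧ th s f z = PD.lm u c ∧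
      (y, z) ∈ Q := by
  obtain ⟨q, hq, hqR⟩ := (right_iff hQ.closed).1 h
  obtain ⟨r, hr⟩ := exists_lm_eq hX (lm_mem hX.closed hX.shift q hy) hy
  let S : Set (Ultrafilter ℕ) := {p | lm s p y = y} ∩ {p | (y, PD.lm p c) ∈ RC s f Q}
  have hS : IsClosed S := (isClosed_eq (continuous_lm y) continuous_const).inter
      ((isClosed_RC hQ.closed).preimage (continuous_const.prodMk (PD.continuous_lm c)))
  obtain ⟨u, hu, huu⟩ := exists_idempotent_in_compact_add_subsemigroup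
    (fun r : Ultrafilter ℕ => Ultrafilter.continuous_add_left r) S
    ⟨r + q, by
      refine ⟨?_, ?_⟩
      · show lm s (r + q) y = y
        rw [lm_add, hr]
      · show (y, PD.lm (r + q) c) ∈ RC s f Q
        rw [PD.lm_add]
        have := hQ.RC_lm (show (lm s q y, PD.lm q c) ∈ RC s f Q from hqR) r
        rwa [hr] at this⟩ hS.isCompact (by
      rintro p ⟨h2, h3⟩ q ⟨h5, h6⟩
      refine ⟨?_, ?_⟩
      · show lm s (p + q) y = y
        have h2' : lm s p y = y := h2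
        have h5' : lm s q y = y := h5
        rw [lm_add, h5', h2']
      · show (y, PD.lm (p + q) c) ∈ RC s f Q
        have h2' : lm s p y = y := h2
        have := hQ.RC_lm (show (y, PD.lm q c) ∈ RC s f Q from h6) p
        rw [h2'] at this
        rw [PD.lm_add]
        exact this)
  have huy : lm s u y = y := hu.1
  obtain ⟨w, hw, hyw⟩ := (show (y, PD.lm u c) ∈ RC s f Q from hu.2)
  have hw' : th s f w = PD.lm u c := hw
  have hyw' : (y, w) ∈ Q := hyw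
  refine ⟨u, lm s u w, ?_, ?_, ?_⟩
  · rw [← lm_add, huu]
  · rw [th_lm, hw', ← PD.lm_add, huu]
  · have := hQ.lm hyw' u
    rwa [huy] at this

/-! ### the set `FZ` -/

theorem FZ_nonempty (hX : Minimal s X) {Q : Set ((ℕ → Fin l) × (ℕ → Fin l))}
    (hQ : CIR s X Q) {y : ℕ → Fin l} (hy : y ∈ X) (h : Right s f c Q y) :
    (FZ s f c Q y).Nonempty := by
  obtain ⟨u, z, hz, ht, hyz⟩ := exists_idem_exact hX hQ hy h
  refine ⟨z, fun m => ⟨z, hyz, fun _ _ => rfl, ?_⟩⟩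
  obtain ⟨x, hx, hx'⟩ := ((PD.lm_spec_lt u c m).and (PD.lm_spec_lt u (th s f z) m)).exists
  refine ⟨x, fun i hi => ?_⟩
  have e : PD.lm u (th s f z) = PD.lm u c := by rw [← th_lm, hz, ht]
  rw [hx i hi, ← e]
  exact hx' i hi

theorem FZ_closed {Q : Set ((ℕ → Fin l) × (ℕ → Fin l))} {y : ℕ → Fin l} :
    IsClosed (FZ s f c Q y) := by
  have h : FZ s f c Q y = ⋂ m, {z | ∃ y', (y, y') ∈ Q ∧ (∀ i < m, y' i = z i) ∧ ∃ x, ∀ i < m,
      f (y' (s^[x + i] 0)) = c (x + i)} := by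
    ext z
    simp [FZ]
  rw [h]
  refine isClosed_iInter fun m => ?_
  have h2 : {z : ℕ → Fin l | ∃ y', (y, y') ∈ Q ∧ (∀ i < m, y' i = z i) ∧ ∃ x, ∀ i < m,
      f (y' (s^[x + i] 0)) = c (x + i)} = (fun (z : ℕ → Fin l) (i : Fin m) => z i) ⁻¹'
      {v | ∃ y', (y, y') ∈ Q ∧ (∀ i : Fin m, y' i = v i) ∧ ∃ x, ∀ i < m,
      f (y' (s^[x + i] 0)) = c (x + i)} := by
    ext z
    simp only [Set.mem_ofPred_eq, Set.mem_preimage, Fin.forall_iff]
  rw [h2]
  exact IsClosed.preimage (by fun_prop) (isClosed_discrete _)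

theorem FZ_rel {Q : Set ((ℕ → Fin l) × (ℕ → Fin l))} (hQ : IsClosed Q) {y z : ℕ → Fin l}
    (h : z ∈ FZ s f c Q y) : (y, z) ∈ Q :=
  mem_of_close hQ fun m => by
    obtain ⟨y', h1, h2, -⟩ := h m
    exact ⟨(y, y'), h1, fun _ _ => rfl, h2⟩

theorem FZ_exact {Q : Set ((ℕ → Fin l) × (ℕ → Fin l))} (hQ : CIR s X Q)
    {y z : ℕ → Fin l} (h : z ∈ FZ s f c Q y) : ∀ m, ∃ x, CloseC s f c (isoD s Q) m (sh s x z) x := by
  have hyz := FZ_rel hQ.closed h
  intro m₀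
  choose y' hy' hyz' x hx using h
  let U : Ultrafilter ℕ := hyperfilter ℕ
  let P : ℕ → ℕ → Fin l := fun m => sh s (x m) z
  let P' : ℕ → ℕ → Fin l := fun m => sh s (x m) (y' m)
  have h2 : (ul U P, ul U P') ∈ isoD s Q := by
    intro m
    obtain ⟨n, hn⟩ := ((hyper_ge m).and ((ul_spec_lt U P m).and (ul_spec_lt U P' m))).exists
    exact ⟨y, z, y' n, hyz, hy' n, fun i hi => (hyz' n i (hi.trans_le hn.1)).symm, x n,
      fun i hi => ⟨hn.2.1 i hi, hn.2.2 i hi⟩⟩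
  obtain ⟨M, hM1, hM2⟩ := exists_big (fun i => s^[i] 0) m₀
  obtain ⟨n, hn⟩ := ((hyper_ge m₀).and ((ul_spec_lt U P m₀).and (ul_spec_lt U P' M))).exists
  refine ⟨x n, _, h2, fun i hi => (hn.2.1 i hi).symm, fun i hi => ?_⟩
  show f (ul U P' (s^[i] 0)) = c (x n + i)
  rw [← hn.2.2 _ (hM2 i hi), ← hx n i (hi.trans_le hn.1)]
  show f (y' n (s^[x n] (s^[i] 0))) = f (y' n (s^[x n + i] 0))
  rw [Function.iterate_add_apply]

/-! ### the canonical relations -/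

theorem Vis.mono {m m' : ℕ} {q : (ℕ → Fin l) × (ℕ → Fin l)} {a b : ℕ → Fin l} {x : ℕ}
    (h : Vis s m' q a b x) (hm : m ≤ m') : Vis s m q a b x := fun i hi => h i (hi.trans_le hm)

/-- pairs visited by a closed invariant relation are in it -/
theorem CIR.mem_of_vis {Q : Set ((ℕ → Fin l) × (ℕ → Fin l))} (hQ : CIR s X Q)
    {q : (ℕ → Fin l) × (ℕ → Fin l)} (h : ∀ m, ∃ a b, (a, b) ∈ Q ∧ ∃ x, Vis s m q a b x) :
    q ∈ Q := by
  refine mem_of_close (a := q.1) (b := q.2) hQ.closed fun m => ?_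
  obtain ⟨a, b, hab, x, hx⟩ := h m
  exact ⟨(TX.sh s x a, TX.sh s x b), hQ.sh hab x, fun i hi => (hx i hi).1,
    fun i hi => (hx i hi).2⟩

/-- sets defined by conditions on prefixes are closed -/
theorem isClosed_prefix (P : ℕ → (ℕ → Fin l) × (ℕ → Fin l) → Prop)
    (hP : ∀ m q q', (∀ i < m, q.1 i = q'.1 i ∧ q.2 i = q'.2 i) → P m q → P m q') :
    IsClosed {q | ∀ m, P m q} := by
  have h : {q | ∀ m, P m q} = ⋂ m, {q | P m q} := by
    ext q
    simp
  rw [h]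
  refine isClosed_iInter fun m => ?_
  have h2 : {q : (ℕ → Fin l) × (ℕ → Fin l) | P m q} =
      (fun (q : (ℕ → Fin l) × (ℕ → Fin l)) (i : Fin m) => (q.1 i, q.2 i)) ⁻¹'
      {v | ∃ q, P m q ∧ ∀ i : Fin m, v i = (q.1 i, q.2 i)} := by
    ext q
    constructor
    · intro h
      exact ⟨q, h, fun _ => rfl⟩
    · rintro ⟨q', h, h'⟩
      exact hP m q' q (fun i hi => Prod.ext_iff.1 (h' ⟨i, hi⟩).symm) h
  rw [h2]
  refine IsClosed.preimage ?_ (isClosed_discrete _)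
  exact continuous_pi fun i => ((continuous_apply _).comp continuous_fst).prodMk
    ((continuous_apply _).comp continuous_snd)

theorem isoD_cir (hX : IsClosed X) (hT : ∀ z ∈ X, (fun n => z (s n)) ∈ X)
    {Q : Set ((ℕ → Fin l) × (ℕ → Fin l))} (hQ : CIR s X Q) : CIR s X (isoD s Q) := by
  have hXX : CIR s X {p | p.1 ∈ X ∧ p.2 ∈ X} :=
    ⟨(hX.preimage continuous_fst).inter (hX.preimage continuous_snd), fun a b h => h,
      fun a b h => ⟨hT _ h.1, hT _ h.2⟩⟩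
  refine ⟨?_, ?_, ?_⟩
  · refine isClosed_prefix _ fun m q q' h => ?_
    rintro ⟨y, a, b, h1, h2, h3, x, h4⟩
    exact ⟨y, a, b, h1, h2, h3, x, fun i hi => ⟨(h4 i hi).1.trans (h i hi).1,
      (h4 i hi).2.trans (h i hi).2⟩⟩
  · intro a b hab
    refine hXX.mem_of_vis (q := (a, b)) fun m => ?_
    obtain ⟨y, a', b', h1, h2, -, x, h3⟩ := hab m
    exact ⟨a', b', ⟨(hQ.sub _ _ h1).2, (hQ.sub _ _ h2).2⟩, x, h3⟩
  · intro a b hab m
    obtain ⟨M, hM1, hM2⟩ := exists_big s m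
    obtain ⟨y, a', b', h1, h2, h3, x, h4⟩ := hab M
    refine ⟨y, a', b', h1, h2, fun i hi => h3 i (hi.trans_le hM1), x + 1, fun i hi => ?_⟩
    have h5 := h4 (s i) (hM2 i hi)
    rw [sh_succ, sh_succ]
    exact h5

theorem apD_sub {Q : Set ((ℕ → Fin l) × (ℕ → Fin l))} (hQ : CIR s X Q) : apD s Q ⊆ Q := by
  intro q hq
  refine hQ.mem_of_vis fun m => ?_
  obtain ⟨g, a, b, hab, h⟩ := hq m
  obtain ⟨x, -, -, hx⟩ := h 0
  exact ⟨a, b, hab, x, hx⟩

theorem apD_cir {Q : Set ((ℕ → Fin l) × (ℕ → Fin l))} (hQ : CIR s X Q) :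
    CIR s X (apD s Q) := by
  refine ⟨?_, fun a b h => hQ.sub _ _ (apD_sub hQ h), ?_⟩
  · refine isClosed_prefix _ fun m q q' h => ?_
    rintro ⟨g, a, b, h1, h2⟩
    refine ⟨g, a, b, h1, fun t => ?_⟩
    obtain ⟨x, h3, h4, h5⟩ := h2 t
    exact ⟨x, h3, h4, fun i hi => ⟨(h5 i hi).1.trans (h i hi).1, (h5 i hi).2.trans (h i hi).2⟩⟩
  · intro a b hab m
    obtain ⟨M, hM1, hM2⟩ := exists_big s m
    obtain ⟨g, a', b', h1, h2⟩ := hab M
    refine ⟨g + 1, a', b', h1, fun t => ?_⟩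
    obtain ⟨x, h3, h4, h5⟩ := h2 t
    refine ⟨x + 1, by omega, by omega, fun i hi => ?_⟩
    rw [sh_succ, sh_succ]
    exact h5 (s i) (hM2 i hi)

/-- monotonicity: isometric steps -/
theorem isoD_sub {Q R R' : Set ((ℕ → Fin l) × (ℕ → Fin l))} (hR : ICER s X R)
    (hI : IsoStep s R R') (h : Q ⊆ R) : isoD s Q ⊆ R' := by
  intro q hq
  refine hI q fun m => ?_
  obtain ⟨y, a, b, ha, hb, hab, x, hx⟩ := hq m
  exact ⟨a, b, hR.trans _ _ _ (hR.symm _ _ (h ha)) (h hb), hab, x, hx⟩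

/-- monotonicity: proximal steps -/
theorem apD_sub' {Q R R' : Set ((ℕ → Fin l) × (ℕ → Fin l))} (hR' : ICER s X R')
    (hP : ProxStep s R R') (h : Q ⊆ R) : apD s Q ⊆ R' := by
  intro q hq
  refine hR'.cir.mem_of_vis fun m => ?_
  obtain ⟨g, a, b, hab, h1⟩ := hq m
  obtain ⟨M, hM1, hM2⟩ := exists_bound (P := fun d M => ∀ i < m, s^[d] i < M)
    (fun d M M' hM h i hi => (h i hi).trans_le hM) g (fun d _ => by
      obtain ⟨M, -, hM⟩ := exists_big (fun i => s^[d] i) m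
      exact ⟨M, hM⟩) |>.imp fun M hM => (⟨le_rfl, hM⟩ : M ≤ M ∧ ∀ a < g, ∀ i < m, s^[a] i < M)
  obtain ⟨x, r, hr, hr1, hr2⟩ := hP a b (h hab) M
  obtain ⟨x', h2, h3, h4⟩ := h1 x
  obtain ⟨d, rfl⟩ : ∃ d, x' = x + d := ⟨x' - x, by omega⟩
  refine ⟨r.1, r.2, hr, d, fun i hi => ?_⟩
  have h5 := h4 i hi
  rw [← sh_sh, ← sh_sh] at h5
  have h6 : s^[d] i < M := hM2 d (by omega) i hi
  exact ⟨(hr1 _ h6).trans h5.1, (hr2 _ h6).trans h5.2⟩

/-! ### uniformly recurrent pairs -/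

/-- limits along members of minimal left ideals are uniformly recurrent -/
theorem syndetic_of_minimal {I : Set (Ultrafilter ℕ)} (hI : LIdeal I)
    (hmin : ∀ J ⊆ I, LIdeal J → J = I) {v : Ultrafilter ℕ} (hv : v ∈ I) {A : Set ℕ}
    (hA : ∀ᶠ n in (v : Filter ℕ), n ∈ A) :
    ∃ g, ∀ t, ∃ x, t ≤ x ∧ x < t + g ∧ ∀ᶠ n in (v : Filter ℕ), x + n ∈ A := by
  have h1 : ∀ q : Ultrafilter ℕ, ∃ a, ∀ᶠ m in (q : Filter ℕ), ∀ᶠ n in (v : Filter ℕ),
      a + (m + n) ∈ A := by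
    intro q
    have hJ : Set.range (fun r : Ultrafilter ℕ => r + (q + v)) = I := by
      refine hmin _ ?_ ⟨?_, Set.range_nonempty _, ?_⟩
      · rintro _ ⟨r, rfl⟩
        exact hI.left _ _ (hI.left _ _ hv)
      · exact (isCompact_range (Ultrafilter.continuous_add_left (q + v))).isClosed
      · rintro r _ ⟨r', rfl⟩
        exact ⟨r + r', by simp only [add_assoc]⟩
    obtain ⟨r, hr⟩ : v ∈ Set.range (fun r : Ultrafilter ℕ => r + (q + v)) := by
      rw [hJ]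
      exact hv
    have hr' : r + (q + v) = v := hr
    rw [← hr'] at hA
    obtain ⟨a, ha⟩ := ((Ultrafilter.eventually_add r (q + v) _).1 hA).exists
    exact ⟨a, (Ultrafilter.eventually_add q v _).1 ha⟩
  have h2 : ∃ D, ∀ m, ∃ a ≤ D, ∀ᶠ n in (v : Filter ℕ), a + (m + n) ∈ A := by
    by_contra hD
    push Not at hD
    obtain ⟨q, hq⟩ := exists_ultra (G := fun D => {m | ∀ a ≤ D, ∀ᶠ n in (v : Filter ℕ),
      a + (m + n) ∉ A}) (fun D D' hDD m hm a ha => hm a (ha.trans hDD)) hD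
    obtain ⟨a, ha⟩ := h1 q
    obtain ⟨m, hm, hm'⟩ := (ha.and (hq a)).exists
    obtain ⟨n, hn, hn'⟩ := (hm.and (hm' a le_rfl)).exists
    exact hn' hn
  obtain ⟨D, hD⟩ := h2
  refine ⟨D + 1, fun t => ?_⟩
  obtain ⟨a, ha, h3⟩ := hD t
  refine ⟨t + a, by omega, by omega, h3.mono fun n hn => ?_⟩
  have e : t + a + n = a + (t + n) := by omega
  rw [e]
  exact hn

/-- exact points are exact modulo `apD` -/
theorem exact_apD {Q : Set ((ℕ → Fin l) × (ℕ → Fin l))} (hQ : CIR s X Q) {y : ℕ → Fin l}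
    (h : Right s f c Q y) : Right s f c (apD s Q) y := by
  obtain ⟨q, hq, w, hw, hqQ⟩ := (right_iff hQ.closed).1 h
  obtain ⟨I, -, hI, hmin⟩ := exists_minimal_ideal
    (L := Set.univ) ⟨isClosed_univ, Set.univ_nonempty, fun _ _ _ => Set.mem_univ _⟩
  obtain ⟨v, hv⟩ := hI.nonempty
  refine (right_iff (apD_cir hQ).closed).2 ⟨v + q, Late.add v hq, lm s v w, ?_, ?_⟩
  · rw [th_lm, hw, PD.lm_add]
  · rw [lm_add]
    have hmem := hQ.lm hqQ v
    intro m
    -- the times at which the pair is close to its limit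
    obtain ⟨g, hg⟩ := syndetic_of_minimal hI hmin hv
      (A := {n | (∀ i < m, sh s n (lm s q y) i = lm s v (lm s q y) i) ∧
        ∀ i < m, sh s n w i = lm s v w i}) ((lm_spec_lt v _ m).and (lm_spec_lt v _ m))
    refine ⟨g, lm s v (lm s q y), lm s v w, hmem, fun t => ?_⟩
    obtain ⟨x, h1, h2, h3⟩ := hg t
    refine ⟨x, h1, h2, fun i hi => ?_⟩
    obtain ⟨n, hn, hn1, hn2⟩ := (h3.and ((lm_spec v (lm s q y) (s^[x] i)).and
      (lm_spec v w (s^[x] i)))).exists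
    constructor
    · show lm s v (lm s q y) (s^[x] i) = lm s v (lm s q y) i
      rw [← hn1, ← hn.1 i hi]
      show lm s q y (s^[n] (s^[x] i)) = lm s q y (s^[x + n] i)
      rw [← Function.iterate_add_apply, add_comm]
    · show lm s v w (s^[x] i) = lm s v w i
      rw [← hn2, ← hn.2 i hi]
      show w (s^[n] (s^[x] i)) = w (s^[x + n] i)
      rw [← Function.iterate_add_apply, add_comm]

end Pool.Agent.Work.MP_69fea5_lc.TX
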