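import Pool.Agent.Work.MP_69fea5_lc.TX.Asm
import Pool.Agent.Work.MP_69fea5_lc.TX.Top

/-!
# Assembly: finite towers without codes on top of a reached relation
-/

set_option autoImplicit false

namespace Pool.Agent.Work.MP_69fea5_lc.TX

open Filter Topology HK
open TW (Close pre pre2 close_mono close_of_mem close_congr mem_of_close exists_ultra Late
  isClosed_late ul ul_spec ul_spec_lt hyper_ge ul_mem exists_bound StC1 StC2 StC5 StC6)

attribute [local instance] Ultrafilter.add Ultrafilter.addSemigroup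

variable {k l : ℕ} {s : ℕ → ℕ} {f : Fin l → Fin k} {c : ℕ → Fin k} {X : Set (ℕ → Fin l)}

/-- pairs that meet, meet arbitrarily late -/
theorem CIR.right_of_meet {Q : Set ((ℕ → Fin l) × (ℕ → Fin l))} (hQ : CIR s X Q)
    {y : ℕ → Fin l} (h : ∀ m, ∃ x, CloseC s f c Q m (TX.sh s x y) x) : Right s f c Q y := by
  intro m N
  obtain ⟨M, hM1, hM2⟩ := exists_big (fun i => s^[N] i) m
  obtain ⟨x, q, hq, h1, h2⟩ := h (N + M)
  refine ⟨x + N, Nat.le_add_left _ _, (TX.sh s N q.1, TX.sh s N q.2), hQ.sh hq N,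
    fun i hi => ?_, fun i hi => ?_⟩
  · show q.1 (s^[N] i) = TX.sh s (x + N) y i
    rw [h1 _ ((hM2 i hi).trans_le (Nat.le_add_left _ _)), ← sh_sh]
    rfl
  · show f (q.2 (s^[N] (s^[i] 0))) = c (x + N + i)
    rw [← Function.iterate_add_apply, h2 (N + i) (by omega), add_assoc]

/-- exact points modulo relations whose pairs have proximal images -/
theorem agree_of_exact {Q : Set ((ℕ → Fin l) × (ℕ → Fin l))} (hQ : IsClosed Q)
    (hp : ∀ p ∈ Q, ∀ m, ∃ x, ∀ i < m, th s f p.1 (x + i) = th s f p.2 (x + i))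
    {y : ℕ → Fin l} (h : Right s f c Q y) (m N : ℕ) :
    ∃ x, N ≤ x ∧ ∀ i < m, th s f y (x + i) = c (x + i) := by
  obtain ⟨q, hq, w, hw, hqQ⟩ := (right_iff hQ).1 h
  obtain ⟨r, hr⟩ := exists_ultra (G := fun m => {x | ∀ i < m,
    th s f (lm s q y) (x + i) = th s f w (x + i)}) (fun a b hab x hx i hi =>
      hx i (hi.trans_le hab)) (hp _ hqQ)
  have e : PD.lm (r + q) (th s f y) = PD.lm (r + q) c := by
    rw [PD.lm_add, PD.lm_add, ← th_lm, ← hw]
    funext i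
    rw [PD.lm_eq_iff]
    filter_upwards [hr (i + 1), PD.lm_spec r (th s f w) i] with x h1 h2
    rw [h1 i (Nat.lt_succ_self i), h2]
  obtain ⟨x, h1, h2, h3⟩ := ((Late.add r hq N).and ((PD.lm_spec_lt (r + q) (th s f y) m).and
    (PD.lm_spec_lt (r + q) c m))).exists
  exact ⟨x, h1, fun i hi => by rw [h2 i hi, h3 i hi, e]⟩

/-- `R` contains a coded closed invariant relation modulo which a coded point is exact -/
def Exa (S : Set (Set ℕ)) (s : ℕ → ℕ) (X : Set (ℕ → Fin l)) (f : Fin l → Fin k) (c : ℕ → Fin k)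
    (R : Set ((ℕ → Fin l) × (ℕ → Fin l))) : Prop :=
  ∃ T : Set ((ℕ → Fin l) × (ℕ → Fin l)), CIR s X T ∧ T ⊆ R ∧ Ar S (pre2 T) ∧
    ∃ y ∈ X, ArF S y ∧ Right s f c T y

theorem exa_base (hC1 : StC1) {S : Set (Set ℕ)} (hS : Cl S)
    {R : Set ((ℕ → Fin l) × (ℕ → Fin l))} (hR : ICER s X R) (hRS : Ar S (pre2 R))
    (h : Good S s X f c R) : Exa S s X f c R := by
  obtain ⟨E, hEn, hEc, hEM, _, hright, hES⟩ := h
  obtain ⟨y₀, hy₀E, hy₀S⟩ := hC1 l S hS E hEc hEn hES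
  exact ⟨R, hR.cir, subset_rfl, hRS, y₀, hEM hy₀E, hy₀S, hright y₀ hy₀E⟩

theorem exa_iso (hC1 : StC1) (hC8 : StC8) (hC10 : StC10) (hs : Primrec s) {S : Set (Set ℕ)}
    (hS : Cl S) (hX : Minimal s X) (hc : ArF S c) {R R' : Set ((ℕ → Fin l) × (ℕ → Fin l))}
    (hR : ICER s X R) (h : Exa S s X f c R) (hst : IsoStep s R R') : Exa S s X f c R' := by
  obtain ⟨T, hT, hTQ, hTS, y, hy, hyS, hyr⟩ := h
  have hT' := isoD_cir hX.closed hX.shift hT
  obtain ⟨z, hz, hzS⟩ := hC1 l S hS _ FZ_closed (FZ_nonempty hX hT hy hyr)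
    (hC10 k l S hS s hs T hT.closed hTS f c hc y hyS)
  exact ⟨isoD s T, hT', isoD_sub hR hst hTQ, hC8 l S hS s hs T hT.closed hTS, z,
    (hT.sub _ _ (FZ_rel hT.closed hz)).2, hzS, hT'.right_of_meet (FZ_exact hT hz)⟩

theorem exa_prox (hC9 : StC9) (hs : Primrec s) {S : Set (Set ℕ)} (hS : Cl S)
    {R R' : Set ((ℕ → Fin l) × (ℕ → Fin l))} (hR' : ICER s X R') (h : Exa S s X f c R)
    (hst : ProxStep s R R') : Exa S s X f c R' := by
  obtain ⟨T, hT, hTQ, hTS, y, hy, hyS, hyr⟩ := h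
  exact ⟨apD s T, apD_cir hT, apD_sub' hR' hst hTQ, hC9 l S hS s hs T hT.closed hTS, y, hy,
    hyS, exact_apD hT hyr⟩

theorem exa_final (hC6 : StC6) (hs : Primrec s) {S : Set (Set ℕ)} (hS : Cl S)
    (hX : Minimal s X) (hc : ArF S c) {R : Set ((ℕ → Fin l) × (ℕ → Fin l))}
    (hR : ICER s X R) (h : Exa S s X f c R) (hf : ∀ p ∈ R, f (p.1 0) = f (p.2 0)) :
    ∃ Y ∈ S, Y.Infinite ∧ (∀ x ∈ Y, 0 < x) ∧
      ∃ i, ∀ F : Finset ℕ, F.Nonempty → (↑F : Set ℕ) ⊆ Y → c (∑ x ∈ F, x) = i := by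
  obtain ⟨T, hT, hTQ, -, y, hy, hyS, hyr⟩ := h
  have hth : ArF S (th s f y) := by
    have h1 : Primrec fun i : ℕ => s^[i] 0 := Primrec.nat_iterate Primrec.id (Primrec.const 0)
      (hs.comp Primrec.snd)
    exact ArF.map hS (Primrec.dom_finite f) (hyS.comp hS (f := fun i : ℕ => s^[i] 0)
      (ArF.of_primrec hS h1))
  exact hC6 k S hS _ (image_minimal (φ := f) hX) c hc (th s f y) ⟨y, hy, rfl⟩ hth
    (agree_of_exact hT.closed (fun p hp _ => ⟨0, fun i _ => by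
      have := hf _ (hR.sh (hTQ hp) i)
      rw [zero_add]
      exact this⟩) hyr)

end Pool.Agent.Work.MP_69fea5_lc.TX
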