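import Pool.Agent.Work.MP_69fea5_lc.TX.Defs

/-!
# Weakly mixing minimal systems

A weakly mixing minimal system gives a mixing step from the full relation to the diagonal.
-/

set_option autoImplicit false

namespace Pool.Agent.Work.MP_69fea5_lc.TX

open HK Filter Topology
open TW (Close pre pre2)

variable {k l : ℕ}

/-- weakly mixing systems: any two pairs of cylinders have a common transition time -/
def WeakMix (s : ℕ → ℕ) (X : Set (ℕ → Fin l)) : Prop :=
  ∀ m, ∀ a ∈ X, ∀ b ∈ X, ∀ a' ∈ X, ∀ b' ∈ X, ∃ x,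
    (∃ z ∈ X, (∀ j < m, z j = a j) ∧ ∀ j < m, sh s x z j = b j) ∧
    ∃ z ∈ X, (∀ j < m, z j = a' j) ∧ ∀ j < m, sh s x z j = b' j

/-- the full relation -/
def full (X : Set (ℕ → Fin l)) : Set ((ℕ → Fin l) × (ℕ → Fin l)) := {p | p.1 ∈ X ∧ p.2 ∈ X}

/-- the diagonal -/
def diag (X : Set (ℕ → Fin l)) : Set ((ℕ → Fin l) × (ℕ → Fin l)) := {p | p.1 ∈ X ∧ p.2 = p.1}

theorem icer_full {s : ℕ → ℕ} {X : Set (ℕ → Fin l)} (hX : Minimal s X) : ICER s X (full X) where
  closed := (hX.closed.preimage continuous_fst).inter (hX.closed.preimage continuous_snd)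
  sub _ _ h := h
  refl _ h := ⟨h, h⟩
  symm _ _ h := ⟨h.2, h.1⟩
  trans _ _ _ h h' := ⟨h.1, h'.2⟩
  shift _ _ h := ⟨hX.shift _ h.1, hX.shift _ h.2⟩

theorem icer_diag {s : ℕ → ℕ} {X : Set (ℕ → Fin l)} (hX : Minimal s X) : ICER s X (diag X) where
  closed := (hX.closed.preimage continuous_fst).inter (isClosed_eq continuous_snd continuous_fst)
  sub a b h := ⟨h.1, by rw [show b = a from h.2]; exact h.1⟩
  refl _ h := ⟨h, rfl⟩
  symm a b h := ⟨by rw [show b = a from h.2]; exact h.1, (show b = a from h.2).symm⟩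
  trans a b d h h' := ⟨h.1, (show d = b from h'.2).trans (show b = a from h.2)⟩
  shift a b h := ⟨hX.shift _ h.1, by
    have e : b = a := h.2
    show (fun n => b (s n)) = fun n => a (s n)
    rw [e]⟩

theorem ar_full {S : Set (Set ℕ)} (hS : Cl S) {X : Set (ℕ → Fin l)} (h : Ar S (pre X)) :
    Ar S (pre2 (full X)) := by
  refine Ar.congr (R := fun w : List (Fin l) × List (Fin l) => pre X w.1 ∧ pre X w.2) ?_ ?_
  · exact Ar.and hS (h.comp hS Primrec.fst) (h.comp hS Primrec.snd)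
  · intro w
    constructor
    · rintro ⟨p, hp, h1, h2⟩
      exact ⟨⟨p.1, hp.1, h1⟩, ⟨p.2, hp.2, h2⟩⟩
    · rintro ⟨⟨a, ha, h1⟩, ⟨b, hb, h2⟩⟩
      exact ⟨(a, b), ⟨ha, hb⟩, h1, h2⟩

theorem ar_diag {S : Set (Set ℕ)} (hS : Cl S) {X : Set (ℕ → Fin l)} (h : Ar S (pre X)) :
    Ar S (pre2 (diag X)) := by
  refine Ar.congr (R := fun w : List (Fin l) × List (Fin l) =>
    (pre X w.1 ∧ w.1.take w.2.length = w.2) ∨ (pre X w.2 ∧ w.2.take w.1.length = w.1)) ?_ ?_
  · refine Ar.or hS (Ar.and hS (h.comp hS Primrec.fst) ?_) (Ar.and hS (h.comp hS Primrec.snd) ?_)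
    · exact Ar.eq hS (ArF.of_primrec hS (Primrec.list_take.comp
        (Primrec.list_length.comp Primrec.snd) Primrec.fst)) (ArF.snd hS)
    · exact Ar.eq hS (ArF.of_primrec hS (Primrec.list_take.comp
        (Primrec.list_length.comp Primrec.fst) Primrec.snd)) (ArF.fst hS)
  · rintro ⟨u, v⟩
    have key : ∀ (a : ℕ → Fin l) (u v : List (Fin l)), u.take v.length = v →
        (∀ i (h : i < u.length), a i = u[i]) → ∀ i (h : i < v.length), a i = v[i] := by
      intro a u v h1 h2 i hi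
      have hl : v.length ≤ u.length := by
        have := congrArg List.length h1
        rw [List.length_take] at this
        omega
      rw [h2 i (by omega)]
      have h3 : (u.take v.length)[i]? = v[i]? := by rw [h1]
      rw [List.getElem?_take_of_lt hi, List.getElem?_eq_getElem (by omega),
        List.getElem?_eq_getElem hi, Option.some.injEq] at h3
      exact h3
    have key' : ∀ (a : ℕ → Fin l) (u v : List (Fin l)), v.length ≤ u.length →
        (∀ i (h : i < u.length), a i = u[i]) → (∀ i (h : i < v.length), a i = v[i]) →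
        u.take v.length = v := by
      intro a u v hl h1 h2
      apply List.ext_getElem
      · rw [List.length_take]
        omega
      · intro i hi hi'
        rw [List.getElem_take, ← h1 i (by omega), h2 i hi']
    constructor
    · rintro ⟨⟨a, b⟩, ⟨ha, hb⟩, h1, h2⟩
      simp only at ha hb h1 h2
      subst hb
      rcases le_total v.length u.length with hl | hl
      · exact Or.inl ⟨⟨b, ha, h1⟩, key' b u v hl h1 h2⟩
      · exact Or.inr ⟨⟨b, ha, h2⟩, key' b v u hl h2 h1⟩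
    · rintro (⟨⟨a, ha, h1⟩, h2⟩ | ⟨⟨a, ha, h1⟩, h2⟩)
      · exact ⟨(a, a), ⟨ha, rfl⟩, h1, key a u v h2 h1⟩
      · exact ⟨(a, a), ⟨ha, rfl⟩, key a v u h2 h1, h1⟩

namespace XWM

theorem sh_sh (s : ℕ → ℕ) (x t : ℕ) (z : ℕ → Fin l) : sh s t (sh s x z) = sh s (x + t) z := by
  funext i
  show z (s^[x] (s^[t] i)) = z (s^[x + t] i)
  rw [Function.iterate_add_apply]

theorem sh_comm (s : ℕ → ℕ) (x t : ℕ) (z : ℕ → Fin l) :
    sh s t (sh s x z) = sh s x (sh s t z) := by
  rw [sh_sh, sh_sh, add_comm]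

theorem shX {s : ℕ → ℕ} {X : Set (ℕ → Fin l)} (hX : Minimal s X) {z : ℕ → Fin l} (hz : z ∈ X)
    (n : ℕ) : sh s n z ∈ X := by
  induction n with
  | zero => exact hz
  | succ n ih =>
    have h1 := hX.shift _ ih
    have e : (fun i => sh s n z (s i)) = sh s (n + 1) z := by
      funext i
      show z (s^[n] (s i)) = z (s^[n + 1] i)
      rw [Function.iterate_succ_apply]
    rwa [e] at h1

/-- agreement far enough gives agreement of the first iterates -/
theorem far (s : ℕ → ℕ) (m L : ℕ) : ∃ m', m ≤ m' ∧ ∀ z z' : ℕ → Fin l,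
    (∀ j < m', z j = z' j) → ∀ i < L, ∀ j < m, sh s i z j = sh s i z' j := by
  refine ⟨m + ∑ i ∈ Finset.range L, ∑ j ∈ Finset.range m, (s^[i] j + 1), Nat.le_add_right _ _,
    fun z z' h i hi j hj => h _ ?_⟩
  have h1 : s^[i] j + 1 ≤ ∑ j ∈ Finset.range m, (s^[i] j + 1) :=
    Finset.single_le_sum (f := fun j => s^[i] j + 1) (fun _ _ => Nat.zero_le _)
      (Finset.mem_range.2 hj)
  have h2 : ∑ j ∈ Finset.range m, (s^[i] j + 1) ≤
      ∑ i ∈ Finset.range L, ∑ j ∈ Finset.range m, (s^[i] j + 1) :=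
    Finset.single_le_sum (f := fun i => ∑ j ∈ Finset.range m, (s^[i] j + 1))
      (fun _ _ => Nat.zero_le _) (Finset.mem_range.2 hi)
  omega

/-- transition times -/
def NN (s : ℕ → ℕ) (X : Set (ℕ → Fin l)) (m : ℕ) (a b : ℕ → Fin l) : Set ℕ :=
  {x | ∃ z ∈ X, (∀ j < m, z j = a j) ∧ ∀ j < m, sh s x z j = b j}

theorem NN_mono {s : ℕ → ℕ} {X : Set (ℕ → Fin l)} {m m' : ℕ} (h : m ≤ m') (a b : ℕ → Fin l) :
    NN s X m' a b ⊆ NN s X m a b := by
  rintro x ⟨z, hz, h1, h2⟩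
  exact ⟨z, hz, fun j hj => h1 j (hj.trans_le h), fun j hj => h2 j (hj.trans_le h)⟩

theorem NN_congr {s : ℕ → ℕ} {X : Set (ℕ → Fin l)} {m : ℕ} {a b b' : ℕ → Fin l}
    (h : ∀ j < m, b j = b' j) : NN s X m a b ⊆ NN s X m a b' := by
  rintro x ⟨z, hz, h1, h2⟩
  exact ⟨z, hz, h1, fun j hj => (h2 j hj).trans (h j hj)⟩

/-- Furstenberg's intersection lemma -/
theorem NN_inter {s : ℕ → ℕ} {X : Set (ℕ → Fin l)} (hX : Minimal s X) (hw : WeakMix s X) (m : ℕ)
    {a b a' b' : ℕ → Fin l} (ha : a ∈ X) (hb : b ∈ X) (ha' : a' ∈ X) (hb' : b' ∈ X) :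
    ∃ m', ∃ A ∈ X, ∃ B ∈ X, NN s X m' A B ⊆ NN s X m a b ∩ NN s X m a' b' := by
  obtain ⟨n, ⟨A, hA, h1, h2⟩, ⟨B, hB, h3, h4⟩⟩ := hw m a ha a' ha' b hb b' hb'
  obtain ⟨m', hm, hf⟩ := far (l := l) s m (n + 1)
  refine ⟨m', A, hA, B, hB, ?_⟩
  rintro x ⟨z, hz, h5, h6⟩
  constructor
  · exact ⟨z, hz, fun j hj => by rw [h5 j (by omega), h1 j hj],
      fun j hj => by rw [h6 j (by omega), h3 j hj]⟩
  · refine ⟨sh s n z, shX hX hz n, fun j hj => ?_, fun j hj => ?_⟩
    · rw [hf z A h5 n (by omega) j hj, h2 j hj]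
    · rw [← sh_comm, hf (sh s x z) B h6 n (by omega) j hj, h4 j hj]

theorem NN_fin {s : ℕ → ℕ} {X : Set (ℕ → Fin l)} (hX : Minimal s X) (hw : WeakMix s X) (m : ℕ)
    {a : ℕ → Fin l} (ha : a ∈ X) (t : Finset (Fin m → Fin l)) :
    ∃ m', ∃ A ∈ X, ∃ B ∈ X, ∀ b ∈ X, (fun j : Fin m => b j) ∈ t →
      NN s X m' A B ⊆ NN s X m a b := by
  classical
  induction t using Finset.induction_on with
  | empty => exact ⟨0, a, ha, a, ha, fun b _ h => absurd h (Finset.notMem_empty _)⟩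
  | insert w t _ ih =>
    obtain ⟨m', A, hA, B, hB, h⟩ := ih
    by_cases hw' : ∃ b ∈ X, (fun j : Fin m => b j) = w
    · obtain ⟨b0, hb0, rfl⟩ := hw'
      obtain ⟨m'', A', hA', B', hB', h'⟩ := NN_inter hX hw (max m m') hA hB ha hb0
      refine ⟨m'', A', hA', B', hB', fun b hb hbs => ?_⟩
      rcases Finset.mem_insert.1 hbs with e | hbs
      · refine (h'.trans Set.inter_subset_right).trans ((NN_mono (le_max_left _ _) _ _).trans
          (NN_congr fun j hj => ?_))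
        exact (congrFun e ⟨j, hj⟩).symm
      · exact (h'.trans Set.inter_subset_left).trans ((NN_mono (le_max_right _ _) _ _).trans
          (h b hb hbs))
    · refine ⟨m', A, hA, B, hB, fun b hb hbs => ?_⟩
      rcases Finset.mem_insert.1 hbs with e | hbs
      · exact absurd ⟨b, hb, e⟩ hw'
      · exact h b hb hbs

/-- returns to a cylinder are syndetic -/
theorem returns {s : ℕ → ℕ} {X : Set (ℕ → Fin l)} (hX : Minimal s X) {w : ℕ → Fin l} (hw : w ∈ X)
    (m : ℕ) : ∃ g, ∀ v ∈ X, ∃ i < g, ∀ j < m, sh s i v j = w j := by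
  by_contra hcon
  push Not at hcon
  choose v hv hv' using hcon
  obtain ⟨z, hz, φ, hφ, ht⟩ := hX.closed.isCompact.tendsto_subseq hv
  have h1 : ∀ i, ∃ j < m, sh s i z j ≠ w j := by
    intro i
    obtain ⟨m', _, hf⟩ := far (l := l) s m (i + 1)
    have h2 : ∀ᶠ n in atTop, ∀ j ∈ Finset.range m', v (φ n) j = z j := by
      rw [Filter.eventually_all_finset]
      intro j _
      have := tendsto_pi_nhds.1 ht j
      rw [nhds_discrete, tendsto_pure] at this
      exact this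
    obtain ⟨n, h3, h4⟩ := (h2.and (eventually_gt_atTop i)).exists
    obtain ⟨j, hj, h5⟩ := hv' (φ n) i (lt_of_lt_of_le h4 (hφ.id_le n))
    refine ⟨j, hj, ?_⟩
    rw [← hf (v (φ n)) z (fun j hj => h3 j (Finset.mem_range.2 hj)) i (by omega) j hj]
    exact h5
  let N : Set (ℕ → Fin l) := {u | u ∈ X ∧ ∀ i, ∃ j < m, sh s i u j ≠ w j}
  have hN : N = X := by
    refine hX.minimal N (fun u hu => hu.1) ⟨z, hz, h1⟩ ?_ ?_
    · refine IsClosed.inter hX.closed ?_
      have e : {u : ℕ → Fin l | ∀ i, ∃ j < m, sh s i u j ≠ w j} =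
          ⋂ i, ⋃ j ∈ Finset.range m, {u | sh s i u j ≠ w j} := by
        ext u
        simp
      change IsClosed {u : ℕ → Fin l | ∀ i, ∃ j < m, sh s i u j ≠ w j}
      rw [e]
      refine isClosed_iInter fun i => isClosed_biUnion_finset fun j _ => ?_
      have : {u : ℕ → Fin l | sh s i u j ≠ w j} =
          (fun u : ℕ → Fin l => u (s^[i] j)) ⁻¹' {w j}ᶜ := by
        ext u
        simp [sh]
      rw [this]
      exact (isClosed_discrete _).preimage (continuous_apply _)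
    · rintro u ⟨hu, hu'⟩
      refine ⟨hX.shift u hu, fun i => ?_⟩
      obtain ⟨j, hj, h6⟩ := hu' (i + 1)
      refine ⟨j, hj, ?_⟩
      have e : sh s i (fun n => u (s n)) j = sh s (i + 1) u j := by
        show u (s (s^[i] j)) = u (s^[i + 1] j)
        rw [Function.iterate_succ_apply']
      rw [e]
      exact h6
  have : w ∈ N := by rw [hN]; exact hw
  obtain ⟨j, _, h7⟩ := this.2 0
  exact h7 rfl

end XWM

open XWM in
/-- weakly mixing minimal systems give mixing steps -/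
theorem mixStep_of_weakMix {s : ℕ → ℕ} {X : Set (ℕ → Fin l)} (hX : Minimal s X)
    (hw : WeakMix s X) : MixStep s (full X) (diag X) := by
  rintro a b ⟨ha, hb⟩ m L
  obtain ⟨M, hmM, hf⟩ := far (l := l) s m L
  obtain ⟨m', A, hA, B, hB, h⟩ := NN_fin hX hw M ha Finset.univ
  obtain ⟨n, ⟨W, hW, h1, h2⟩, -⟩ := hw m' A hA B hB A hA B hB
  obtain ⟨M', hM', hf'⟩ := far (l := l) s m' (n + 1)
  obtain ⟨g, hg⟩ := returns hX hW M'
  refine ⟨g + n, fun x => ?_⟩
  obtain ⟨i, hi, h3⟩ := hg (sh s x W) (shX hX hW x)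
  refine ⟨x + i + n, by omega, by omega, ?_⟩
  have h5 : x + i + n ∈ NN s X m' A B := by
    refine ⟨W, hW, h1, fun j hj => ?_⟩
    rw [← sh_sh, ← sh_sh, hf' (sh s i (sh s x W)) W h3 n (by omega) j hj, h2 j hj]
  obtain ⟨z', hz', h8, h9⟩ := h (sh s (x + i + n) b) (shX hX hb _) (Finset.mem_univ _) h5
  intro t ht
  refine ⟨z', ⟨hz', hb⟩, fun j hj => h8 j (by omega), ?_⟩
  have e := hf (sh s (x + i + n) z') (sh s (x + i + n) b) h9 t ht
  simp only [sh_sh] at e
  exact ⟨(sh s (x + i + n + t) z', sh s (x + i + n + t) z'), ⟨shX hX hz' _, rfl⟩,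
    fun _ _ => rfl, fun j hj => e j hj⟩

end Pool.Agent.Work.MP_69fea5_lc.TX
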