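import Pool.Agent.Work.MP_69fea5_lc.TX.Asm2
import Pool.Agent.Work.MP_69fea5_lc.TX.WM

/-!
# Assembly: steps without codes at any place of the tower

The inductive class `Reached` of relations; codes are needed only for distal steps which are not
finite towers of isometric steps, for mixing towers and for infinite towers.
-/

set_option autoImplicit false

namespace Pool.Agent.Work.MP_69fea5_lc.TX

open Filter Topology HK
open TW (Close pre pre2 close_mono close_of_mem close_congr mem_of_close exists_ultra Late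
  isClosed_late ul ul_spec ul_spec_lt hyper_ge ul_mem exists_bound StC1 StC2 StC5 StC6)

attribute [local instance] Ultrafilter.add Ultrafilter.addSemigroup

variable {k l : ℕ} {s : ℕ → ℕ} {f : Fin l → Fin k} {c : ℕ → Fin k} {X : Set (ℕ → Fin l)}

/-- The closed invariant equivalence relations on `X` that can be reached. -/
inductive Reached (S : Set (Set ℕ)) (s : ℕ → ℕ) (X : Set (ℕ → Fin l)) (f : Fin l → Fin k)
    (c : ℕ → Fin k) : Set ((ℕ → Fin l) × (ℕ → Fin l)) → Prop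
  | full : Reached S s X f c (full X)
  | point (R : Set ((ℕ → Fin l) × (ℕ → Fin l))) (hR : ICER s X R) (hS : Ar S (pre2 R))
      (y : ℕ → Fin l) (hy : y ∈ X) (hyc : ∀ m, ∃ x, CloseC s f c R m (sh s x y) x)
      (hd : ∀ z ∈ X, ProxMod s R y z → (y, z) ∈ R) : Reached S s X f c R
  | prox (R R' : Set ((ℕ → Fin l) × (ℕ → Fin l))) (h : Reached S s X f c R) (hR' : ICER s X R')
      (hRR : R' ⊆ R) (hp : ProxStep s R R') : Reached S s X f c R'
  | iso (R R' : Set ((ℕ → Fin l) × (ℕ → Fin l))) (h : Reached S s X f c R) (hR' : ICER s X R')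
      (hRR : R' ⊆ R) (hi : IsoStep s R R') : Reached S s X f c R'
  | distal (R R' : Set ((ℕ → Fin l) × (ℕ → Fin l))) (h : Reached S s X f c R)
      (hR' : ICER s X R') (hS : Ar S (pre2 R')) (hRR : R' ⊆ R) (hd : DistStep s R R') :
      Reached S s X f c R'
  | mixing (R R' : Set ((ℕ → Fin l) × (ℕ → Fin l))) (h : Reached S s X f c R)
      (hS : Ar S (pre2 R)) (hS' : Ar S (pre2 R')) (hm : Mixes s X R R') : Reached S s X f c R'
  | tower (R : ℕ → Set ((ℕ → Fin l) × (ℕ → Fin l))) (h : Reached S s X f c (R 0))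
      (hR : ∀ n, ICER s X (R n)) (hS : Ar S fun p : ℕ × List (Fin l) × List (Fin l) =>
        pre2 (R (p.1 + 1)) p.2) (hRR : ∀ n, R (n + 1) ⊆ R n)
      (hs : ∀ n, ProxStep s (R n) (R (n + 1)) ∨ DistStep s (R n) (R (n + 1)) ∧
        FinStep (R n) (R (n + 1))) : Reached S s X f c (⋂ n, R n)

/-- The invariant: a coded closed invariant relation below `R` and a coded point right for it. -/
def Inv (S : Set (Set ℕ)) (s : ℕ → ℕ) (X : Set (ℕ → Fin l)) (f : Fin l → Fin k)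
    (c : ℕ → Fin k) (R : Set ((ℕ → Fin l) × (ℕ → Fin l))) : Prop :=
  ∃ T : Set ((ℕ → Fin l) × (ℕ → Fin l)), CIR s X T ∧ T ⊆ R ∧ Ar S (pre2 T) ∧
    ∃ y ∈ X, ArF S y ∧ Right s f c T y

/-- larger relations have more right points -/
theorem Right.mono {D D' : Set ((ℕ → Fin l) × (ℕ → Fin l))} (h : D ⊆ D') {y : ℕ → Fin l}
    (hy : Right s f c D y) : Right s f c D' y := by
  intro m N
  obtain ⟨x, hx, p, hp, hp'⟩ := hy m N
  exact ⟨x, hx, p, h hp, hp'⟩

/-- no dead ends -/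
theorem CIR.exists_idem (hX : Minimal s X) {D : Set ((ℕ → Fin l) × (ℕ → Fin l))}
    (hD : CIR s X D) {y : ℕ → Fin l} (hy : y ∈ X)
    (h : Right s f c D y) :
    ∃ (u : Ultrafilter ℕ) (z : ℕ → Fin l), u + u = u ∧ Late u ∧ TX.lm s u y = y ∧
      TX.lm s u z = z ∧ th s f z = PD.lm u c ∧ (y, z) ∈ D := by
  obtain ⟨q, hq, hqR⟩ := (right_iff hD.closed).1 h
  obtain ⟨r, hr⟩ := exists_lm_eq hX (lm_mem hX.closed hX.shift q hy) hy
  let S : Set (Ultrafilter ℕ) := {p | Late p} ∩ ({p | TX.lm s p y = y} ∩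
    {p | (y, PD.lm p c) ∈ RC s f D})
  have hS : IsClosed S := isClosed_late.inter
    ((isClosed_eq (continuous_lm y) continuous_const).inter
      ((isClosed_RC hD.closed).preimage (continuous_const.prodMk (PD.continuous_lm c))))
  obtain ⟨u, hu, huu⟩ := exists_idempotent_in_compact_add_subsemigroup
    (fun r : Ultrafilter ℕ => Ultrafilter.continuous_add_left r) S
    ⟨r + q, Late.add r hq, by
      refine ⟨?_, ?_⟩
      · show TX.lm s (r + q) y = y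
        rw [lm_add, hr]
      · show (y, PD.lm (r + q) c) ∈ RC s f D
        rw [PD.lm_add]
        have := hD.RC_lm (show (TX.lm s q y, PD.lm q c) ∈ RC s f D from hqR) r
        rwa [hr] at this⟩ hS.isCompact (by
      rintro p ⟨_, h2, h3⟩ q ⟨h4, h5, h6⟩
      refine ⟨Late.add p h4, ?_, ?_⟩
      · show TX.lm s (p + q) y = y
        have h2' : TX.lm s p y = y := h2
        have h5' : TX.lm s q y = y := h5
        rw [lm_add, h5', h2']
      · show (y, PD.lm (p + q) c) ∈ RC s f D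
        have h2' : TX.lm s p y = y := h2
        have := hD.RC_lm (show (y, PD.lm q c) ∈ RC s f D from h6) p
        rw [h2'] at this
        rw [PD.lm_add]
        exact this)
  have huy : TX.lm s u y = y := hu.2.1
  obtain ⟨w, hw, hyw⟩ := (show (y, PD.lm u c) ∈ RC s f D from hu.2.2)
  have hw' : th s f w = PD.lm u c := hw
  have hyw' : (y, w) ∈ D := hyw
  refine ⟨u, TX.lm s u w, huu, hu.1, huy, ?_, ?_, ?_⟩
  · rw [← lm_add, huu]
  · rw [th_lm, hw', ← PD.lm_add, huu]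
  · have := hD.lm hyw' u
    rwa [huy] at this

/-! ### distal steps from relations without codes -/

theorem ret_nonempty (hX : Minimal s X) {D : Set ((ℕ → Fin l) × (ℕ → Fin l))} (hD : CIR s X D)
    {R R' : Set ((ℕ → Fin l) × (ℕ → Fin l))} (hR : ICER s X R) (hR' : ICER s X R')
    (hDR : D ⊆ R) (hd : DistStep s R R') {y : ℕ → Fin l} (hy : y ∈ X) (h : Right s f c D y) :
    (Ret s f c R' {z | (y, z) ∈ D}).Nonempty := by
  obtain ⟨u, z0, huu, hl, hy', hz0, ht, hyz0⟩ := hD.exists_idem hX hy h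
  refine ⟨z0, hyz0, fun z hz m N => ?_⟩
  have hyz : (y, z) ∈ D := hz
  have hyz' : (y, lm s u z) ∈ D := by
    have := hD.lm hyz u
    rwa [hy'] at this
  have hzz : (z, lm s u z) ∈ R := hR.trans _ _ _ (hR.symm _ _ (hDR hyz)) (hDR hyz')
  have hzm : lm s u z ∈ X := (hR.sub _ _ hzz).2
  have hp : ProxMod s R' z (lm s u z) := by
    refine (proxMod_iff hR'.closed).2 ⟨u, ?_⟩
    rw [← lm_add, huu]
    exact hR'.refl _ hzm
  have hz' : (z, lm s u z) ∈ R' := hd _ _ hzz hp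
  obtain ⟨x, hx⟩ := ((hl N).and ((PD.lm_spec_lt u c m).and (lm_spec_lt u z m))).exists
  refine ⟨x, hx.1, ⟨(z0, z0), hR'.refl _ (hD.sub _ _ hyz0).2, fun i _ => rfl, fun i hi => ?_⟩,
    ⟨(lm s u z, z), hR'.symm _ _ hz', fun i hi => (hx.2.2 i hi).symm, fun i _ => rfl⟩⟩
  rw [hx.2.1 i hi, ← ht]
  rfl

theorem ret_right {R : Set ((ℕ → Fin l) × (ℕ → Fin l))} (hR : ICER s X R)
    {K : Set (ℕ → Fin l)} {y : ℕ → Fin l} (hy : y ∈ Ret s f c R K) : Right s f c R y := by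
  intro m N
  obtain ⟨n, hn⟩ := closeC_trans (f := f) (c := c) hR m
  obtain ⟨x, hx, h1, h2⟩ := hy.2 y hy.1 n N
  exact ⟨x, hx, hn _ _ _ h2 h1⟩

/-! ### the invariant -/

section inv

variable {S : Set (Set ℕ)}

theorem Inv.of_coded {R : Set ((ℕ → Fin l) × (ℕ → Fin l))} (hR : ICER s X R)
    (hRS : Ar S (pre2 R)) {y : ℕ → Fin l} (hy : y ∈ X) (hyS : ArF S y)
    (h : Right s f c R y) : Inv S s X f c R :=
  ⟨R, hR.cir, subset_rfl, hRS, y, hy, hyS, h⟩

theorem Inv.of_good (hC1 : StC1) (hS : Cl S) {R : Set ((ℕ → Fin l) × (ℕ → Fin l))}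
    (hR : ICER s X R) (hRS : Ar S (pre2 R)) (h : Good S s X f c R) : Inv S s X f c R := by
  obtain ⟨E, hEn, hEc, hEX, -, hright, hES⟩ := h
  obtain ⟨y, hyE, hyS⟩ := hC1 l S hS E hEc hEn hES
  exact Inv.of_coded hR hRS (hEX hyE) hyS (hright y hyE)

theorem Inv.good (hC2 : StC2) (hS : Cl S) {R : Set ((ℕ → Fin l) × (ℕ → Fin l))}
    (hR : ICER s X R) (hRS : Ar S (pre2 R)) (h : Inv S s X f c R) : Good S s X f c R := by
  obtain ⟨T, hT, hTR, -, y, hy, hyS, hyr⟩ := h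
  exact ⟨{z | (y, z) ∈ R}, ⟨y, hR.refl _ hy⟩,
    hR.closed.preimage (continuous_const.prodMk continuous_id), fun z h => (hR.sub _ _ h).2,
    fun z h z' h' => hR.trans _ _ _ h h', fun z h => I_D3 k l s X R hR f c y z h (hyr.mono hTR),
    hC2 l S hS R hR.closed hRS y hyS⟩

theorem Inv.prox (hC9 : StC9) (hs : Primrec s) (hS : Cl S)
    {R R' : Set ((ℕ → Fin l) × (ℕ → Fin l))} (hR' : ICER s X R') (hp : ProxStep s R R')
    (h : Inv S s X f c R) : Inv S s X f c R' := by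
  obtain ⟨T, hT, hTR, hTS, y, hy, hyS, hyr⟩ := h
  exact ⟨apD s T, apD_cir hT, apD_sub' hR' hp hTR, hC9 l S hS s hs T hT.closed hTS, y, hy, hyS,
    exact_apD hT hyr⟩

theorem Inv.iso (hC1 : StC1) (hC8 : StC8) (hC10 : StC10) (hs : Primrec s) (hS : Cl S)
    (hX : Minimal s X) (hc : ArF S c) {R R' : Set ((ℕ → Fin l) × (ℕ → Fin l))}
    (hR : ICER s X R) (hi : IsoStep s R R') (h : Inv S s X f c R) : Inv S s X f c R' := by
  obtain ⟨T, hT, hTR, hTS, y, hy, hyS, hyr⟩ := h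
  have hT' := isoD_cir hX.closed hX.shift hT
  obtain ⟨z, hz, hzS⟩ := hC1 l S hS _ FZ_closed (FZ_nonempty hX hT hy hyr)
    (hC10 k l S hS s hs T hT.closed hTS f c hc y hyS)
  exact ⟨isoD s T, hT', isoD_sub hR hi hTR, hC8 l S hS s hs T hT.closed hTS, z,
    (hT.sub _ _ (FZ_rel hT.closed hz)).2, hzS, hT'.right_of_meet (FZ_exact hT hz)⟩

theorem Inv.distal (hC1 : StC1) (hC2 : StC2) (hC3 : StC3) (hs : Primrec s) (hS : Cl S)
    (hX : Minimal s X) (hc : ArF S c) {R R' : Set ((ℕ → Fin l) × (ℕ → Fin l))}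
    (hR : ICER s X R) (hR' : ICER s X R') (hRS' : Ar S (pre2 R')) (hd : DistStep s R R')
    (h : Inv S s X f c R) : Inv S s X f c R' := by
  obtain ⟨T, hT, hTR, hTS, y, hy, hyS, hyr⟩ := h
  have hKc : IsClosed {z | (y, z) ∈ T} :=
    hT.closed.preimage (continuous_const.prodMk continuous_id)
  have hKX : {z | (y, z) ∈ T} ⊆ X := fun z hz => (hT.sub _ _ hz).2
  obtain ⟨h1, h2⟩ := hC3 k l S hS s hs X R' hR' hRS' f c hc _ hKc hKX
    (hC2 l S hS T hT.closed hTS y hyS)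
  obtain ⟨z, hz, hzS⟩ := hC1 l S hS _ h1 (ret_nonempty hX hT hR hR' hTR hd hy hyr) h2
  exact Inv.of_coded hR' hRS' (hKX hz.1) hzS (ret_right hR' hz)

theorem Inv.mixing (hC1 : StC1) (hC2 : StC2) (hC7 : StC7) (hs : Primrec s) (hS : Cl S)
    (hX : Minimal s X) (hc : ArF S c) {R R' : Set ((ℕ → Fin l) × (ℕ → Fin l))}
    (hR : ICER s X R) (hRS : Ar S (pre2 R)) (hRS' : Ar S (pre2 R')) (hm : Mixes s X R R')
    (h : Inv S s X f c R) : Inv S s X f c R' :=
  Inv.of_good hC1 hS (hm.icer hR).1 hRS'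
    (good_mixing hC1 hC2 hC7 hs hS hX hc hR hRS hRS' hm (h.good hC2 hS hR hRS))

theorem iInter_tail {R : ℕ → Set ((ℕ → Fin l) × (ℕ → Fin l))} (hRR : ∀ n, R (n + 1) ⊆ R n) :
    (⋂ n, R (n + 1)) = ⋂ n, R n := by
  refine Set.Subset.antisymm ?_ ?_
  · intro p hp
    refine Set.mem_iInter.2 fun n => hRR n (Set.mem_iInter.1 hp n)
  · intro p hp
    exact Set.mem_iInter.2 fun n => Set.mem_iInter.1 hp (n + 1)

theorem Inv.tower (hC1 : StC1) (hC2 : StC2) (hC3 : StC3) (hC4 : StC4) (hC5 : StC5)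
    (hs : Primrec s) (hS : Cl S) (hX : Minimal s X) (hc : ArF S c)
    {R : ℕ → Set ((ℕ → Fin l) × (ℕ → Fin l))} (hR : ∀ n, ICER s X (R n))
    (hRS : Ar S fun p : ℕ × List (Fin l) × List (Fin l) => pre2 (R (p.1 + 1)) p.2)
    (hRR : ∀ n, R (n + 1) ⊆ R n)
    (hst : ∀ n, ProxStep s (R n) (R (n + 1)) ∨ DistStep s (R n) (R (n + 1)) ∧
      FinStep (R n) (R (n + 1))) (h : Inv S s X f c (R 0)) : Inv S s X f c (⋂ n, R n) := by
  have hRS1 : ∀ n, Ar S (pre2 (R (n + 1))) := fun n =>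
    hRS.comp hS (f := fun w : List (Fin l) × List (Fin l) => (n, w))
      ((Primrec.const n).pair Primrec.id)
  have h1 : Inv S s X f c (R 1) := by
    rcases hst 0 with hp | ⟨hd, -⟩
    · obtain ⟨T, hT, hTR, -, y, hy, hyS, hyr⟩ := h
      exact Inv.of_coded (hR 1) (hRS1 0) hy hyS
        (I_D2 k l s X hX (R 0) (R 1) (hR 0) (hR 1) hp f c y (hyr.mono hTR))
    · exact h.distal hC1 hC2 hC3 hs hS hX hc (hR 0) (hR 1) (hRS1 0) hd
  have h2 := good_tower hC4 hC5 hs hS hX hc (R := fun n => R (n + 1)) (fun n => hR (n + 1)) hRS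
    (fun n => hRR (n + 1)) (fun n => hst (n + 1)) (h1.good hC2 hS (hR 1) (hRS1 0))
  rw [iInter_tail hRR] at h2
  refine Inv.of_good hC1 hS (icer_iInter hR) ?_ h2
  refine Ar.congr (R := fun w : List (Fin l) × List (Fin l) => ∀ n, pre2 (R (n + 1)) w) ?_
    fun w => ?_
  · refine Ar.all hS (R := fun (w : List (Fin l) × List (Fin l)) n => pre2 (R (n + 1)) w) ?_
    exact hRS.comp hS (Primrec.snd.pair Primrec.fst)
  · rw [← iInter_tail hRR]
    exact pre2_iInter (R := fun n => R (n + 1)) (fun n => (hR (n + 1)).closed)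
      (fun n => hRR (n + 1)) w

theorem Inv.full (hC1 : StC1) (hS : Cl S) (hX : Minimal s X) (hXS : Ar S (pre X))
    (hlim : ∀ z ∈ X, ∀ m N, ∃ x, N ≤ x ∧ ∀ i < m, f (z (s^[i] 0)) = c (x + i)) :
    Inv S s X f c (full X) := by
  obtain ⟨y, hy, hyS⟩ := hC1 l S hS X hX.closed hX.nonempty hXS
  refine Inv.of_coded (icer_full hX) (ar_full hS hXS) hy hyS fun m N => ?_
  obtain ⟨x, hx, hx'⟩ := hlim y hy m N
  exact ⟨x, hx, (TX.sh s x y, y), ⟨sh_mem hX.shift hy x, hy⟩, fun _ _ => rfl, hx'⟩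

end inv

theorem inv_of_reached (hC1 : StC1) (hC2 : StC2) (hC3 : StC3) (hC4 : StC4) (hC5 : StC5)
    (hC7 : StC7) (hC8 : StC8) (hC9 : StC9) (hC10 : StC10) (hs : Primrec s)
    {S : Set (Set ℕ)} (hS : Cl S) (hX : Minimal s X) (hXS : Ar S (pre X))
    (hlim : ∀ z ∈ X, ∀ m N, ∃ x, N ≤ x ∧ ∀ i < m, f (z (s^[i] 0)) = c (x + i))
    (hc : ArF S c) {R : Set ((ℕ → Fin l) × (ℕ → Fin l))}
    (h : Reached S s X f c R) : Inv S s X f c R ∧ ICER s X R := by
  induction h with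
  | full => exact ⟨Inv.full hC1 hS hX hXS hlim, icer_full hX⟩
  | point R hR hRS y hy hyc hd =>
    exact ⟨Inv.of_good hC1 hS hR hRS (good_point hC3 hs hS hX hc hR hRS hy hyc hd), hR⟩
  | prox R R' _ hR' hRR hp ih => exact ⟨ih.1.prox hC9 hs hS hR' hp, hR'⟩
  | iso R R' _ hR' hRR hi ih => exact ⟨ih.1.iso hC1 hC8 hC10 hs hS hX hc ih.2 hi, hR'⟩
  | distal R R' _ hR' hRS' hRR hd ih =>
    exact ⟨ih.1.distal hC1 hC2 hC3 hs hS hX hc ih.2 hR' hRS' hd, hR'⟩
  | mixing R R' _ hRS hRS' hm ih =>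
    exact ⟨ih.1.mixing hC1 hC2 hC7 hs hS hX hc ih.2 hRS hRS' hm, (hm.icer ih.2).1⟩
  | tower R _ hR hRS hRR hst ih =>
    exact ⟨ih.1.tower hC1 hC2 hC3 hC4 hC5 hs hS hX hc hR hRS hRR hst, icer_iInter hR⟩

theorem main3_of (hC1 : StC1) (hC2 : StC2) (hC3 : StC3) (hC4 : StC4) (hC5 : StC5) (hC6 : StC6)
    (hC7 : StC7) (hC8 : StC8) (hC9 : StC9) (hC10 : StC10) (hs : Primrec s)
    {S : Set (Set ℕ)} (hS : Cl S) (hX : Minimal s X) (hXS : Ar S (pre X))
    (hlim : ∀ z ∈ X, ∀ m N, ∃ x, N ≤ x ∧ ∀ i < m, f (z (s^[i] 0)) = c (x + i))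
    (hc : ArF S c) {R : Set ((ℕ → Fin l) × (ℕ → Fin l))}
    (h : Reached S s X f c R)
    (hn : ∀ p ∈ R, ∀ m, ∃ x, ∀ i < m, th s f p.1 (x + i) = th s f p.2 (x + i)) :
    ∃ Y ∈ S, Y.Infinite ∧ (∀ x ∈ Y, 0 < x) ∧
      ∃ i, ∀ F : Finset ℕ, F.Nonempty → (↑F : Set ℕ) ⊆ Y → c (∑ x ∈ F, x) = i := by
  obtain ⟨⟨T, hT, hTR, -, y, hy, hyS, hyr⟩, -⟩ :=
    inv_of_reached hC1 hC2 hC3 hC4 hC5 hC7 hC8 hC9 hC10 hs hS hX hXS hlim hc h
  have hth : ArF S (th s f y) := by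
    have h1 : Primrec fun i : ℕ => s^[i] 0 := Primrec.nat_iterate Primrec.id (Primrec.const 0)
      (hs.comp Primrec.snd)
    exact ArF.map hS (Primrec.dom_finite f) (hyS.comp hS (f := fun i : ℕ => s^[i] 0)
      (ArF.of_primrec hS h1))
  exact hC6 k S hS _ (image_minimal (φ := f) hX) c hc (th s f y) ⟨y, hy, rfl⟩ hth
    (agree_of_exact hT.closed (fun p hp => hn p (hTR hp)) hyr)

end Pool.Agent.Work.MP_69fea5_lc.TX
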