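import Pool.Agent.Work.MP_69fea5_lc.TW.Defs

/-!
# Hindman's theorem along tower minimal systems, general form

Generalisation of the block TW: instead of a minimal subshift in the limit set of `c` we use an
arbitrary minimal system `X` (closed set of sequences in `Fin l`, acted on by `z ↦ z ∘ s`) with an
equivariant map `θ` to the full shift on `k` letters, and there is a new kind of steps (mixing
steps).
-/

set_option autoImplicit false

namespace Pool.Agent.Work.MP_69fea5_lc.TX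

open HK
open TW (Close pre pre2)

variable {k l : ℕ}

/-- the `x`-th iterate of the map `z ↦ z ∘ s` -/
def sh (s : ℕ → ℕ) (x : ℕ) (z : ℕ → Fin l) : ℕ → Fin l := fun i => z (s^[x] i)

/-- the factor map to the full shift on `k` letters -/
def th (s : ℕ → ℕ) (f : Fin l → Fin k) (z : ℕ → Fin l) : ℕ → Fin k := fun i => f (z (s^[i] 0))

/-- a minimal system -/
structure Minimal (s : ℕ → ℕ) (X : Set (ℕ → Fin l)) : Prop where
  nonempty : X.Nonempty
  closed : IsClosed X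
  shift : ∀ z ∈ X, (fun n => z (s n)) ∈ X
  minimal : ∀ N ⊆ X, N.Nonempty → IsClosed N → (∀ z ∈ N, (fun n => z (s n)) ∈ N) → N = X

/-- closed invariant equivalence relations on `X` -/
structure ICER (s : ℕ → ℕ) (X : Set (ℕ → Fin l)) (R : Set ((ℕ → Fin l) × (ℕ → Fin l))) :
    Prop where
  closed : IsClosed R
  sub : ∀ a b, (a, b) ∈ R → a ∈ X ∧ b ∈ X
  refl : ∀ a ∈ X, (a, a) ∈ R
  symm : ∀ a b, (a, b) ∈ R → (b, a) ∈ R
  trans : ∀ a b d, (a, b) ∈ R → (b, d) ∈ R → (a, d) ∈ R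
  shift : ∀ a b, (a, b) ∈ R → ((fun n => a (s n)), (fun n => b (s n))) ∈ R

/-- the first `m` terms of `a` are those of the first member of a pair in `R`, the second member
of which is mapped by `θ` to a sequence that begins with `c x, …, c (x + m - 1)` -/
def CloseC (s : ℕ → ℕ) (f : Fin l → Fin k) (c : ℕ → Fin k)
    (R : Set ((ℕ → Fin l) × (ℕ → Fin l))) (m : ℕ) (a : ℕ → Fin l) (x : ℕ) : Prop :=
  ∃ p ∈ R, (∀ i < m, p.1 i = a i) ∧ ∀ i < m, f (p.2 (s^[i] 0)) = c (x + i)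

/-- `a` and `b` are proximal modulo `R` -/
def ProxMod (s : ℕ → ℕ) (R : Set ((ℕ → Fin l) × (ℕ → Fin l))) (a b : ℕ → Fin l) : Prop :=
  ∀ m, ∃ x, Close R m (sh s x a) (sh s x b)

/-- proximal step from `R` to `R'` -/
def ProxStep (s : ℕ → ℕ) (R R' : Set ((ℕ → Fin l) × (ℕ → Fin l))) : Prop :=
  ∀ a b, (a, b) ∈ R → ProxMod s R' a b

/-- distal step from `R` to `R'` -/
def DistStep (s : ℕ → ℕ) (R R' : Set ((ℕ → Fin l) × (ℕ → Fin l))) : Prop :=
  ∀ a b, (a, b) ∈ R → ProxMod s R' a b → (a, b) ∈ R'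

/-- every class of `R` consists of at most `p` classes of `R'` -/
def FinStep (R R' : Set ((ℕ → Fin l) × (ℕ → Fin l))) : Prop :=
  ∃ p, ∀ g : ℕ → (ℕ → Fin l), (∀ i ≤ p, (g 0, g i) ∈ R) → ∃ i ≤ p, ∃ j < i, (g j, g i) ∈ R'

/-- thickly syndetic sets -/
def ThickSyn (T : Set ℕ) : Prop := ∀ L, ∃ D, ∀ n, ∃ x, n ≤ x ∧ x ≤ n + D ∧ ∀ i < L, x + i ∈ T

/-- mixing step from `R` to `R'`: for `(a, b) ∈ R` and every neighbourhood `U` of `a`, the set of
the `x` such that some point of `U` in the class of `b` is close to `b` modulo `R'` at `x`, is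
thickly syndetic -/
def MixStep (s : ℕ → ℕ) (R R' : Set ((ℕ → Fin l) × (ℕ → Fin l))) : Prop :=
  ∀ a b, (a, b) ∈ R → ∀ m, ThickSyn {x | ∃ a', (a', b) ∈ R ∧ (∀ i < m, a' i = a i) ∧
    Close R' m (sh s x a') (sh s x b)}

/-- transfinite towers of mixing steps -/
inductive Mixes (s : ℕ → ℕ) (X : Set (ℕ → Fin l)) (R : Set ((ℕ → Fin l) × (ℕ → Fin l))) :
    Set ((ℕ → Fin l) × (ℕ → Fin l)) → Prop
  | refl : Mixes s X R R
  | step (R₁ R₂ : Set ((ℕ → Fin l) × (ℕ → Fin l))) (h : Mixes s X R R₁) (hR : ICER s X R₂)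
      (hRR : R₂ ⊆ R₁) (hm : MixStep s R₁ R₂) : Mixes s X R R₂
  | lim (R' : ℕ → Set ((ℕ → Fin l) × (ℕ → Fin l))) (h : ∀ n, Mixes s X R (R' n))
      (hRR : ∀ n, R' (n + 1) ⊆ R' n) : Mixes s X R (⋂ n, R' n)

/-- `y` is proximal to `c` modulo `R`, arbitrarily late -/
def Right (s : ℕ → ℕ) (f : Fin l → Fin k) (c : ℕ → Fin k)
    (R : Set ((ℕ → Fin l) × (ℕ → Fin l))) (y : ℕ → Fin l) : Prop :=
  ∀ m N, ∃ x, N ≤ x ∧ CloseC s f c R m (sh s x y) x

/-- `R` is reached: there is a nonempty closed saturated set in `S` all of whose points are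
right for `R` -/
def Good (S : Set (Set ℕ)) (s : ℕ → ℕ) (X : Set (ℕ → Fin l)) (f : Fin l → Fin k)
    (c : ℕ → Fin k) (R : Set ((ℕ → Fin l) × (ℕ → Fin l))) : Prop :=
  ∃ E : Set (ℕ → Fin l), E.Nonempty ∧ IsClosed E ∧ E ⊆ X ∧ (∀ y ∈ E, ∀ z, (y, z) ∈ R → z ∈ E) ∧
    (∀ y ∈ E, Right s f c R y) ∧ Ar S (pre E)

/-- the set of the points `y` of `K` such that `(c, z)` returns to `(y, z)` modulo `R` for all
`z` in `K` -/
def Ret (s : ℕ → ℕ) (f : Fin l → Fin k) (c : ℕ → Fin k)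
    (R : Set ((ℕ → Fin l) × (ℕ → Fin l))) (K : Set (ℕ → Fin l)) : Set (ℕ → Fin l) :=
  {y | y ∈ K ∧ ∀ z ∈ K, ∀ m N, ∃ x, N ≤ x ∧ CloseC s f c R m y x ∧ Close R m (sh s x z) z}

/-- points which do not meet `c` modulo `R` at scale `m` after `N` -/
def Bad (s : ℕ → ℕ) (f : Fin l → Fin k) (c : ℕ → Fin k)
    (R : Set ((ℕ → Fin l) × (ℕ → Fin l))) (m N : ℕ) (y : ℕ → Fin l) : Prop :=
  ∀ x, N ≤ x → ¬ CloseC s f c R m (sh s x y) x

/-- points which are separated modulo `R` at all times -/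
def Sep (s : ℕ → ℕ) (R : Set ((ℕ → Fin l) × (ℕ → Fin l))) (n : ℕ) (a b : ℕ → Fin l) : Prop :=
  ∀ x, ¬ Close R n (sh s x a) (sh s x b)

/-- the points whose class modulo `R` contains `j` separated bad points, the point itself being
separated from all of them; `q = (j, m, N, n)` -/
def AA (s : ℕ → ℕ) (f : Fin l → Fin k) (c : ℕ → Fin k)
    (R R' : Set ((ℕ → Fin l) × (ℕ → Fin l))) (q : ℕ × ℕ × ℕ × ℕ) : Set (ℕ → Fin l) :=
  {y | ∃ z, (z, y) ∈ R' ∧ ∃ g : ℕ → (ℕ → Fin l), ∀ a < q.1, (z, g a) ∈ R ∧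
    Bad s f c R' q.2.1 q.2.2.1 (g a) ∧ Sep s R' q.2.2.2 z (g a) ∧
    ∀ b < q.1, b ≠ a → Sep s R' q.2.2.2 (g b) (g a)}

/-- relations that are reached by the four kinds of blocks -/
inductive Built (S : Set (Set ℕ)) (s : ℕ → ℕ) (X : Set (ℕ → Fin l)) (f : Fin l → Fin k)
    (c : ℕ → Fin k) : Set ((ℕ → Fin l) × (ℕ → Fin l)) → Prop
  | point (R : Set ((ℕ → Fin l) × (ℕ → Fin l))) (hR : ICER s X R) (hS : Ar S (pre2 R))
      (y : ℕ → Fin l) (hy : y ∈ X) (hyc : ∀ m, ∃ x, CloseC s f c R m (sh s x y) x)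
      (hd : ∀ z ∈ X, ProxMod s R y z → (y, z) ∈ R) : Built S s X f c R
  | distal (R R' : Set ((ℕ → Fin l) × (ℕ → Fin l))) (h : Built S s X f c R) (hR' : ICER s X R')
      (hS : Ar S (pre2 R')) (hRR : R' ⊆ R) (hd : DistStep s R R') : Built S s X f c R'
  | mixing (R R' : Set ((ℕ → Fin l) × (ℕ → Fin l))) (h : Built S s X f c R)
      (hS : Ar S (pre2 R')) (hm : Mixes s X R R') : Built S s X f c R'
  | tower (R : ℕ → Set ((ℕ → Fin l) × (ℕ → Fin l))) (h : Built S s X f c (R 0))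
      (hR : ∀ n, ICER s X (R n)) (hS : Ar S fun p : ℕ × List (Fin l) × List (Fin l) =>
        pre2 (R p.1) p.2) (hRR : ∀ n, R (n + 1) ⊆ R n)
      (hs : ∀ n, ProxStep s (R n) (R (n + 1)) ∨ DistStep s (R n) (R (n + 1)) ∧
        FinStep (R n) (R (n + 1))) : Built S s X f c (⋂ n, R n)

end Pool.Agent.Work.MP_69fea5_lc.TX
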