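import Pool.Agent.Work.MP_69fea5_lc.TX.Stmts

/-!
# Finite towers without codes on top of a reached relation (after helper19's block PR)
-/

set_option autoImplicit false

namespace Pool.Agent.Work.MP_69fea5_lc.TX

open HK
open TW (Close pre pre2)

variable {k l : ℕ}

/-- closed invariant relations on `X` -/
structure CIR (s : ℕ → ℕ) (X : Set (ℕ → Fin l)) (Q : Set ((ℕ → Fin l) × (ℕ → Fin l))) :
    Prop where
  closed : IsClosed Q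
  sub : ∀ a b, (a, b) ∈ Q → a ∈ X ∧ b ∈ X
  shift : ∀ a b, (a, b) ∈ Q → ((fun n => a (s n)), (fun n => b (s n))) ∈ Q

/-- `q` agrees with `T ^ x (a, b)` below `m` -/
def Vis (s : ℕ → ℕ) (m : ℕ) (q : (ℕ → Fin l) × (ℕ → Fin l)) (a b : ℕ → Fin l) (x : ℕ) : Prop :=
  ∀ i < m, sh s x a i = q.1 i ∧ sh s x b i = q.2 i

/-- isometric steps: limits of `T ^ x (a, b)` with `(a, b)` in `R` tending to the diagonal are in
`R'` -/
def IsoStep (s : ℕ → ℕ) (R R' : Set ((ℕ → Fin l) × (ℕ → Fin l))) : Prop :=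
  ∀ q : (ℕ → Fin l) × (ℕ → Fin l), (∀ m, ∃ a b, (a, b) ∈ R ∧ (∀ i < m, a i = b i) ∧
    ∃ x, Vis s m q a b x) → q ∈ R'

/-- limits of `T ^ x (a, b)`, where `a, b` are related to one point and tend to each other -/
def isoD (s : ℕ → ℕ) (Q : Set ((ℕ → Fin l) × (ℕ → Fin l))) : Set ((ℕ → Fin l) × (ℕ → Fin l)) :=
  {q | ∀ m, ∃ y a b, (y, a) ∈ Q ∧ (y, b) ∈ Q ∧ (∀ i < m, a i = b i) ∧ ∃ x, Vis s m q a b x}

/-- the closure of the almost periodic pairs of `Q` -/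
def apD (s : ℕ → ℕ) (Q : Set ((ℕ → Fin l) × (ℕ → Fin l))) : Set ((ℕ → Fin l) × (ℕ → Fin l)) :=
  {q | ∀ m, ∃ g a b, (a, b) ∈ Q ∧ ∀ t, ∃ x, t ≤ x ∧ x < t + g ∧ Vis s m q a b x}

/-- limits of points related to `y` that agree with `c` on long intervals -/
def FZ (s : ℕ → ℕ) (f : Fin l → Fin k) (c : ℕ → Fin k) (Q : Set ((ℕ → Fin l) × (ℕ → Fin l)))
    (y : ℕ → Fin l) : Set (ℕ → Fin l) :=
  {z | ∀ m, ∃ y', (y, y') ∈ Q ∧ (∀ i < m, y' i = z i) ∧ ∃ x, ∀ i < m,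
    f (y' (s^[x + i] 0)) = c (x + i)}

/-- C8: `isoD` is coded -/
def StC8 : Prop := ∀ (l : ℕ) (S : Set (Set ℕ)), Cl S → ∀ (s : ℕ → ℕ), Primrec s →
  ∀ (Q : Set ((ℕ → Fin l) × (ℕ → Fin l))), IsClosed Q → Ar S (pre2 Q) → Ar S (pre2 (isoD s Q))

/-- C9: `apD` is coded -/
def StC9 : Prop := ∀ (l : ℕ) (S : Set (Set ℕ)), Cl S → ∀ (s : ℕ → ℕ), Primrec s →
  ∀ (Q : Set ((ℕ → Fin l) × (ℕ → Fin l))), IsClosed Q → Ar S (pre2 Q) → Ar S (pre2 (apD s Q))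

/-- C10: `FZ` is coded -/
def StC10 : Prop := ∀ (k l : ℕ) (S : Set (Set ℕ)), Cl S → ∀ (s : ℕ → ℕ), Primrec s →
  ∀ (Q : Set ((ℕ → Fin l) × (ℕ → Fin l))), IsClosed Q → Ar S (pre2 Q) →
  ∀ (f : Fin l → Fin k) (c : ℕ → Fin k), ArF S c → ∀ (y : ℕ → Fin l), ArF S y →
  Ar S (pre (FZ s f c Q y))

end Pool.Agent.Work.MP_69fea5_lc.TX
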