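import Pool.Agent.Work.MP_69fea5_lc.TX.Stmts
import Pool.Agent.Work.MP_69fea5_lc.TW.Dyn2

/-!
# Dynamics of the block TX: limits along ultrafilters
-/

set_option autoImplicit false

namespace Pool.Agent.Work.MP_69fea5_lc.TX

open Filter Topology
open TW (Close pre pre2 close_mono close_of_mem close_congr mem_of_close exists_ultra Late
  isClosed_late ul ul_spec ul_spec_lt hyper_ge ul_mem exists_bound)

attribute [local instance] Ultrafilter.add Ultrafilter.addSemigroup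

variable {k l : ℕ} {s : ℕ → ℕ} {f : Fin l → Fin k} {c : ℕ → Fin k} {X : Set (ℕ → Fin l)}

/-! ### shifts and limits -/

theorem sh_apply (x : ℕ) (z : ℕ → Fin l) (i : ℕ) : sh s x z i = z (s^[x] i) := rfl

theorem sh_sh (x t : ℕ) (z : ℕ → Fin l) : sh s t (sh s x z) = sh s (x + t) z := by
  funext i
  show z (s^[x] (s^[t] i)) = z (s^[x + t] i)
  rw [Function.iterate_add_apply]

theorem sh_zero (z : ℕ → Fin l) : sh s 0 z = z := rfl

theorem sh_succ (x : ℕ) (z : ℕ → Fin l) : sh s (x + 1) z = fun n => sh s x z (s n) := by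
  funext n
  show z (s^[x + 1] n) = z (s^[x] (s n))
  rw [Function.iterate_succ_apply]

theorem sh_mem (hT : ∀ z ∈ X, (fun n => z (s n)) ∈ X) {z : ℕ → Fin l} (hz : z ∈ X) (x : ℕ) :
    sh s x z ∈ X := by
  induction x with
  | zero => exact hz
  | succ x ih =>
    rw [sh_succ]
    exact hT _ ih

theorem ICER.sh {R : Set ((ℕ → Fin l) × (ℕ → Fin l))} (hR : ICER s X R)
    {a b : ℕ → Fin l} (h : (a, b) ∈ R) (x : ℕ) : (TX.sh s x a, TX.sh s x b) ∈ R := by
  induction x with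
  | zero => exact h
  | succ x ih =>
    rw [sh_succ, sh_succ]
    exact hR.shift _ _ ih

/-- the limit of `T ^ x z` along `p` -/
noncomputable def lm (s : ℕ → ℕ) (p : Ultrafilter ℕ) (z : ℕ → Fin l) : ℕ → Fin l :=
  ul p fun x => sh s x z

theorem lm_spec (p : Ultrafilter ℕ) (z : ℕ → Fin l) (i : ℕ) :
    ∀ᶠ x in (p : Filter ℕ), sh s x z i = lm s p z i := ul_spec p _ i

theorem lm_spec_lt (p : Ultrafilter ℕ) (z : ℕ → Fin l) (m : ℕ) :
    ∀ᶠ x in (p : Filter ℕ), ∀ i < m, sh s x z i = lm s p z i := ul_spec_lt p _ m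

theorem lm_eq_iff (p : Ultrafilter ℕ) (z : ℕ → Fin l) (i : ℕ) (a : Fin l) :
    lm s p z i = a ↔ ∀ᶠ x in (p : Filter ℕ), sh s x z i = a := by
  constructor
  · rintro rfl
    exact lm_spec p z i
  · intro h
    obtain ⟨x, h1, h2⟩ := (h.and (lm_spec p z i)).exists
    exact h2.symm.trans h1

theorem lm_add (p q : Ultrafilter ℕ) (z : ℕ → Fin l) : lm s (p + q) z = lm s p (lm s q z) := by
  funext i
  rw [lm_eq_iff]
  refine (Ultrafilter.eventually_add p q _).2 ?_
  filter_upwards [lm_spec p (lm s q z) i] with m hm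
  filter_upwards [lm_spec q z (s^[m] i)] with m' hm'
  rw [← hm]
  show z (s^[m + m'] i) = lm s q z (s^[m] i)
  rw [← hm', add_comm, Function.iterate_add_apply]
  rfl

theorem lm_pure_one (z : ℕ → Fin l) : lm s (pure 1) z = fun n => z (s n) := by
  funext i
  rw [lm_eq_iff, Ultrafilter.coe_pure, eventually_pure]
  rfl

theorem continuous_lm (z : ℕ → Fin l) : Continuous fun p : Ultrafilter ℕ => lm s p z := by
  refine continuous_pi fun i => continuous_discrete_rng.2 fun a => ?_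
  have : (fun p : Ultrafilter ℕ => lm s p z i) ⁻¹' {a} = {p | {x | sh s x z i = a} ∈ p} := by
    ext p
    exact lm_eq_iff p z i a
  rw [this]
  exact ultrafilter_isOpen_basic _

theorem lm_mem (hX : IsClosed X) (hT : ∀ z ∈ X, (fun n => z (s n)) ∈ X) (p : Ultrafilter ℕ)
    {z : ℕ → Fin l} (hz : z ∈ X) : lm s p z ∈ X := by
  rw [← hX.closure_eq]
  refine mem_closure_of_tendsto (f := fun x => sh s x z) (b := (p : Filter ℕ)) ?_
    (Eventually.of_forall (sh_mem hT hz))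
  rw [tendsto_pi_nhds]
  intro i
  exact tendsto_const_nhds.congr' ((lm_spec p z i).mono fun x hx => hx.symm)

/-! ### the factor map -/

theorem continuous_th : Continuous (th s f : (ℕ → Fin l) → (ℕ → Fin k)) :=
  continuous_pi fun _ => (continuous_of_discreteTopology (f := f)).comp (continuous_apply _)

theorem th_sh (x : ℕ) (z : ℕ → Fin l) (i : ℕ) : th s f (sh s x z) i = th s f z (x + i) := by
  show f (z (s^[x] (s^[i] 0))) = f (z (s^[x + i] 0))
  rw [Function.iterate_add_apply]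

theorem th_lm (p : Ultrafilter ℕ) (z : ℕ → Fin l) : th s f (lm s p z) = PD.lm p (th s f z) := by
  funext i
  symm
  rw [PD.lm_eq_iff]
  filter_upwards [lm_spec p z (s^[i] 0)] with x hx
  rw [← th_sh]
  show f (sh s x z (s^[i] 0)) = f (lm s p z (s^[i] 0))
  rw [hx]

/-- a bound for finitely many numbers -/
theorem exists_big (g : ℕ → ℕ) (m : ℕ) : ∃ M, m ≤ M ∧ ∀ i < m, g i < M := by
  obtain ⟨M, hM⟩ := exists_bound (P := fun a t => g a < t) (fun a t t' h h' => h'.trans_le h) m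
    fun a _ => ⟨g a + 1, Nat.lt_succ_self _⟩
  exact ⟨max m M, le_max_left _ _, fun i hi => (hM i hi).trans_le (le_max_right _ _)⟩

/-! ### closeness -/

theorem close_symm {R : Set ((ℕ → Fin l) × (ℕ → Fin l))} (hR : ICER s X R)
    {m : ℕ} {a b : ℕ → Fin l} (h : Close R m a b) : Close R m b a := by
  obtain ⟨p, hp, h1, h2⟩ := h
  exact ⟨(p.2, p.1), hR.symm _ _ hp, h2, h1⟩

theorem closeC_mono {R : Set ((ℕ → Fin l) × (ℕ → Fin l))} {m m' : ℕ} (h : m ≤ m')
    {a : ℕ → Fin l} {x : ℕ} (hc : CloseC s f c R m' a x) : CloseC s f c R m a x := by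
  obtain ⟨p, hp, h1, h2⟩ := hc
  exact ⟨p, hp, fun i hi => h1 i (hi.trans_le h), fun i hi => h2 i (hi.trans_le h)⟩

theorem closeC_congr {R : Set ((ℕ → Fin l) × (ℕ → Fin l))} {m : ℕ} {a a' : ℕ → Fin l} {x : ℕ}
    (h : CloseC s f c R m a x) (ha : ∀ i < m, a i = a' i) : CloseC s f c R m a' x := by
  obtain ⟨p, hp, h1, h2⟩ := h
  exact ⟨p, hp, fun i hi => (h1 i hi).trans (ha i hi), h2⟩

theorem lm_close {R : Set ((ℕ → Fin l) × (ℕ → Fin l))} (hR : IsClosed R) (p : Ultrafilter ℕ)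
    {a b : ℕ → Fin l} (h : ∀ m, ∀ᶠ x in (p : Filter ℕ), Close R m (sh s x a) (sh s x b)) :
    (lm s p a, lm s p b) ∈ R := by
  refine mem_of_close hR fun m => ?_
  obtain ⟨x, hx⟩ := ((h m).and ((lm_spec_lt p a m).and (lm_spec_lt p b m))).exists
  exact close_congr hx.1 hx.2.1 hx.2.2

theorem close_lm {R : Set ((ℕ → Fin l) × (ℕ → Fin l))} {p : Ultrafilter ℕ} {a b : ℕ → Fin l}
    (h : (lm s p a, lm s p b) ∈ R) (m : ℕ) :
    ∀ᶠ x in (p : Filter ℕ), Close R m (sh s x a) (sh s x b) := by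
  filter_upwards [lm_spec_lt p a m, lm_spec_lt p b m] with x h1 h2
  exact ⟨_, h, fun i hi => (h1 i hi).symm, fun i hi => (h2 i hi).symm⟩

theorem ICER.lm {R : Set ((ℕ → Fin l) × (ℕ → Fin l))} (hR : ICER s X R)
    {a b : ℕ → Fin l} (h : (a, b) ∈ R) (p : Ultrafilter ℕ) : (TX.lm s p a, TX.lm s p b) ∈ R :=
  lm_close hR.closed p fun _ => Eventually.of_forall fun x => close_of_mem (hR.sh h x)

/-- points whose limit along `q` is close to a preimage of the limit of `c` are close to `c` -/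
theorem closeC_lm {R : Set ((ℕ → Fin l) × (ℕ → Fin l))} {q : Ultrafilter ℕ} {y w : ℕ → Fin l}
    (hw : th s f w = PD.lm q c) (h : (lm s q y, w) ∈ R) (m : ℕ) :
    ∀ᶠ x in (q : Filter ℕ), CloseC s f c R m (sh s x y) x := by
  filter_upwards [lm_spec_lt q y m, PD.lm_spec_lt q c m] with x h1 h2
  refine ⟨_, h, fun i hi => (h1 i hi).symm, fun i hi => ?_⟩
  rw [h2 i hi, ← hw]
  rfl

theorem right_iff {R : Set ((ℕ → Fin l) × (ℕ → Fin l))} (hR : IsClosed R) {y : ℕ → Fin l} :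
    Right s f c R y ↔ ∃ q : Ultrafilter ℕ, Late q ∧ ∃ w, th s f w = PD.lm q c ∧
      (lm s q y, w) ∈ R := by
  constructor
  · intro h
    choose x hx p hp h1 h2 using fun n => h n n
    let U : Ultrafilter ℕ := hyperfilter ℕ
    let q : Ultrafilter ℕ := U.map x
    have hq : ∀ P : ℕ → Prop, (∀ᶠ t in (q : Filter ℕ), P t) ↔ ∀ᶠ n in (U : Filter ℕ), P (x n) := by
      intro P
      rfl
    refine ⟨q, fun N => ?_, ul U fun n => (p n).2, ?_, ?_⟩
    · rw [hq]
      exact (hyper_ge N).mono fun n hn => hn.trans (hx n)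
    · funext i
      symm
      rw [PD.lm_eq_iff, hq]
      filter_upwards [ul_spec U (fun n => (p n).2) (s^[i] 0), hyper_ge (i + 1)] with n hn hn'
      rw [← h2 n i hn']
      show f ((p n).2 (s^[i] 0)) = f (ul U (fun n => (p n).2) (s^[i] 0))
      rw [hn]
    · refine mem_of_close hR fun m => ?_
      have hm : ∀ᶠ n in (U : Filter ℕ), ∀ i < m, sh s (x n) y i = lm s q y i :=
        (hq _).1 (lm_spec_lt q y m)
      obtain ⟨n, hn⟩ := (hm.and ((ul_spec_lt U (fun n => (p n).2) m).and (hyper_ge m))).exists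
      exact ⟨p n, hp n, fun i hi => (h1 n i (hi.trans_le hn.2.2)).trans (hn.1 i hi),
        fun i hi => hn.2.1 i hi⟩
  · rintro ⟨q, hq, w, hw, h⟩ m N
    obtain ⟨x, hx⟩ := ((hq N).and (closeC_lm hw h m)).exists
    exact ⟨x, hx.1, hx.2⟩

theorem proxMod_iff {R : Set ((ℕ → Fin l) × (ℕ → Fin l))} (hR : IsClosed R) {a b : ℕ → Fin l} :
    ProxMod s R a b ↔ ∃ p : Ultrafilter ℕ, (lm s p a, lm s p b) ∈ R := by
  constructor
  · intro h
    obtain ⟨q, hq⟩ := exists_ultra (G := fun n => {x | Close R n (sh s x a) (sh s x b)})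
      (fun a b hab x hx => close_mono hab hx) h
    exact ⟨q, lm_close hR q hq⟩
  · rintro ⟨p, h⟩ m
    exact (close_lm h m).exists

/-- pairs that meet, meet arbitrarily late -/
theorem right_of_meet {R : Set ((ℕ → Fin l) × (ℕ → Fin l))} (hR : ICER s X R) {y : ℕ → Fin l}
    (h : ∀ m, ∃ x, CloseC s f c R m (sh s x y) x) : Right s f c R y := by
  intro m N
  obtain ⟨M, hM1, hM2⟩ := exists_big (fun i => s^[N] i) m
  obtain ⟨x, q, hq, h1, h2⟩ := h (N + M)
  refine ⟨x + N, Nat.le_add_left _ _, (sh s N q.1, sh s N q.2), hR.sh hq N, fun i hi => ?_,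
    fun i hi => ?_⟩
  · show q.1 (s^[N] i) = sh s (x + N) y i
    rw [h1 _ ((hM2 i hi).trans_le (Nat.le_add_left _ _)), ← sh_sh]
    rfl
  · show f (q.2 (s^[N] (s^[i] 0))) = c (x + N + i)
    rw [← Function.iterate_add_apply, h2 (N + i) (by omega), add_assoc]

theorem exists_lm_eq (hX : Minimal s X) {w y : ℕ → Fin l} (hw : w ∈ X) (hy : y ∈ X) :
    ∃ r : Ultrafilter ℕ, lm s r w = y := by
  have h : Set.range (fun p : Ultrafilter ℕ => lm s p w) = X := by
    refine hX.minimal _ ?_ (Set.range_nonempty _)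
      (isCompact_range (continuous_lm w)).isClosed ?_
    · rintro _ ⟨p, rfl⟩
      exact lm_mem hX.closed hX.shift p hw
    · rintro _ ⟨p, rfl⟩
      refine ⟨pure 1 + p, ?_⟩
      simp only
      rw [lm_add, lm_pure_one]
  have h' : y ∈ Set.range (fun p : Ultrafilter ℕ => lm s p w) := by
    rw [h]
    exact hy
  exact h'

/-! ### the relation between points of `X` and limits of `c` -/

/-- pairs `(a, θ b)` with `(a, b) ∈ R` -/
def RC (s : ℕ → ℕ) (f : Fin l → Fin k) (R : Set ((ℕ → Fin l) × (ℕ → Fin l))) :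
    Set ((ℕ → Fin l) × (ℕ → Fin k)) := {q | ∃ w, th s f w = q.2 ∧ (q.1, w) ∈ R}

theorem isClosed_RC {R : Set ((ℕ → Fin l) × (ℕ → Fin l))} (hR : IsClosed R) :
    IsClosed (RC s f R) := by
  have h : RC s f R = (fun p : (ℕ → Fin l) × (ℕ → Fin l) => (p.1, th s f p.2)) '' R := by
    ext q
    constructor
    · rintro ⟨w, hw, h⟩
      exact ⟨(q.1, w), h, Prod.ext rfl hw⟩
    · rintro ⟨p, hp, rfl⟩
      exact ⟨p.2, rfl, hp⟩
  rw [h]
  exact (hR.isCompact.image (continuous_fst.prodMk (continuous_th.comp continuous_snd))).isClosed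

theorem RC_lm {R : Set ((ℕ → Fin l) × (ℕ → Fin l))} (hR : ICER s X R) {a : ℕ → Fin l}
    {b : ℕ → Fin k} (h : (a, b) ∈ RC s f R) (p : Ultrafilter ℕ) :
    (lm s p a, PD.lm p b) ∈ RC s f R := by
  obtain ⟨w, hw, h⟩ := h
  have hw' : th s f w = b := hw
  refine ⟨lm s p w, ?_, hR.lm h p⟩
  rw [th_lm, hw']

/-- no dead ends -/
theorem exists_idem_right (hX : Minimal s X) {R : Set ((ℕ → Fin l) × (ℕ → Fin l))}
    (hR : ICER s X R) {y : ℕ → Fin l} (hy : y ∈ X) (h : Right s f c R y) :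
    ∃ (u : Ultrafilter ℕ) (z : ℕ → Fin l), u + u = u ∧ Late u ∧ lm s u y = y ∧ lm s u z = z ∧
      th s f z = PD.lm u c ∧ (y, z) ∈ R := by
  obtain ⟨q, hq, hqR⟩ := (right_iff hR.closed).1 h
  obtain ⟨r, hr⟩ := exists_lm_eq hX (lm_mem hX.closed hX.shift q hy) hy
  let S : Set (Ultrafilter ℕ) := {p | Late p} ∩ ({p | lm s p y = y} ∩
    {p | (y, PD.lm p c) ∈ RC s f R})
  have hS : IsClosed S := isClosed_late.inter
    ((isClosed_eq (continuous_lm y) continuous_const).inter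
      ((isClosed_RC hR.closed).preimage (continuous_const.prodMk (PD.continuous_lm c))))
  obtain ⟨u, hu, huu⟩ := exists_idempotent_in_compact_add_subsemigroup
    (fun r : Ultrafilter ℕ => Ultrafilter.continuous_add_left r) S
    ⟨r + q, Late.add r hq, by
      refine ⟨?_, ?_⟩
      · show lm s (r + q) y = y
        rw [lm_add, hr]
      · show (y, PD.lm (r + q) c) ∈ RC s f R
        rw [PD.lm_add]
        have := RC_lm hR (show (lm s q y, PD.lm q c) ∈ RC s f R from hqR) r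
        rwa [hr] at this⟩ hS.isCompact (by
      rintro p ⟨_, h2, h3⟩ q ⟨h4, h5, h6⟩
      refine ⟨Late.add p h4, ?_, ?_⟩
      · show lm s (p + q) y = y
        have h2' : lm s p y = y := h2
        have h5' : lm s q y = y := h5
        rw [lm_add, h5', h2']
      · show (y, PD.lm (p + q) c) ∈ RC s f R
        have h2' : lm s p y = y := h2
        have := RC_lm hR (show (y, PD.lm q c) ∈ RC s f R from h6) p
        rw [h2'] at this
        rw [PD.lm_add]
        exact this)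
  have huy : lm s u y = y := hu.2.1
  obtain ⟨w, hw, hyw⟩ := (show (y, PD.lm u c) ∈ RC s f R from hu.2.2)
  have hw' : th s f w = PD.lm u c := hw
  have hyw' : (y, w) ∈ R := hyw
  refine ⟨u, lm s u w, huu, hu.1, huy, ?_, ?_, ?_⟩
  · rw [← lm_add, huu]
  · rw [th_lm, hw', ← PD.lm_add, huu]
  · have := hR.lm hyw' u
    rwa [huy] at this

theorem right_of_idem {u : Ultrafilter ℕ} {z : ℕ → Fin l} (hl : Late u) (hz : lm s u z = z)
    (ht : th s f z = PD.lm u c) (hzX : z ∈ X) {R' : Set ((ℕ → Fin l) × (ℕ → Fin l))}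
    (hR' : ICER s X R') : Right s f c R' z :=
  (right_iff hR'.closed).2 ⟨u, hl, z, ht, by rw [hz]; exact hR'.refl _ hzX⟩

theorem I_D1 : StD1 := by
  intro k l s X hX R hR f c y hy h
  obtain ⟨u, z, huu, hl, hy', hz, ht, hyz⟩ := exists_idem_right hX hR hy h
  exact ⟨z, hyz, fun R' hR' => right_of_idem hl hz ht (hR.sub _ _ hyz).2 hR'⟩

theorem I_D2 : StD2 := by
  intro k l s X hX R R' hR hR' hs f c y h
  obtain ⟨q, hq, w, hw, hqR⟩ := (right_iff hR.closed).1 h
  obtain ⟨p, hp⟩ := (proxMod_iff hR'.closed).1 (hs _ _ hqR)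
  refine (right_iff hR'.closed).2 ⟨p + q, Late.add p hq, lm s p w, ?_, ?_⟩
  · rw [th_lm, hw, PD.lm_add]
  · rw [lm_add]
    exact hp

theorem I_D3 : StD3 := by
  intro k l s X R hR f c y z hyz h
  obtain ⟨q, hq, w, hw, hqR⟩ := (right_iff hR.closed).1 h
  exact (right_iff hR.closed).2 ⟨q, hq, w, hw,
    hR.trans _ _ _ (hR.symm _ _ (hR.lm hyz q)) hqR⟩

theorem I_D4 : StD4 := by
  intro k l s X hX R R' hR hR' hRR hd f c y hy h
  obtain ⟨u, z0, huu, hl, hy', hz0, ht, hyz0⟩ := exists_idem_right hX hR hy h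
  refine ⟨z0, hyz0, fun z hz m N => ?_⟩
  have hyz : (y, z) ∈ R := hz
  have hyz' : (y, lm s u z) ∈ R := by
    have := hR.lm hyz u
    rwa [hy'] at this
  have hzz : (z, lm s u z) ∈ R := hR.trans _ _ _ (hR.symm _ _ hyz) hyz'
  have hzm : lm s u z ∈ X := (hR.sub _ _ hzz).2
  have hp : ProxMod s R' z (lm s u z) := by
    refine (proxMod_iff hR'.closed).2 ⟨u, ?_⟩
    rw [← lm_add, huu]
    exact hR'.refl _ hzm
  have hz' : (z, lm s u z) ∈ R' := hd _ _ hzz hp
  obtain ⟨x, hx⟩ := ((hl N).and ((PD.lm_spec_lt u c m).and (lm_spec_lt u z m))).exists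
  refine ⟨x, hx.1, ⟨(z0, z0), hR'.refl _ (hR.sub _ _ hyz0).2, fun i _ => rfl, fun i hi => ?_⟩,
    ⟨(lm s u z, z), hR'.symm _ _ hz', fun i hi => (hx.2.2 i hi).symm, fun i _ => rfl⟩⟩
  rw [hx.2.1 i hi, ← ht]
  rfl

theorem I_D5 : StD5 := by
  intro k l s X hX R hR f c y hy hyc hd
  refine ⟨hy, fun z hz m N => ?_⟩
  obtain ⟨p0, hp0, hp0R⟩ := (right_iff hR.closed).1 (right_of_meet hR hyc)
  let L : Set (Ultrafilter ℕ) := {p | Late p} ∩ {p | (lm s p y, PD.lm p c) ∈ RC s f R}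
  have hLc : IsClosed L := isClosed_late.inter
    ((isClosed_RC hR.closed).preimage ((continuous_lm y).prodMk (PD.continuous_lm c)))
  have hLl : ∀ q : Ultrafilter ℕ, ∀ p ∈ L, q + p ∈ L := by
    rintro q p ⟨h1, h2⟩
    refine ⟨Late.add q h1, ?_⟩
    show (lm s (q + p) y, PD.lm (q + p) c) ∈ RC s f R
    rw [lm_add, PD.lm_add]
    exact RC_lm hR h2 q
  have hLz : (fun p : Ultrafilter ℕ => lm s p z) '' L = X := by
    refine hX.minimal _ ?_ ⟨_, p0, ⟨hp0, hp0R⟩, rfl⟩
      (hLc.isCompact.image (continuous_lm z)).isClosed ?_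
    · rintro _ ⟨p, _, rfl⟩
      exact lm_mem hX.closed hX.shift p hz
    · rintro _ ⟨p, hp, rfl⟩
      refine ⟨pure 1 + p, hLl _ p hp, ?_⟩
      simp only
      rw [lm_add, lm_pure_one]
  obtain ⟨p1, hp1, hp1z⟩ : z ∈ (fun p : Ultrafilter ℕ => lm s p z) '' L := hLz ▸ hz
  let S : Set (Ultrafilter ℕ) := L ∩ {p | lm s p z = z}
  have hSc : IsClosed S := hLc.inter (isClosed_eq (continuous_lm z) continuous_const)
  obtain ⟨u, hu, huu⟩ := exists_idempotent_in_compact_add_subsemigroup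
    (fun r : Ultrafilter ℕ => Ultrafilter.continuous_add_left r) S ⟨p1, hp1, hp1z⟩
    hSc.isCompact (by
      rintro p ⟨_, h2⟩ q ⟨h3, h4⟩
      refine ⟨hLl p q h3, ?_⟩
      have h2' : lm s p z = z := h2
      have h4' : lm s q z = z := h4
      show lm s (p + q) z = z
      rw [lm_add, h4', h2'])
  have huz : lm s u z = z := hu.2
  obtain ⟨w, hw, huc⟩ := (show (lm s u y, PD.lm u c) ∈ RC s f R from hu.1.2)
  have hw' : th s f w = PD.lm u c := hw
  have huc' : (lm s u y, w) ∈ R := huc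
  have huy : (y, lm s u y) ∈ R := by
    refine hd _ (lm_mem hX.closed hX.shift u hy) ((proxMod_iff hR.closed).2 ⟨u, ?_⟩)
    rw [← lm_add, huu]
    exact hR.refl _ (lm_mem hX.closed hX.shift u hy)
  have hyw : (y, w) ∈ R := hR.trans _ _ _ huy huc'
  obtain ⟨x, hx⟩ := ((hu.1.1 N).and ((PD.lm_spec_lt u c m).and (lm_spec_lt u z m))).exists
  refine ⟨x, hx.1, ⟨(y, w), hyw, fun i _ => rfl, fun i hi => ?_⟩,
    ⟨(z, z), hR.refl _ hz, fun i hi => ?_, fun i _ => rfl⟩⟩
  · rw [hx.2.1 i hi, ← hw']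
    rfl
  · have := hx.2.2 i hi
    rw [huz] at this
    exact this.symm

end Pool.Agent.Work.MP_69fea5_lc.TX
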