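import Pool.Agent.Work.MP_69fea5_lc.TX.Dyn

/-!
# Dynamics of the block TX: compactness, returns, finite steps, limits of towers
-/

set_option autoImplicit false

namespace Pool.Agent.Work.MP_69fea5_lc.TX

open Filter Topology
open TW (Close pre pre2 close_mono close_of_mem close_congr mem_of_close exists_ultra Late
  isClosed_late ul ul_spec ul_spec_lt hyper_ge ul_mem exists_bound)

variable {k l : ℕ} {s : ℕ → ℕ} {f : Fin l → Fin k} {c : ℕ → Fin k} {X : Set (ℕ → Fin l)}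

/-- approximate transitivity -/
theorem closeC_trans {R : Set ((ℕ → Fin l) × (ℕ → Fin l))} (hR : ICER s X R) (m : ℕ) :
    ∃ n, ∀ (a b : ℕ → Fin l) (x : ℕ), Close R n a b → CloseC s f c R n b x →
      CloseC s f c R m a x := by
  by_contra hc
  push Not at hc
  choose a b x h1 h2 h3 using hc
  choose p hp hp1 hp2 using h2
  have hA : (ul (hyperfilter ℕ) a, ul (hyperfilter ℕ) b) ∈ R := ul_mem hR.closed _ fun m' =>
    (hyper_ge m').mono fun n hn => close_mono hn (h1 n)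
  have hB : (ul (hyperfilter ℕ) b, ul (hyperfilter ℕ) fun n => (p n).2) ∈ R :=
    ul_mem hR.closed _ fun m' => (hyper_ge m').mono fun n hn =>
      ⟨p n, hp n, fun i hi => hp1 n i (hi.trans_le hn), fun i _ => rfl⟩
  obtain ⟨M, hM1, hM2⟩ := exists_big (fun i => s^[i] 0) m
  obtain ⟨n, hn⟩ := ((hyper_ge m).and ((ul_spec_lt (hyperfilter ℕ) a m).and
    (ul_spec_lt (hyperfilter ℕ) (fun n => (p n).2) M))).exists
  refine h3 n ⟨_, hR.trans _ _ _ hA hB, fun i hi => (hn.2.1 i hi).symm, fun i hi => ?_⟩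
  show f (ul (hyperfilter ℕ) (fun n => (p n).2) (s^[i] 0)) = c (x n + i)
  rw [← hn.2.2 _ (hM2 i hi), hp2 n i (hi.trans_le hn.1)]

theorem I_D6 : StD6 := by
  intro k l s X R hR f c K hK hsat
  refine ⟨fun y hy m N => ?_, fun y hy z hyz => ⟨hsat y hy.1 z hyz, fun z' hz' m N => ?_⟩⟩
  · obtain ⟨n, hn⟩ := closeC_trans (f := f) (c := c) hR m
    obtain ⟨x, hx, h1, h2⟩ := hy.2 y hy.1 n N
    exact ⟨x, hx, hn _ _ _ h2 h1⟩
  · obtain ⟨n, hn⟩ := closeC_trans (f := f) (c := c) hR m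
    obtain ⟨x, hx, h1, h2⟩ := hy.2 z' hz' (max n m) N
    exact ⟨x, hx, hn _ _ _ (close_of_mem (hR.symm _ _ hyz)) (closeC_mono (le_max_left _ _) h1),
      close_mono (le_max_right _ _) h2⟩

theorem Bad.mono {R : Set ((ℕ → Fin l) × (ℕ → Fin l))} {y : ℕ → Fin l} {m m' N N' : ℕ}
    (hm : m ≤ m') (hN : N ≤ N') (h : Bad s f c R m N y) : Bad s f c R m' N' y :=
  fun x hx hc => h x (hN.trans hx) (closeC_mono hm hc)

theorem Sep.mono {R : Set ((ℕ → Fin l) × (ℕ → Fin l))} {a b : ℕ → Fin l} {n n' : ℕ}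
    (hn : n ≤ n') (h : Sep s R n a b) : Sep s R n' a b := fun x hc => h x (close_mono hn hc)

theorem not_mem_of_sep {R : Set ((ℕ → Fin l) × (ℕ → Fin l))} {a b : ℕ → Fin l} {n : ℕ}
    (h : Sep s R n a b) : (a, b) ∉ R := by
  intro hab
  exact h 0 (close_of_mem hab)

theorem exists_sep {R R' : Set ((ℕ → Fin l) × (ℕ → Fin l))} (hd : DistStep s R R')
    {a b : ℕ → Fin l} (h : (a, b) ∈ R) (h' : (a, b) ∉ R') : ∃ n, Sep s R' n a b := by
  have : ¬ ProxMod s R' a b := fun hp => h' (hd _ _ h hp)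
  unfold ProxMod at this
  push Not at this
  exact this

theorem I_D7 : StD7 := by
  intro k l s X hX R R' hR hR' hRR hd F c E hE hsat hr q hq y hy
  obtain ⟨hyE, z, hzy, f, hf⟩ := hy
  by_contra hc
  -- `y` is bad
  have hyb : ∃ m N, Bad s F c R' m N y := by
    unfold Right at hc
    push Not at hc
    exact hc
  obtain ⟨m', N', hyb⟩ := hyb
  obtain ⟨z', hyz', hz'⟩ := I_D1 k l s X hX R hR F c y (hE hyE) (hr y hyE)
  have hz'r : Right s F c R' z' := hz' R' hR'
  have hzyR : (z, y) ∈ R := hRR hzy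
  let g : ℕ → (ℕ → Fin l) := fun a => if a < q.1 then f a else y
  have hg1 : ∀ a, a < q.1 → g a = f a := fun a ha => if_pos ha
  have hg2 : g q.1 = y := if_neg (lt_irrefl _)
  -- all points are in one class
  have hgR : ∀ a < q.1 + 1, (y, g a) ∈ R := by
    intro a ha
    rcases Nat.lt_succ_iff_lt_or_eq.1 ha with ha | rfl
    · rw [hg1 a ha]
      exact hR.trans _ _ _ (hR.symm _ _ hzyR) (hf a ha).1
    · rw [hg2]
      exact hR.refl _ (hE hyE)
  have hbad : ∀ a < q.1 + 1, Bad s F c R' (max q.2.1 m') (max q.2.2.1 N') (g a) := by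
    intro a ha
    rcases Nat.lt_succ_iff_lt_or_eq.1 ha with ha | rfl
    · rw [hg1 a ha]
      exact (hf a ha).2.1.mono (le_max_left _ _) (le_max_left _ _)
    · rw [hg2]
      exact hyb.mono (le_max_right _ _) (le_max_right _ _)
  -- separation from `z'`
  have h1 : ∃ n, ∀ a < q.1 + 1, Sep s R' n z' (g a) := by
    refine exists_bound (fun a n n' hn h => h.mono hn) _ fun a ha => ?_
    refine exists_sep hd (hR.trans _ _ _ (hR.symm _ _ hyz') (hgR a ha)) fun hza => ?_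
    obtain ⟨x, hx, hcl⟩ := I_D3 k l s X R' hR' F c z' (g a) hza hz'r (max q.2.1 m')
      (max q.2.2.1 N')
    exact hbad a ha x hx hcl
  -- separation from `y`
  have h2 : ∃ n, ∀ a < q.1, Sep s R' n y (f a) ∧ Sep s R' n (f a) y := by
    refine exists_bound (fun a n n' hn h => ⟨h.1.mono hn, h.2.mono hn⟩) _ fun a ha => ?_
    have hya : (y, f a) ∈ R := by
      have := hgR a (ha.trans (Nat.lt_succ_self _))
      rwa [hg1 a ha] at this
    have hn : (y, f a) ∉ R' := fun h =>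
      not_mem_of_sep (hf a ha).2.2.1 (hR'.trans _ _ _ hzy h)
    obtain ⟨n, hs⟩ := exists_sep hd hya hn
    obtain ⟨t, ht⟩ := exists_sep hd (hR.symm _ _ hya) fun h => hn (hR'.symm _ _ h)
    exact ⟨max n t, hs.mono (le_max_left _ _), ht.mono (le_max_right _ _)⟩
  obtain ⟨s1, h1⟩ := h1
  obtain ⟨s2, h2⟩ := h2
  refine hq (q.1 + 1, max q.2.1 m', max q.2.2.1 N', max q.2.2.2 (max s1 s2))
    (Nat.lt_succ_self _) ⟨z', hsat y hyE z' hyz', z', hR'.refl _ (hR.sub _ _ hyz').2, g,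
    fun a ha => ⟨hR.trans _ _ _ (hR.symm _ _ hyz') (hgR a ha), hbad a ha,
      (h1 a ha).mono (le_trans (le_max_left _ _) (le_max_right _ _)), fun b hb hba => ?_⟩⟩
  rcases Nat.lt_succ_iff_lt_or_eq.1 ha with ha | rfl
  · rcases Nat.lt_succ_iff_lt_or_eq.1 hb with hb | rfl
    · rw [hg1 a ha, hg1 b hb]
      exact ((hf a ha).2.2.2 b hb hba).mono (le_max_left _ _)
    · rw [hg1 a ha, hg2]
      exact (h2 a ha).1.mono (le_trans (le_max_right _ _) (le_max_right _ _))
  · rcases Nat.lt_succ_iff_lt_or_eq.1 hb with hb | rfl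
    · rw [hg1 b hb, hg2]
      exact (h2 b hb).2.mono (le_trans (le_max_right _ _) (le_max_right _ _))
    · exact absurd rfl hba

theorem I_D8 : StD8 := by
  intro k l s X R R' hR hR' hRR hf F c
  obtain ⟨p, hp⟩ := hf
  refine ⟨p, fun q hq => Set.eq_empty_of_forall_notMem fun y hy => ?_⟩
  obtain ⟨z, hzy, f, hf⟩ := hy
  let g : ℕ → (ℕ → Fin l) := fun a => match a with
    | 0 => z
    | a + 1 => f a
  obtain ⟨i, hi, j, hj, hij⟩ := hp g (by
    intro i hi
    cases i with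
    | zero => exact hR.refl _ (hR'.sub _ _ hzy).1
    | succ i => exact (hf i (by omega)).1)
  cases i with
  | zero => exact absurd hj (Nat.not_lt_zero _)
  | succ i =>
    cases j with
    | zero => exact not_mem_of_sep (hf i (by omega)).2.2.1 hij
    | succ j => exact not_mem_of_sep ((hf i (by omega)).2.2.2 j (by omega) (by omega)) hij

/-- approximation of the intersection of a tower -/
theorem exists_level {R : ℕ → Set ((ℕ → Fin l) × (ℕ → Fin l))} (hR : ∀ n, IsClosed (R n))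
    (hRR : ∀ n, R (n + 1) ⊆ R n) (m : ℕ) :
    ∃ n, ∀ a b, (a, b) ∈ R n → Close (⋂ n, R n) m a b := by
  have hanti : Antitone R := antitone_nat_of_succ_le hRR
  by_contra hc
  push Not at hc
  choose a b h1 h2 using hc
  have hA : (ul (hyperfilter ℕ) a, ul (hyperfilter ℕ) b) ∈ ⋂ n, R n := by
    refine Set.mem_iInter.2 fun n => ul_mem (hR n) _ fun m' => ?_
    exact (hyper_ge n).mono fun t ht => close_of_mem (hanti ht (h1 t))
  obtain ⟨t, ht⟩ := ((ul_spec_lt (hyperfilter ℕ) a m).and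
    (ul_spec_lt (hyperfilter ℕ) b m)).exists
  exact h2 t (close_congr (close_of_mem hA) (fun i hi => (ht.1 i hi).symm)
    fun i hi => (ht.2 i hi).symm)

theorem exists_level' {R : ℕ → Set ((ℕ → Fin l) × (ℕ → Fin l))} (hR : ∀ n, IsClosed (R n))
    (hRR : ∀ n, R (n + 1) ⊆ R n) (m : ℕ) :
    ∃ n, ∀ (a : ℕ → Fin l) (x : ℕ), CloseC s f c (R n) m a x → CloseC s f c (⋂ n, R n) m a x := by
  obtain ⟨M, hM1, hM2⟩ := exists_big (fun i => s^[i] 0) m
  obtain ⟨n, hn⟩ := exists_level hR hRR M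
  refine ⟨n, fun a x h => ?_⟩
  obtain ⟨p, hp, h1, h2⟩ := h
  obtain ⟨p', hp', h3, h4⟩ := hn p.1 p.2 hp
  exact ⟨p', hp', fun i hi => (h3 i (hi.trans_le hM1)).trans (h1 i hi), fun i hi => by
    rw [h4 _ (hM2 i hi), h2 i hi]⟩

theorem I_D9 : StD9 := by
  intro k l s X R hR hRR f c y hy m N
  obtain ⟨n, hn⟩ := exists_level' (s := s) (f := f) (c := c) (fun n => (hR n).closed) hRR m
  obtain ⟨x, hx, h⟩ := hy n m N
  exact ⟨x, hx, hn _ _ h⟩

end Pool.Agent.Work.MP_69fea5_lc.TX
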