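import Pool.Agent.Work.MP_69fea5_lc.TX.Stmts

/-!
# Item C3 of the block TX: the set of returning points is closed and coded
-/

set_option autoImplicit false

namespace Pool.Agent.Work.MP_69fea5_lc.TX

open HK Filter Topology
open TW (Close pre pre2)

namespace XC3

variable {k l : ℕ}

/-- prefixes -/
def pf (y : ℕ → Fin l) (m : ℕ) : List (Fin l) := (List.range m).map y

@[simp] theorem pf_length (y : ℕ → Fin l) (m : ℕ) : (pf y m).length = m := by simp [pf]

theorem pf_getElem (y : ℕ → Fin l) (m i : ℕ) (h : i < (pf y m).length) : (pf y m)[i] = y i := by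
  simp [pf]

theorem pf_getElem? (y : ℕ → Fin l) (m i : ℕ) (h : i < m) : (pf y m)[i]? = some (y i) := by
  rw [List.getElem?_eq_getElem (by simpa using h), pf_getElem]

theorem pf_take (y : ℕ → Fin l) {m n : ℕ} (h : m ≤ n) : (pf y n).take m = pf y m := by
  simp [pf, ← List.map_take, List.take_range, h]

theorem pf_congr {y z : ℕ → Fin l} {m : ℕ} (h : ∀ i < m, y i = z i) : pf y m = pf z m := by
  unfold pf
  apply List.map_congr_left
  intro i hi
  exact h i (by simpa using hi)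

theorem pf_eq_iff (y : ℕ → Fin l) (w : List (Fin l)) :
    (∀ i (h : i < w.length), y i = w[i]) ↔ pf y w.length = w := by
  constructor
  · intro h
    apply List.ext_getElem
    · simp
    · intro i h1 h2
      rw [pf_getElem, h i h2]
  · intro h i hi
    have h1 : (pf y w.length)[i]'(by simpa using hi) = y i := pf_getElem _ _ _ _
    rw [← h1]
    congr 1

theorem close_iff (R : Set ((ℕ → Fin l) × (ℕ → Fin l))) (m : ℕ) (a b : ℕ → Fin l) :
    Close R m a b ↔ pre2 R (pf a m, pf b m) := by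
  unfold Close pre2
  constructor
  · rintro ⟨p, hp, h1, h2⟩
    refine ⟨p, hp, ?_, ?_⟩
    · intro i hi
      rw [pf_getElem]
      exact h1 i (by simpa using hi)
    · intro i hi
      rw [pf_getElem]
      exact h2 i (by simpa using hi)
  · rintro ⟨p, hp, h1, h2⟩
    refine ⟨p, hp, ?_, ?_⟩
    · intro i hi
      have := h1 i (by simpa using hi)
      rwa [pf_getElem] at this
    · intro i hi
      have := h2 i (by simpa using hi)
      rwa [pf_getElem] at this

theorem bnd (g : ℕ → ℕ) (m : ℕ) : ∃ B, ∀ i < m, g i < B := by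
  induction m with
  | zero => exact ⟨0, fun i hi => absurd hi (by omega)⟩
  | succ m ih =>
    obtain ⟨B, hB⟩ := ih
    refine ⟨max B (g m + 1), fun i hi => ?_⟩
    rcases Nat.lt_succ_iff_lt_or_eq.1 hi with h | h
    · exact lt_of_lt_of_le (hB i h) (le_max_left _ _)
    · subst h
      exact lt_of_lt_of_le (Nat.lt_succ_self _) (le_max_right _ _)

/-- the word form of closeness to `c` -/
def CC (s : ℕ → ℕ) (f : Fin l → Fin k) (c : ℕ → Fin k) (R : Set ((ℕ → Fin l) × (ℕ → Fin l)))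
    (v : List (Fin l)) (x : ℕ) : Prop :=
  ∃ u : List (Fin l), pre2 R (v, u) ∧ ∀ i < v.length, (u[s^[i] 0]?).map f = some (c (x + i))

theorem closeC_iff (s : ℕ → ℕ) (f : Fin l → Fin k) (c : ℕ → Fin k)
    (R : Set ((ℕ → Fin l) × (ℕ → Fin l))) (m : ℕ) (a : ℕ → Fin l) (x : ℕ) :
    CloseC s f c R m a x ↔ CC s f c R (pf a m) x := by
  unfold CloseC CC
  constructor
  · rintro ⟨p, hp, h1, h2⟩
    obtain ⟨B, hB⟩ := bnd (fun i => s^[i] 0) m
    refine ⟨pf p.2 B, ⟨p, hp, ?_, ?_⟩, ?_⟩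
    · intro i hi
      rw [pf_getElem]
      exact h1 i (by simpa using hi)
    · intro i hi
      rw [pf_getElem]
    · intro i hi
      rw [pf_length] at hi
      rw [pf_getElem? _ _ _ (hB i hi), Option.map_some, h2 i hi]
  · rintro ⟨u, ⟨p, hp, h1, h2⟩, h3⟩
    refine ⟨p, hp, ?_, ?_⟩
    · intro i hi
      have := h1 i (by simpa using hi)
      rwa [pf_getElem] at this
    · intro i hi
      have h4 := h3 i (by simpa using hi)
      rw [Option.map_eq_some_iff] at h4
      obtain ⟨b, hb, hb'⟩ := h4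
      obtain ⟨hlt, hb⟩ := List.getElem?_eq_some_iff.1 hb
      rw [h2 _ hlt, hb, hb']

theorem pre_iff (K : Set (ℕ → Fin l)) (w : List (Fin l)) :
    pre K w ↔ ∃ z ∈ K, pf z w.length = w := by
  unfold pre
  simp only [pf_eq_iff]

theorem pre_pf {K : Set (ℕ → Fin l)} {z : ℕ → Fin l} (hz : z ∈ K) (m : ℕ) : pre K (pf z m) := by
  rw [pre_iff]
  exact ⟨z, hz, by simp⟩

/-- compactness -/
theorem cluster {K : Set (ℕ → Fin l)} (hK : IsClosed K) (Z : ℕ → ℕ → Fin l) (hZ : ∀ n, Z n ∈ K) :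
    ∃ z ∈ K, ∀ n L₀, ∃ L, L₀ ≤ L ∧ ∀ i < n, Z L i = z i := by
  obtain ⟨z, hz, φ, hφ, ht⟩ := hK.isCompact.tendsto_subseq hZ
  refine ⟨z, hz, fun n L₀ => ?_⟩
  rw [tendsto_pi_nhds] at ht
  have h1 : ∀ i, ∀ᶠ l in atTop, Z (φ l) i = z i := by
    intro i
    have := ht i
    rw [nhds_discrete, tendsto_pure] at this
    exact this
  have h2 : ∀ᶠ l in atTop, ∀ i ∈ Finset.range n, Z (φ l) i = z i := by
    rw [Filter.eventually_all_finset]
    intro i _
    exact h1 i
  obtain ⟨l, hl, hl'⟩ := (h2.and (eventually_ge_atTop L₀)).exists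
  exact ⟨φ l, le_trans hl' (hφ.id_le l), fun i hi => hl i (by simpa using hi)⟩

/-- the arithmetical condition on prefixes -/
def G (s : ℕ → ℕ) (f : Fin l → Fin k) (c : ℕ → Fin k) (R : Set ((ℕ → Fin l) × (ℕ → Fin l)))
    (K : Set (ℕ → Fin l)) (v : List (Fin l)) : Prop :=
  ∀ N : ℕ, ∃ L : ℕ, ∀ w : List (Fin l), (w.length = L + v.length ∧ pre K w) →
    ∃ x : ℕ, (N ≤ x ∧ x ≤ L) ∧ CC s f c R v x ∧
      ∃ u : List (Fin l), (u.length = v.length ∧ ∀ i < v.length, u[i]? = w[s^[x] i]?) ∧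
        pre2 R (u, w.take v.length)

theorem list_eq_pf {u : List (Fin l)} {a : ℕ → Fin l} {m : ℕ} (hl : u.length = m)
    (h : ∀ i < m, u[i]? = some (a i)) : u = pf a m := by
  apply List.ext_getElem?
  intro i
  by_cases hi : i < m
  · rw [h i hi, pf_getElem? a m i hi]
  · rw [List.getElem?_eq_none (by omega), List.getElem?_eq_none (by simpa using hi)]

/-- the points of `Ret` -/
theorem mem_ret {s : ℕ → ℕ} {f : Fin l → Fin k} {c : ℕ → Fin k}
    {R : Set ((ℕ → Fin l) × (ℕ → Fin l))} {K : Set (ℕ → Fin l)}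
    (hK : IsClosed K) (y : ℕ → Fin l) :
    y ∈ Ret s f c R K ↔ y ∈ K ∧ ∀ m, G s f c R K (pf y m) := by
  constructor
  · rintro ⟨hy, h⟩
    refine ⟨hy, fun m => ?_⟩
    by_contra hG
    unfold G at hG
    push Not at hG
    obtain ⟨N, hN⟩ := hG
    simp only [pf_length] at hN
    choose w hw hbad using hN
    have h1 : ∀ L, ∃ z ∈ K, pf z (w L).length = w L := fun L => (pre_iff K (w L)).1 (hw L).2
    choose Z hZ hZw using h1
    obtain ⟨z, hz, hcl⟩ := cluster hK Z hZ
    obtain ⟨x, hx, hc, hzz⟩ := h z hz m N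
    obtain ⟨B, hB⟩ := bnd (fun i => s^[x] i) m
    obtain ⟨L, hL, hag⟩ := hcl (B + m) (x + B + m)
    refine absurd ?_ (hbad L x ⟨hx, by omega⟩ ((closeC_iff s f c R m y x).1 hc)
      (pf (sh s x z) m) ⟨by simp, fun i hi => ?_⟩)
    · have h2 : (w L).take m = pf z m := by
        rw [← hZw L, (hw L).1, pf_take _ (by omega)]
        exact pf_congr fun i hi => hag i (by omega)
      rw [h2, ← close_iff]
      exact hzz
    · have hBi := hB i hi
      rw [pf_getElem? _ _ _ hi, ← hZw L, (hw L).1, pf_getElem? _ _ _ (by omega),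
        hag _ (by omega)]
      rfl
  · rintro ⟨hy, h⟩
    refine ⟨hy, fun z hz m N => ?_⟩
    obtain ⟨L, hL⟩ := h m N
    obtain ⟨x, ⟨hx, hxL⟩, hc, u', ⟨hv, hv'⟩, hq⟩ :=
      hL (pf z (L + m)) ⟨by simp, pre_pf hz _⟩
    simp only [pf_length] at hv hv' hq
    refine ⟨x, hx, (closeC_iff s f c R m y x).2 hc, ?_⟩
    rw [close_iff]
    have h1 : u' = pf (sh s x z) m := by
      refine list_eq_pf hv fun i hi => ?_
      have h2 := hv' i hi
      rw [List.getElem?_eq_getElem (by omega)] at h2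
      obtain ⟨hlt, h3⟩ := List.getElem?_eq_some_iff.1 h2.symm
      rw [hv' i hi, pf_getElem? _ _ _ (by simpa using hlt)]
      rfl
    rw [pf_take _ (by omega)] at hq
    rw [← h1]
    exact hq

theorem isClosed_pf (P : List (Fin l) → Prop) : IsClosed {y : ℕ → Fin l | ∀ m, P (pf y m)} := by
  rw [Set.ofPred_forall]
  refine isClosed_iInter fun m => ?_
  have h : {y : ℕ → Fin l | P (pf y m)} =
      (fun y : ℕ → Fin l => fun i : Fin m => y i) ⁻¹' {f | P (List.ofFn f)} := by
    ext y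
    simp only [Set.mem_ofPred_eq, Set.mem_preimage]
    have : pf y m = List.ofFn fun i : Fin m => y i := by
      apply List.ext_getElem
      · simp
      · intro i h1 h2
        rw [pf_getElem]
        simp
    rw [this]
  rw [h]
  refine IsClosed.preimage (by fun_prop) (isClosed_discrete _)

theorem pre_ret {s : ℕ → ℕ} {f : Fin l → Fin k} {c : ℕ → Fin k}
    {R : Set ((ℕ → Fin l) × (ℕ → Fin l))} {K : Set (ℕ → Fin l)}
    (hK : IsClosed K) (w : List (Fin l)) :
    pre (Ret s f c R K) w ↔ ∀ n : ℕ, w.length ≤ n → ∃ v : List (Fin l),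
      (v.length = n ∧ v.take w.length = w) ∧ pre K v ∧ ∀ m < n + 1, G s f c R K (v.take m) := by
  constructor
  · intro h n hn
    obtain ⟨z, hz, hzw⟩ := (pre_iff _ w).1 h
    obtain ⟨hzK, hzG⟩ := (mem_ret hK z).1 hz
    refine ⟨pf z n, ⟨by simp, by rw [pf_take _ hn, hzw]⟩, pre_pf hzK n, fun m hm => ?_⟩
    rw [pf_take _ (by omega)]
    exact hzG m
  · intro h
    have h0 : ∀ n : ℕ, ∃ v : List (Fin l), w.length ≤ n →
        (v.length = n ∧ v.take w.length = w) ∧ pre K v ∧
          ∀ m < n + 1, G s f c R K (v.take m) := by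
      intro n
      by_cases hn : w.length ≤ n
      · obtain ⟨v, hv⟩ := h n hn
        exact ⟨v, fun _ => hv⟩
      · exact ⟨[], fun h => absurd h hn⟩
    choose v hv using h0
    have h1 : ∀ n : ℕ, ∃ z ∈ K, pf z (v (w.length + n)).length = v (w.length + n) :=
      fun n => (pre_iff K _).1 (hv (w.length + n) (by omega)).2.1
    choose Z hZ hZv using h1
    obtain ⟨z, hz, hcl⟩ := cluster hK Z hZ
    -- prefixes of the limit
    have h2 : ∀ m : ℕ, ∃ n, m ≤ w.length + n ∧ (v (w.length + n)).take m = pf z m := by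
      intro m
      obtain ⟨L, hL, hag⟩ := hcl m m
      refine ⟨L, by omega, ?_⟩
      rw [← hZv L, (hv (w.length + L) (by omega)).1.1, pf_take _ (by omega)]
      exact pf_congr hag
    rw [pre_iff]
    refine ⟨z, (mem_ret hK z).2 ⟨hz, fun m => ?_⟩, ?_⟩
    · obtain ⟨n, hn, h3⟩ := h2 m
      rw [← h3]
      exact (hv (w.length + n) (by omega)).2.2 m (by omega)
    · obtain ⟨n, hn, h3⟩ := h2 w.length
      rw [← h3]
      exact (hv (w.length + n) (by omega)).1.2

theorem primrec_it {s : ℕ → ℕ} (hs : Primrec s) {α : Type} [Primcodable α] {g h : α → ℕ}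
    (hg : Primrec g) (hh : Primrec h) : Primrec fun a => s^[g a] (h a) :=
  Primrec.nat_iterate hg hh (hs.comp Primrec.snd).to₂

section ar

variable {S : Set (Set ℕ)} {s : ℕ → ℕ} {f : Fin l → Fin k}
  {R : Set ((ℕ → Fin l) × (ℕ → Fin l))} {c : ℕ → Fin k} {K : Set (ℕ → Fin l)}

theorem ar_CC (hS : Cl S) (hs : Primrec s) (hR : Ar S (pre2 R)) (hc : ArF S c) :
    Ar S fun p : List (Fin l) × ℕ => CC s f c R p.1 p.2 := by
  unfold CC
  refine Ar.ex hS (R := fun (p : List (Fin l) × ℕ) (u : List (Fin l)) => pre2 R (p.1, u) ∧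
    ∀ i < p.1.length, (u[s^[i] 0]?).map f = some (c (p.2 + i))) ?_
  refine Ar.and hS (hR.comp hS ((Primrec.fst.comp Primrec.fst).pair Primrec.snd)) ?_
  refine Ar.ball hS (R := fun (q : (List (Fin l) × ℕ) × List (Fin l)) (i : ℕ) =>
    (q.2[s^[i] 0]?).map f = some (c (q.1.2 + i))) ?_
    (ArF.of_primrec hS (Primrec.list_length.comp (Primrec.fst.comp Primrec.fst)))
  refine Ar.eq hS (ArF.of_primrec hS ?_) ?_
  · refine Primrec.option_map ?_ ((Primrec.dom_finite f).comp Primrec.snd).to₂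
    exact Primrec.list_getElem?.comp (Primrec.snd.comp Primrec.fst)
      (primrec_it hs Primrec.snd (Primrec.const 0))
  · refine ArF.map hS Primrec.option_some ?_
    refine hc.comp hS (f := fun q : ((List (Fin l) × ℕ) × List (Fin l)) × ℕ =>
      q.1.1.2 + q.2) (ArF.of_primrec hS ?_)
    exact Primrec.nat_add.comp (Primrec.snd.comp (Primrec.fst.comp Primrec.fst)) Primrec.snd

theorem ar_G (hS : Cl S) (hs : Primrec s) (hR : Ar S (pre2 R)) (hc : ArF S c)
    (hK : Ar S (pre K)) : Ar S (G s f c R K) := by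
  unfold G
  refine Ar.all hS (R := fun (v : List (Fin l)) (N : ℕ) => ∃ L : ℕ, ∀ w : List (Fin l),
    (w.length = L + v.length ∧ pre K w) → ∃ x : ℕ, (N ≤ x ∧ x ≤ L) ∧ CC s f c R v x ∧
      ∃ u : List (Fin l), (u.length = v.length ∧ ∀ i < v.length, u[i]? = w[s^[x] i]?) ∧
        pre2 R (u, w.take v.length)) ?_
  refine Ar.ex hS (R := fun (p : List (Fin l) × ℕ) (L : ℕ) => ∀ w : List (Fin l),
    (w.length = L + p.1.length ∧ pre K w) → ∃ x : ℕ, (p.2 ≤ x ∧ x ≤ L) ∧ CC s f c R p.1 x ∧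
      ∃ u : List (Fin l), (u.length = p.1.length ∧ ∀ i < p.1.length, u[i]? = w[s^[x] i]?) ∧
        pre2 R (u, w.take p.1.length)) ?_
  refine Ar.all hS (R := fun (p : (List (Fin l) × ℕ) × ℕ) (w : List (Fin l)) =>
    (w.length = p.2 + p.1.1.length ∧ pre K w) → ∃ x : ℕ, (p.1.2 ≤ x ∧ x ≤ p.2) ∧
      CC s f c R p.1.1 x ∧
      ∃ u : List (Fin l), (u.length = p.1.1.length ∧
        ∀ i < p.1.1.length, u[i]? = w[s^[x] i]?) ∧ pre2 R (u, w.take p.1.1.length)) ?_
  refine Ar.imp hS (Ar.and hS ?_ ?_) ?_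
  · refine Ar.eq hS (ArF.of_primrec hS (Primrec.list_length.comp Primrec.snd))
      (ArF.of_primrec hS ?_)
    exact Primrec.nat_add.comp (Primrec.snd.comp Primrec.fst)
      (Primrec.list_length.comp (Primrec.fst.comp (Primrec.fst.comp Primrec.fst)))
  · exact hK.comp hS Primrec.snd
  refine Ar.ex hS (R := fun (p : ((List (Fin l) × ℕ) × ℕ) × List (Fin l)) (x : ℕ) =>
    (p.1.1.2 ≤ x ∧ x ≤ p.1.2) ∧ CC s f c R p.1.1.1 x ∧
      ∃ u : List (Fin l), (u.length = p.1.1.1.length ∧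
        ∀ i < p.1.1.1.length, u[i]? = p.2[s^[x] i]?) ∧ pre2 R (u, p.2.take p.1.1.1.length)) ?_
  refine Ar.and hS (Ar.and hS ?_ ?_) (Ar.and hS ?_ ?_)
  · exact Ar.le hS (ArF.of_primrec hS (Primrec.snd.comp (Primrec.fst.comp (Primrec.fst.comp
      Primrec.fst)))) (ArF.snd hS)
  · exact Ar.le hS (ArF.snd hS) (ArF.of_primrec hS (Primrec.snd.comp (Primrec.fst.comp
      Primrec.fst)))
  · exact (ar_CC hS hs hR hc).comp hS ((Primrec.fst.comp (Primrec.fst.comp (Primrec.fst.comp
      Primrec.fst))).pair Primrec.snd)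
  · refine Ar.ex hS (R := fun (p : (((List (Fin l) × ℕ) × ℕ) × List (Fin l)) × ℕ)
      (u : List (Fin l)) => (u.length = p.1.1.1.1.length ∧
        ∀ i < p.1.1.1.1.length, u[i]? = p.1.2[s^[p.2] i]?) ∧
          pre2 R (u, p.1.2.take p.1.1.1.1.length)) ?_
    have hv : Primrec fun q : ((((List (Fin l) × ℕ) × ℕ) × List (Fin l)) × ℕ) × List (Fin l) =>
        q.1.1.1.1.1 := Primrec.fst.comp (Primrec.fst.comp (Primrec.fst.comp (Primrec.fst.comp
          Primrec.fst)))
    have hw : Primrec fun q : ((((List (Fin l) × ℕ) × ℕ) × List (Fin l)) × ℕ) × List (Fin l) =>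
        q.1.1.2 := Primrec.snd.comp (Primrec.fst.comp Primrec.fst)
    refine Ar.and hS (Ar.and hS ?_ ?_) ?_
    · exact Ar.eq hS (ArF.of_primrec hS (Primrec.list_length.comp Primrec.snd))
        (ArF.of_primrec hS (Primrec.list_length.comp hv))
    · refine Ar.ball hS (R := fun (q : ((((List (Fin l) × ℕ) × ℕ) × List (Fin l)) × ℕ) ×
        List (Fin l)) (i : ℕ) => q.2[i]? = q.1.1.2[s^[q.1.2] i]?) ?_
        (ArF.of_primrec hS (Primrec.list_length.comp hv))
      refine Ar.eq hS (ArF.of_primrec hS ?_) (ArF.of_primrec hS ?_)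
      · exact Primrec.list_getElem?.comp (Primrec.snd.comp Primrec.fst) Primrec.snd
      · exact Primrec.list_getElem?.comp (hw.comp Primrec.fst)
          (primrec_it hs (Primrec.snd.comp (Primrec.fst.comp Primrec.fst)) Primrec.snd)
    · exact hR.comp hS (Primrec.snd.pair (Primrec.list_take.comp (Primrec.list_length.comp hv) hw))

theorem ar_pre_ret (hS : Cl S) (hs : Primrec s) (hR : Ar S (pre2 R)) (hc : ArF S c)
    (hKc : IsClosed K) (hK : Ar S (pre K)) : Ar S (pre (Ret s f c R K)) := by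
  refine Ar.congr (R := fun w : List (Fin l) => ∀ n : ℕ, w.length ≤ n → ∃ v : List (Fin l),
      (v.length = n ∧ v.take w.length = w) ∧ pre K v ∧ ∀ m < n + 1, G s f c R K (v.take m)) ?_
      fun w => pre_ret hKc w
  refine Ar.all hS (R := fun (w : List (Fin l)) (n : ℕ) => w.length ≤ n → ∃ v : List (Fin l),
      (v.length = n ∧ v.take w.length = w) ∧ pre K v ∧ ∀ m < n + 1, G s f c R K (v.take m)) ?_
  refine Ar.imp hS (Ar.le hS (ArF.of_primrec hS (Primrec.list_length.comp Primrec.fst))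
    (ArF.snd hS)) ?_
  refine Ar.ex hS (R := fun (p : List (Fin l) × ℕ) (v : List (Fin l)) =>
      (v.length = p.2 ∧ v.take p.1.length = p.1) ∧ pre K v ∧
        ∀ m < p.2 + 1, G s f c R K (v.take m)) ?_
  refine Ar.and hS (Ar.and hS ?_ ?_) (Ar.and hS ?_ ?_)
  · exact Ar.eq hS (ArF.of_primrec hS (Primrec.list_length.comp Primrec.snd))
      (ArF.of_primrec hS (Primrec.snd.comp Primrec.fst))
  · exact Ar.eq hS (ArF.of_primrec hS (Primrec.list_take.comp (Primrec.list_length.comp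
      (Primrec.fst.comp Primrec.fst)) Primrec.snd))
      (ArF.of_primrec hS (Primrec.fst.comp Primrec.fst))
  · exact hK.comp hS Primrec.snd
  · refine Ar.ball hS (R := fun (q : (List (Fin l) × ℕ) × List (Fin l)) (m : ℕ) =>
      G s f c R K (q.2.take m)) ?_ (ArF.of_primrec hS
        (Primrec.succ.comp (Primrec.snd.comp Primrec.fst)))
    exact (ar_G hS hs hR hc hK).comp hS (Primrec.list_take.comp Primrec.snd
      (Primrec.snd.comp Primrec.fst))

end ar

end XC3

theorem I_C3 : StC3 := by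
  intro k l S hS s hs X R _ hR f c hc K hKc _ hK
  refine ⟨?_, XC3.ar_pre_ret hS hs hR hc hKc hK⟩
  have h : Ret s f c R K = K ∩ {y | ∀ m, XC3.G s f c R K (XC3.pf y m)} := by
    ext y
    exact XC3.mem_ret hKc y
  rw [h]
  exact hKc.inter (XC3.isClosed_pf _)

end Pool.Agent.Work.MP_69fea5_lc.TX
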