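import Pool.Agent.Work.MP_69fea5_lc.TX.Defs2
import Pool.Agent.Work.MP_69fea5_lc.TX.I_C3
import Pool.Agent.Work.MP_69fea5_lc.TW.I_C2

/-!
# Item C10 of the block TX: the sets `FZ` are coded
-/

set_option autoImplicit false

namespace Pool.Agent.Work.MP_69fea5_lc.TX

open HK Filter Topology
open TW (Close pre pre2)

namespace XC10

variable {k l : ℕ}

open XC3

/-- the word form of the condition in `FZ` -/
def F (s : ℕ → ℕ) (f : Fin l → Fin k) (c : ℕ → Fin k) (K : Set (ℕ → Fin l))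
    (v : List (Fin l)) : Prop :=
  ∃ x : ℕ, ∃ u : List (Fin l), (pre K u ∧ u.take v.length = v) ∧
    ∀ i < v.length, (u[s^[x + i] 0]?).map f = some (c (x + i))

theorem F_iff (s : ℕ → ℕ) (f : Fin l → Fin k) (c : ℕ → Fin k) (K : Set (ℕ → Fin l))
    (v : List (Fin l)) :
    F s f c K v ↔ ∃ y ∈ K, pf y v.length = v ∧ ∃ x, ∀ i < v.length,
      f (y (s^[x + i] 0)) = c (x + i) := by
  unfold F
  constructor
  · rintro ⟨x, u, ⟨hu, huv⟩, h⟩
    obtain ⟨y, hy, hyu⟩ := (pre_iff K u).1 hu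
    have hlen : v.length ≤ u.length := by
      have := congrArg List.length huv
      rw [List.length_take] at this
      omega
    refine ⟨y, hy, ?_, x, fun i hi => ?_⟩
    · rw [← pf_take y hlen, hyu, huv]
    · have h1 := h i hi
      rw [Option.map_eq_some_iff] at h1
      obtain ⟨b, hb, hb'⟩ := h1
      obtain ⟨hlt, hb⟩ := List.getElem?_eq_some_iff.1 hb
      rw [← hb', ← hb]
      congr 1
      have h2 := pf_getElem? y u.length _ hlt
      rw [hyu, List.getElem?_eq_getElem hlt] at h2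
      exact (Option.some.inj h2).symm
  · rintro ⟨y, hy, hyv, x, h⟩
    obtain ⟨B, hB⟩ := bnd (fun i => s^[x + i] 0) v.length
    refine ⟨x, pf y (B + v.length), ⟨pre_pf hy _, ?_⟩, fun i hi => ?_⟩
    · rw [pf_take _ (by omega), hyv]
    · have hBi := hB i hi
      rw [pf_getElem? _ _ _ (by omega), Option.map_some, h i hi]

theorem F_take {s : ℕ → ℕ} {f : Fin l → Fin k} {c : ℕ → Fin k} {K : Set (ℕ → Fin l)}
    {v : List (Fin l)} (h : F s f c K v) (m : ℕ) : F s f c K (v.take m) := by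
  rw [F_iff] at h ⊢
  obtain ⟨y, hy, hyv, x, hx⟩ := h
  have hl : (v.take m).length ≤ v.length := by simp
  refine ⟨y, hy, ?_, x, fun i hi => hx i (by omega)⟩
  rw [← pf_take y hl, hyv, List.length_take]
  rcases le_total m v.length with h | h
  · rw [min_eq_left h]
  · rw [min_eq_right h, List.take_of_length_le le_rfl, List.take_of_length_le h]

theorem mem_FZ {s : ℕ → ℕ} {f : Fin l → Fin k} {c : ℕ → Fin k}
    {Q : Set ((ℕ → Fin l) × (ℕ → Fin l))} {y : ℕ → Fin l} (z : ℕ → Fin l) :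
    z ∈ FZ s f c Q y ↔ ∀ m, F s f c {z | (y, z) ∈ Q} (pf z m) := by
  unfold FZ
  refine forall_congr' fun m => ?_
  rw [F_iff]
  constructor
  · rintro ⟨y', hy', h1, x, h2⟩
    refine ⟨y', hy', ?_, x, ?_⟩
    · rw [pf_length]
      exact pf_congr h1
    · simpa using h2
  · rintro ⟨y', hy', h1, x, h2⟩
    rw [pf_length] at h1 h2
    exact ⟨y', hy', TW.XC2.pf_inj h1, x, h2⟩

theorem pre_FZ {s : ℕ → ℕ} {f : Fin l → Fin k} {c : ℕ → Fin k}
    {Q : Set ((ℕ → Fin l) × (ℕ → Fin l))} (hQ : IsClosed Q) {y : ℕ → Fin l}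
    (w : List (Fin l)) :
    pre (FZ s f c Q y) w ↔ ∀ n : ℕ, w.length ≤ n → ∃ v : List (Fin l),
      (v.length = n ∧ v.take w.length = w) ∧ F s f c {z | (y, z) ∈ Q} v := by
  have hK : IsClosed {z | (y, z) ∈ Q} := hQ.preimage (by fun_prop : Continuous fun z => (y, z))
  constructor
  · intro h n hn
    obtain ⟨z, hz, hzw⟩ := (pre_iff _ w).1 h
    rw [mem_FZ] at hz
    exact ⟨pf z n, ⟨by simp, by rw [pf_take _ hn, hzw]⟩, hz n⟩
  · intro h
    have h0 : ∀ n : ℕ, ∃ v : List (Fin l), (v.length = w.length + n ∧ v.take w.length = w) ∧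
        F s f c {z | (y, z) ∈ Q} v := fun n => h (w.length + n) (by omega)
    choose v hv hF using h0
    have h1 : ∀ n : ℕ, ∃ z ∈ {z | (y, z) ∈ Q}, pf z (v n).length = v n := by
      intro n
      obtain ⟨z, hz, hzv, _⟩ := (F_iff _ _ _ _ _).1 (hF n)
      exact ⟨z, hz, hzv⟩
    choose Z hZ hZv using h1
    obtain ⟨z, _, hcl⟩ := cluster hK Z hZ
    have h2 : ∀ m : ℕ, ∃ n, (v n).take m = pf z m := by
      intro m
      obtain ⟨L, hL, hag⟩ := hcl m m
      refine ⟨L, ?_⟩
      rw [← hZv L, (hv L).1, pf_take _ (by omega)]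
      exact pf_congr hag
    rw [pre_iff]
    refine ⟨z, (mem_FZ z).2 fun m => ?_, ?_⟩
    · obtain ⟨n, hn⟩ := h2 m
      rw [← hn]
      exact F_take (hF n) m
    · obtain ⟨n, hn⟩ := h2 w.length
      rw [← hn]
      exact (hv n).2

section ar

variable {S : Set (Set ℕ)} {s : ℕ → ℕ} {f : Fin l → Fin k} {c : ℕ → Fin k}
  {K : Set (ℕ → Fin l)}

theorem ar_F (hS : Cl S) (hs : Primrec s) (hc : ArF S c) (hK : Ar S (pre K)) :
    Ar S (F s f c K) := by
  unfold F
  refine Ar.ex hS (R := fun (v : List (Fin l)) (x : ℕ) => ∃ u : List (Fin l),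
    (pre K u ∧ u.take v.length = v) ∧
      ∀ i < v.length, (u[s^[x + i] 0]?).map f = some (c (x + i))) ?_
  refine Ar.ex hS (R := fun (p : List (Fin l) × ℕ) (u : List (Fin l)) =>
    (pre K u ∧ u.take p.1.length = p.1) ∧
      ∀ i < p.1.length, (u[s^[p.2 + i] 0]?).map f = some (c (p.2 + i))) ?_
  refine Ar.and hS (Ar.and hS ?_ ?_) ?_
  · exact hK.comp hS Primrec.snd
  · exact Ar.eq hS (ArF.of_primrec hS (Primrec.list_take.comp (Primrec.list_length.comp
      (Primrec.fst.comp Primrec.fst)) Primrec.snd))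
      (ArF.of_primrec hS (Primrec.fst.comp Primrec.fst))
  · refine Ar.ball hS (R := fun (q : (List (Fin l) × ℕ) × List (Fin l)) (i : ℕ) =>
      (q.2[s^[q.1.2 + i] 0]?).map f = some (c (q.1.2 + i))) ?_
      (ArF.of_primrec hS (Primrec.list_length.comp (Primrec.fst.comp Primrec.fst)))
    have hx : Primrec fun q : ((List (Fin l) × ℕ) × List (Fin l)) × ℕ => q.1.1.2 + q.2 :=
      Primrec.nat_add.comp (Primrec.snd.comp (Primrec.fst.comp Primrec.fst)) Primrec.snd
    refine Ar.eq hS (ArF.of_primrec hS ?_) ?_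
    · refine Primrec.option_map ?_ ((Primrec.dom_finite f).comp Primrec.snd).to₂
      exact Primrec.list_getElem?.comp (Primrec.snd.comp Primrec.fst)
        (primrec_it hs hx (Primrec.const 0))
    · refine ArF.map hS Primrec.option_some ?_
      exact hc.comp hS (f := fun q : ((List (Fin l) × ℕ) × List (Fin l)) × ℕ =>
        q.1.1.2 + q.2) (ArF.of_primrec hS hx)

end ar

end XC10

theorem I_C10 : StC10 := by
  intro k l S hS s hs Q hQc hQ f c hc y hy
  refine Ar.congr (R := fun w : List (Fin l) => ∀ n : ℕ, w.length ≤ n → ∃ v : List (Fin l),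
      (v.length = n ∧ v.take w.length = w) ∧ XC10.F s f c {z | (y, z) ∈ Q} v) ?_
      fun w => XC10.pre_FZ hQc w
  refine Ar.all hS (R := fun (w : List (Fin l)) (n : ℕ) => w.length ≤ n → ∃ v : List (Fin l),
      (v.length = n ∧ v.take w.length = w) ∧ XC10.F s f c {z | (y, z) ∈ Q} v) ?_
  refine Ar.imp hS (Ar.le hS (ArF.of_primrec hS (Primrec.list_length.comp Primrec.fst))
    (ArF.snd hS)) ?_
  refine Ar.ex hS (R := fun (p : List (Fin l) × ℕ) (v : List (Fin l)) =>
      (v.length = p.2 ∧ v.take p.1.length = p.1) ∧ XC10.F s f c {z | (y, z) ∈ Q} v) ?_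
  refine Ar.and hS (Ar.and hS ?_ ?_) ?_
  · exact Ar.eq hS (ArF.of_primrec hS (Primrec.list_length.comp Primrec.snd))
      (ArF.of_primrec hS (Primrec.snd.comp Primrec.fst))
  · exact Ar.eq hS (ArF.of_primrec hS (Primrec.list_take.comp (Primrec.list_length.comp
      (Primrec.fst.comp Primrec.fst)) Primrec.snd))
      (ArF.of_primrec hS (Primrec.fst.comp Primrec.fst))
  · exact (XC10.ar_F hS hs hc (TW.I_C2 l S hS Q hQc hQ y hy)).comp hS Primrec.snd

end Pool.Agent.Work.MP_69fea5_lc.TX
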