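import Pool.Agent.Work.MP_69fea5_lc.TX.I_C3

/-!
# Item C4 of the block TX: the sets `AA` are closed and uniformly coded
-/

set_option autoImplicit false

namespace Pool.Agent.Work.MP_69fea5_lc.TX

open HK Filter Topology
open TW (Close pre pre2)

namespace XC4

open XC3

variable {k l : ℕ}

/-- `v` is the word of length `m` seen in `u` at time `x` -/
def IsWin (s : ℕ → ℕ) (x m : ℕ) (u v : List (Fin l)) : Prop :=
  v.length = m ∧ ∀ i < m, v[i]? = u[s^[x] i]?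

/-- word form of `Bad` -/
def BadW (s : ℕ → ℕ) (f : Fin l → Fin k) (c : ℕ → Fin k)
    (R : Set ((ℕ → Fin l) × (ℕ → Fin l))) (m N : ℕ) (u : List (Fin l)) : Prop :=
  ∀ x : ℕ, ∀ v : List (Fin l), (N ≤ x ∧ IsWin s x m u v) → ¬ CC s f c R v x

/-- word form of `Sep` -/
def SepW (s : ℕ → ℕ) (R : Set ((ℕ → Fin l) × (ℕ → Fin l))) (n : ℕ)
    (u : List (Fin l) × List (Fin l)) : Prop :=
  ∀ x : ℕ, ∀ v : List (Fin l) × List (Fin l), (IsWin s x n u.1 v.1 ∧ IsWin s x n u.2 v.2) →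
    ¬ pre2 R v

/-- the condition on families of words: `U 0` is a prefix of `y`, `U 1` of `z`, `U (a + 2)` of
`g a` -/
def Cond (s : ℕ → ℕ) (f : Fin l → Fin k) (c : ℕ → Fin k)
    (R R' : Set ((ℕ → Fin l) × (ℕ → Fin l))) (q : ℕ × ℕ × ℕ × ℕ)
    (U : ℕ → List (Fin l)) : Prop :=
  pre2 R' (U 1, U 0) ∧ ∀ a < q.1, pre2 R (U 1, U (a + 2)) ∧ BadW s f c R' q.2.1 q.2.2.1 (U (a + 2)) ∧
    SepW s R' q.2.2.2 (U 1, U (a + 2)) ∧
    ∀ b < q.1, b ≠ a → SepW s R' q.2.2.2 (U (b + 2), U (a + 2))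

theorem isWin_take {s : ℕ → ℕ} {x m n : ℕ} {u v : List (Fin l)} (h : IsWin s x m (u.take n) v) :
    IsWin s x m u v := by
  refine ⟨h.1, fun i hi => ?_⟩
  have h1 := h.2 i hi
  rw [List.getElem?_take] at h1
  split_ifs at h1 with h2
  · exact h1
  · rw [List.getElem?_eq_none_iff] at h1
    have := h.1
    omega

theorem isWin_pf {s : ℕ → ℕ} {x m L : ℕ} {a : ℕ → Fin l} {v : List (Fin l)}
    (h : IsWin s x m (pf a L) v) : v = pf (sh s x a) m := by
  refine list_eq_pf h.1 fun i hi => ?_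
  rw [h.2 i hi]
  have h1 : (pf a L)[s^[x] i]? ≠ none := by
    rw [← h.2 i hi]
    intro h2
    rw [List.getElem?_eq_none_iff] at h2
    have := h.1
    omega
  have h2 : s^[x] i < L := by
    by_contra h3
    exact h1 (List.getElem?_eq_none (by simpa using h3))
  rw [pf_getElem? _ _ _ h2]
  rfl

theorem exists_isWin (s : ℕ → ℕ) (x m : ℕ) (a : ℕ → Fin l) :
    ∃ L₀, ∀ L, L₀ ≤ L → IsWin s x m (pf a L) (pf (sh s x a) m) := by
  obtain ⟨B, hB⟩ := bnd (fun i => s^[x] i) m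
  refine ⟨B, fun L hL => ⟨by simp, fun i hi => ?_⟩⟩
  have := hB i hi
  rw [pf_getElem? _ _ _ hi, pf_getElem? _ _ _ (by omega)]
  rfl

theorem pre2_take {R : Set ((ℕ → Fin l) × (ℕ → Fin l))} {u v : List (Fin l)} (n : ℕ)
    (h : pre2 R (u, v)) : pre2 R (u.take n, v.take n) := by
  obtain ⟨p, hp, h1, h2⟩ := h
  refine ⟨p, hp, fun i hi => ?_, fun i hi => ?_⟩
  · have hi' : i < u.length := by
      rw [List.length_take] at hi
      omega
    simp only [List.getElem_take]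
    exact h1 i hi'
  · have hi' : i < v.length := by
      rw [List.length_take] at hi
      omega
    simp only [List.getElem_take]
    exact h2 i hi'

theorem mem_of_pre2 {R : Set ((ℕ → Fin l) × (ℕ → Fin l))} (hR : IsClosed R) {a b : ℕ → Fin l}
    (h : ∀ m, pre2 R (pf a m, pf b m)) : (a, b) ∈ R := by
  simp only [← close_iff] at h
  choose p hp h1 h2 using h
  refine hR.mem_of_tendsto (f := p) (b := atTop) ?_ (Eventually.of_forall hp)
  refine Tendsto.prodMk_nhds (f := atTop) (x := a) (y := b) ?_ ?_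
  · rw [tendsto_pi_nhds]
    intro i
    rw [nhds_discrete, tendsto_pure]
    filter_upwards [eventually_gt_atTop i] with m hm
    exact h1 m i hm
  · rw [tendsto_pi_nhds]
    intro i
    rw [nhds_discrete, tendsto_pure]
    filter_upwards [eventually_gt_atTop i] with m hm
    exact h2 m i hm

theorem badW_take {s : ℕ → ℕ} {f : Fin l → Fin k} {c : ℕ → Fin k}
    {R : Set ((ℕ → Fin l) × (ℕ → Fin l))} {m N : ℕ} {u : List (Fin l)} (n : ℕ)
    (h : BadW s f c R m N u) : BadW s f c R m N (u.take n) :=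
  fun x v hv => h x v ⟨hv.1, isWin_take hv.2⟩

theorem sepW_take {s : ℕ → ℕ} {R : Set ((ℕ → Fin l) × (ℕ → Fin l))} {m : ℕ}
    {u v : List (Fin l)} (n : ℕ) (h : SepW s R m (u, v)) : SepW s R m (u.take n, v.take n) :=
  fun x w hw => h x w ⟨isWin_take hw.1, isWin_take hw.2⟩

theorem cond_take {s : ℕ → ℕ} {f : Fin l → Fin k} {c : ℕ → Fin k}
    {R R' : Set ((ℕ → Fin l) × (ℕ → Fin l))} {q : ℕ × ℕ × ℕ × ℕ} {U : ℕ → List (Fin l)} (n : ℕ)
    (h : Cond s f c R R' q U) : Cond s f c R R' q fun i => (U i).take n :=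
  ⟨pre2_take n h.1, fun a ha => ⟨pre2_take n (h.2 a ha).1, badW_take n (h.2 a ha).2.1,
    sepW_take n (h.2 a ha).2.2.1, fun b hb hab => sepW_take n ((h.2 a ha).2.2.2 b hb hab)⟩⟩

theorem cond_congr {s : ℕ → ℕ} {f : Fin l → Fin k} {c : ℕ → Fin k}
    {R R' : Set ((ℕ → Fin l) × (ℕ → Fin l))} {q : ℕ × ℕ × ℕ × ℕ} {U U' : ℕ → List (Fin l)}
    (hU : ∀ i < q.1 + 2, U i = U' i) (h : Cond s f c R R' q U) : Cond s f c R R' q U' := by
  have h0 := hU 0 (by omega)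
  have h1 := hU 1 (by omega)
  refine ⟨by rw [← h0, ← h1]; exact h.1, fun a ha => ?_⟩
  have h2 := hU (a + 2) (by omega)
  rw [← h1, ← h2]
  refine ⟨(h.2 a ha).1, (h.2 a ha).2.1, (h.2 a ha).2.2.1, fun b hb hab => ?_⟩
  rw [← hU (b + 2) (by omega)]
  exact (h.2 a ha).2.2.2 b hb hab

/-- the sets `AA` in terms of prefixes -/
theorem mem_AA {s : ℕ → ℕ} {f : Fin l → Fin k} {c : ℕ → Fin k}
    {R R' : Set ((ℕ → Fin l) × (ℕ → Fin l))} (hR : IsClosed R) (hR' : IsClosed R')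
    (q : ℕ × ℕ × ℕ × ℕ) (y : ℕ → Fin l) :
    y ∈ AA s f c R R' q ↔ ∃ h : ℕ → ℕ → Fin l, h 0 = y ∧
      ∀ L, Cond s f c R R' q fun i => pf (h i) L := by
  constructor
  · rintro ⟨z, hz, g, hg⟩
    refine ⟨fun i => if i = 0 then y else if i = 1 then z else g (i - 2), by simp, fun L => ?_⟩
    have hgg : ∀ a, (if a + 2 = 0 then y else if a + 2 = 1 then z else g (a + 2 - 2)) = g a := by
      intro a
      simp
    unfold Cond
    simp only [hgg, if_true, one_ne_zero, if_false]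
    refine ⟨?_, fun a ha => ⟨?_, ?_, ?_, ?_⟩⟩
    · rw [← close_iff]
      exact ⟨_, hz, fun _ _ => rfl, fun _ _ => rfl⟩
    · rw [← close_iff]
      exact ⟨_, (hg a ha).1, fun _ _ => rfl, fun _ _ => rfl⟩
    · rintro x v ⟨hx, hv⟩
      rw [isWin_pf hv, ← closeC_iff]
      exact (hg a ha).2.1 x hx
    · rintro x ⟨v, v'⟩ ⟨hv, hv'⟩
      rw [show v = _ from isWin_pf hv, show v' = _ from isWin_pf hv', ← close_iff]
      exact (hg a ha).2.2.1 x
    · rintro b hb hab x ⟨v, v'⟩ ⟨hv, hv'⟩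
      rw [show v = _ from isWin_pf hv, show v' = _ from isWin_pf hv', ← close_iff]
      exact (hg a ha).2.2.2 b hb hab x
  · rintro ⟨h, rfl, hc⟩
    have hsep : ∀ a b, (∀ L, SepW s R' q.2.2.2 (pf a L, pf b L)) → Sep s R' q.2.2.2 a b := by
      intro a b hab x hx
      obtain ⟨L₁, hL₁⟩ := exists_isWin s x q.2.2.2 a
      obtain ⟨L₂, hL₂⟩ := exists_isWin s x q.2.2.2 b
      exact hab (L₁ + L₂) x (_, _) ⟨hL₁ _ (by omega), hL₂ _ (by omega)⟩
        ((close_iff _ _ _ _).1 hx)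
    refine ⟨h 1, mem_of_pre2 hR' fun m => (hc m).1, fun a => h (a + 2), fun a ha =>
      ⟨mem_of_pre2 hR fun m => ((hc m).2 a ha).1, fun x hx hC => ?_,
        hsep _ _ fun L => ((hc L).2 a ha).2.2.1, fun b hb hab =>
        hsep _ _ fun L => ((hc L).2 a ha).2.2.2 b hb hab⟩⟩
    obtain ⟨L₁, hL₁⟩ := exists_isWin s x q.2.1 (h (a + 2))
    exact ((hc L₁).2 a ha).2.1 x _ ⟨hx, hL₁ _ le_rfl⟩ ((closeC_iff _ _ _ _ _ _ _).1 hC)

/-- compactness for families of words -/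
theorem compact {s : ℕ → ℕ} {f : Fin l → Fin k} {c : ℕ → Fin k}
    {R R' : Set ((ℕ → Fin l) × (ℕ → Fin l))} {q : ℕ × ℕ × ℕ × ℕ}
    (U : ℕ → ℕ → List (Fin l)) (L₁ : ℕ) (hl : ∀ L, L₁ ≤ L → ∀ i < q.1 + 2, (U L i).length = L)
    (hc : ∀ L, L₁ ≤ L → Cond s f c R R' q (U L)) :
    ∃ h : ℕ → ℕ → Fin l, (∀ L, Cond s f c R R' q fun i => pf (h i) L) ∧
      ∀ n L₀, ∃ L, L₀ ≤ L ∧ ∀ i < q.1 + 2, (U L i).take n = pf (h i) n := by
  have hlet : Nonempty (Fin l) := by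
    have h1 := hl (L₁ + 1) (by omega) 0 (by omega)
    exact ⟨(U (L₁ + 1) 0)[0]'(by omega)⟩
  obtain ⟨d⟩ := hlet
  let H : ℕ → ℕ → ℕ → Fin l := fun L i t => ((U L i)[t]?).getD d
  have hH : ∀ L, L₁ ≤ L → ∀ i < q.1 + 2, U L i = pf (H L i) L := by
    intro L hL i hi
    refine list_eq_pf (hl L hL i hi) fun t ht => ?_
    have h1 := hl L hL i hi
    simp only [H]
    rw [List.getElem?_eq_getElem (by omega)]
    rfl
  obtain ⟨h, -, φ, hφ, ht⟩ := (isCompact_univ (X := ℕ → ℕ → Fin l)).tendsto_subseq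
    (x := fun L => H L) fun n => Set.mem_univ _
  have hcl : ∀ n L₀, ∃ L, L₀ ≤ L ∧ L₁ ≤ L ∧ ∀ i < q.1 + 2, (U L i).take n = pf (h i) n := by
    intro n L₀
    rw [tendsto_pi_nhds] at ht
    have h1 : ∀ i ∈ Finset.range (q.1 + 2), ∀ᶠ L in atTop, ∀ t ∈ Finset.range n,
        H (φ L) i t = h i t := by
      intro i _
      rw [Filter.eventually_all_finset]
      intro t _
      have h2 := ht i
      rw [tendsto_pi_nhds] at h2
      have h3 := h2 t
      rw [nhds_discrete, tendsto_pure] at h3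
      exact h3
    have h2 := (Filter.eventually_all_finset (Finset.range (q.1 + 2))).2 h1
    obtain ⟨L, hL, hL'⟩ := (h2.and (eventually_ge_atTop (L₀ + L₁ + n))).exists
    have h3 : L ≤ φ L := hφ.id_le L
    refine ⟨φ L, by omega, by omega, fun i hi => ?_⟩
    rw [hH (φ L) (by omega) i hi, pf_take _ (by omega)]
    exact pf_congr fun t ht => hL i (by simpa using hi) t (by simpa using ht)
  refine ⟨h, fun n => ?_, fun n L₀ => ?_⟩
  · obtain ⟨L, _, hL1, hL⟩ := hcl n 0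
    exact cond_congr hL (cond_take n (hc L hL1))
  · obtain ⟨L, hL0, _, hL⟩ := hcl n L₀
    exact ⟨L, hL0, hL⟩

/-- the arithmetical condition on prefixes of members of `AA` -/
def D (s : ℕ → ℕ) (f : Fin l → Fin k) (c : ℕ → Fin k)
    (R R' : Set ((ℕ → Fin l) × (ℕ → Fin l))) (q : ℕ × ℕ × ℕ × ℕ) (w : List (Fin l)) : Prop :=
  ∀ L : ℕ, w.length ≤ L → ∃ U : List (List (Fin l)), ((∀ i < q.1 + 2, (U.getD i []).length = L) ∧
    (U.getD 0 []).take w.length = w) ∧ Cond s f c R R' q fun i => U.getD i []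

theorem pre_AA {s : ℕ → ℕ} {f : Fin l → Fin k} {c : ℕ → Fin k}
    {R R' : Set ((ℕ → Fin l) × (ℕ → Fin l))} (hR : IsClosed R) (hR' : IsClosed R')
    (q : ℕ × ℕ × ℕ × ℕ) (w : List (Fin l)) : pre (AA s f c R R' q) w ↔ D s f c R R' q w := by
  constructor
  · intro h L hL
    obtain ⟨y, hy, hyw⟩ := (pre_iff _ w).1 h
    obtain ⟨g, hg, hc⟩ := (mem_AA hR hR' q y).1 hy
    have hU : ∀ i < q.1 + 2, ((List.range (q.1 + 2)).map fun i => pf (g i) L).getD i [] =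
        pf (g i) L := by
      intro i hi
      simp [List.getD, hi]
    refine ⟨(List.range (q.1 + 2)).map fun i => pf (g i) L, ⟨fun i hi => ?_, ?_⟩, ?_⟩
    · rw [hU i hi]
      simp
    · rw [hU 0 (by omega), hg, pf_take _ hL, hyw]
    · exact cond_congr (fun i hi => (hU i hi).symm) (hc L)
  · intro h
    have h0 : ∀ L : ℕ, ∃ U : List (List (Fin l)), w.length ≤ L →
        ((∀ i < q.1 + 2, (U.getD i []).length = L) ∧ (U.getD 0 []).take w.length = w) ∧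
          Cond s f c R R' q fun i => U.getD i [] := by
      intro L
      by_cases hL : w.length ≤ L
      · obtain ⟨U, hU⟩ := h L hL
        exact ⟨U, fun _ => hU⟩
      · exact ⟨[], fun h => absurd h hL⟩
    choose U hU using h0
    obtain ⟨g, hg, hcl⟩ := compact (fun L i => (U L).getD i []) w.length
      (fun L hL => (hU L hL).1.1) (fun L hL => (hU L hL).2)
    rw [pre_iff]
    refine ⟨g 0, (mem_AA hR hR' q _).2 ⟨g, rfl, hg⟩, ?_⟩
    obtain ⟨L, hL0, hL⟩ := hcl w.length w.length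
    rw [← hL 0 (by omega)]
    exact (hU L hL0).1.2

theorem mem_AA' {s : ℕ → ℕ} {f : Fin l → Fin k} {c : ℕ → Fin k}
    {R R' : Set ((ℕ → Fin l) × (ℕ → Fin l))} (hR : IsClosed R) (hR' : IsClosed R')
    (q : ℕ × ℕ × ℕ × ℕ) (y : ℕ → Fin l) :
    y ∈ AA s f c R R' q ↔ ∀ m, D s f c R R' q (pf y m) := by
  constructor
  · intro hy m
    rw [← pre_AA hR hR']
    exact pre_pf hy m
  · intro h
    have h0 : ∀ L : ℕ, ∃ U : List (List (Fin l)),
        ((∀ i < q.1 + 2, (U.getD i []).length = L) ∧ (U.getD 0 []).take L = pf y L) ∧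
          Cond s f c R R' q fun i => U.getD i [] := by
      intro L
      obtain ⟨U, ⟨hU1, hU2⟩, hU3⟩ := h L L (by simp)
      rw [pf_length] at hU2
      exact ⟨U, ⟨hU1, hU2⟩, hU3⟩
    choose U hU using h0
    obtain ⟨g, hg, hcl⟩ := compact (fun L i => (U L).getD i []) 0
      (fun L _ => (hU L).1.1) (fun L _ => (hU L).2)
    refine (mem_AA hR hR' q _).2 ⟨g, ?_, hg⟩
    funext i
    obtain ⟨L, hL0, hL⟩ := hcl (i + 1) (i + 1)
    have h1 := hL 0 (by omega)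
    have h2 := (hU L).1.2
    have h3 : ((U L).getD 0 []).take (i + 1) = pf y (i + 1) := by
      have h4 : (((U L).getD 0 []).take L).take (i + 1) = (pf y L).take (i + 1) := by rw [h2]
      rw [List.take_take, min_eq_left hL0, pf_take _ hL0] at h4
      exact h4
    have h5 := h1.symm.trans h3
    have h6 : (pf (g 0) (i + 1))[i]? = (pf y (i + 1))[i]? := by rw [h5]
    rw [pf_getElem? _ _ _ (by omega), pf_getElem? _ _ _ (by omega)] at h6
    exact Option.some.inj h6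

section ar

variable {S : Set (Set ℕ)} {s : ℕ → ℕ} {f : Fin l → Fin k}
  {R : ℕ → Set ((ℕ → Fin l) × (ℕ → Fin l))} {c : ℕ → Fin k}

abbrev W (l : ℕ) : Type := List (Fin l)

theorem ar_CC' (hS : Cl S) (hs : Primrec s)
    (hR : Ar S fun p : ℕ × List (Fin l) × List (Fin l) => pre2 (R p.1) p.2) (hc : ArF S c) :
    Ar S fun p : ℕ × W l × ℕ => CC s f c (R p.1) p.2.1 p.2.2 := by
  unfold CC
  refine Ar.ex hS (R := fun (p : ℕ × W l × ℕ) (u : W l) => pre2 (R p.1) (p.2.1, u) ∧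
    ∀ i < p.2.1.length, (u[s^[i] 0]?).map f = some (c (p.2.2 + i))) ?_
  have hv : Primrec fun q : (ℕ × W l × ℕ) × W l => q.1.2.1 :=
    Primrec.fst.comp (Primrec.snd.comp Primrec.fst)
  refine Ar.and hS (hR.comp hS (f := fun q : (ℕ × W l × ℕ) × W l => (q.1.1, q.1.2.1, q.2))
    ((Primrec.fst.comp Primrec.fst).pair (hv.pair Primrec.snd))) ?_
  refine Ar.ball hS (R := fun (q : (ℕ × W l × ℕ) × W l) (i : ℕ) =>
    (q.2[s^[i] 0]?).map f = some (c (q.1.2.2 + i))) ?_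
    (ArF.of_primrec hS (Primrec.list_length.comp hv))
  refine Ar.eq hS (ArF.of_primrec hS ?_) ?_
  · refine Primrec.option_map ?_ ((Primrec.dom_finite f).comp Primrec.snd).to₂
    exact Primrec.list_getElem?.comp (Primrec.snd.comp Primrec.fst)
      (primrec_it hs Primrec.snd (Primrec.const 0))
  · refine ArF.map hS Primrec.option_some ?_
    refine hc.comp hS (f := fun q : ((ℕ × W l × ℕ) × W l) × ℕ =>
      q.1.1.2.2 + q.2) (ArF.of_primrec hS ?_)
    exact Primrec.nat_add.comp (Primrec.snd.comp (Primrec.snd.comp (Primrec.fst.comp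
      Primrec.fst))) Primrec.snd

theorem ar_IsWin (hS : Cl S) (hs : Primrec s) :
    Ar S fun p : (ℕ × ℕ) × W l × W l => IsWin s p.1.1 p.1.2 p.2.1 p.2.2 := by
  unfold IsWin
  have hv : Primrec fun p : (ℕ × ℕ) × W l × W l => p.2.2 := Primrec.snd.comp Primrec.snd
  have hu : Primrec fun p : (ℕ × ℕ) × W l × W l => p.2.1 := Primrec.fst.comp Primrec.snd
  have hm : Primrec fun p : (ℕ × ℕ) × W l × W l => p.1.2 := Primrec.snd.comp Primrec.fst
  have hx : Primrec fun p : (ℕ × ℕ) × W l × W l => p.1.1 := Primrec.fst.comp Primrec.fst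
  refine Ar.and hS ?_ ?_
  · exact Ar.eq hS (ArF.of_primrec hS (Primrec.list_length.comp hv)) (ArF.of_primrec hS hm)
  · refine Ar.ball hS (R := fun (p : (ℕ × ℕ) × W l × W l) (i : ℕ) =>
      p.2.2[i]? = p.2.1[s^[p.1.1] i]?) ?_ (ArF.of_primrec hS hm)
    refine Ar.eq hS (ArF.of_primrec hS ?_) (ArF.of_primrec hS ?_)
    · exact Primrec.list_getElem?.comp (hv.comp Primrec.fst) Primrec.snd
    · exact Primrec.list_getElem?.comp (hu.comp Primrec.fst)
        (primrec_it hs (hx.comp Primrec.fst) Primrec.snd)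

theorem ar_BadW (hS : Cl S) (hs : Primrec s)
    (hR : Ar S fun p : ℕ × List (Fin l) × List (Fin l) => pre2 (R p.1) p.2) (hc : ArF S c) :
    Ar S fun p : (ℕ × ℕ × ℕ) × W l => BadW s f c (R p.1.1) p.1.2.1 p.1.2.2 p.2 := by
  unfold BadW
  refine Ar.all hS (R := fun (p : (ℕ × ℕ × ℕ) × W l) (x : ℕ) => ∀ v : W l,
    (p.1.2.2 ≤ x ∧ IsWin s x p.1.2.1 p.2 v) → ¬ CC s f c (R p.1.1) v x) ?_
  refine Ar.all hS (R := fun (p : ((ℕ × ℕ × ℕ) × W l) × ℕ) (v : W l) =>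
    (p.1.1.2.2 ≤ p.2 ∧ IsWin s p.2 p.1.1.2.1 p.1.2 v) → ¬ CC s f c (R p.1.1.1) v p.2) ?_
  have hp : Primrec fun p : (((ℕ × ℕ × ℕ) × W l) × ℕ) × W l => p.1.1.1 :=
    Primrec.fst.comp (Primrec.fst.comp Primrec.fst)
  have hn : Primrec fun p : (((ℕ × ℕ × ℕ) × W l) × ℕ) × W l => p.1.1.1.1 :=
    Primrec.fst.comp hp
  have hm : Primrec fun p : (((ℕ × ℕ × ℕ) × W l) × ℕ) × W l => p.1.1.1.2.1 :=
    Primrec.fst.comp (Primrec.snd.comp hp)
  have hN : Primrec fun p : (((ℕ × ℕ × ℕ) × W l) × ℕ) × W l => p.1.1.1.2.2 :=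
    Primrec.snd.comp (Primrec.snd.comp hp)
  have hu : Primrec fun p : (((ℕ × ℕ × ℕ) × W l) × ℕ) × W l => p.1.1.2 :=
    Primrec.snd.comp (Primrec.fst.comp Primrec.fst)
  have hx : Primrec fun p : (((ℕ × ℕ × ℕ) × W l) × ℕ) × W l => p.1.2 :=
    Primrec.snd.comp Primrec.fst
  have hv : Primrec fun p : (((ℕ × ℕ × ℕ) × W l) × ℕ) × W l => p.2 := Primrec.snd
  refine Ar.imp hS (Ar.and hS ?_ ?_) (Ar.not hS ?_)
  · exact Ar.le hS (ArF.of_primrec hS hN) (ArF.of_primrec hS hx)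
  · exact (ar_IsWin hS hs).comp hS (f := fun p : (((ℕ × ℕ × ℕ) × W l) × ℕ) × W l =>
      ((p.1.2, p.1.1.1.2.1), (p.1.1.2, p.2))) ((hx.pair hm).pair (hu.pair hv))
  · exact (ar_CC' hS hs hR hc).comp hS (f := fun p : (((ℕ × ℕ × ℕ) × W l) × ℕ) × W l =>
      (p.1.1.1.1, (p.2, p.1.2))) (hn.pair (hv.pair hx))

theorem ar_SepW (hS : Cl S) (hs : Primrec s)
    (hR : Ar S fun p : ℕ × List (Fin l) × List (Fin l) => pre2 (R p.1) p.2) :
    Ar S fun p : (ℕ × ℕ) × W l × W l => SepW s (R p.1.1) p.1.2 p.2 := by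
  unfold SepW
  refine Ar.all hS (R := fun (p : (ℕ × ℕ) × W l × W l) (x : ℕ) => ∀ v : W l × W l,
    (IsWin s x p.1.2 p.2.1 v.1 ∧ IsWin s x p.1.2 p.2.2 v.2) → ¬ pre2 (R p.1.1) v) ?_
  refine Ar.all hS (R := fun (p : ((ℕ × ℕ) × W l × W l) × ℕ) (v : W l × W l) =>
    (IsWin s p.2 p.1.1.2 p.1.2.1 v.1 ∧ IsWin s p.2 p.1.1.2 p.1.2.2 v.2) →
      ¬ pre2 (R p.1.1.1) v) ?_
  have hp : Primrec fun p : (((ℕ × ℕ) × W l × W l) × ℕ) × (W l × W l) => p.1.1.1 :=
    Primrec.fst.comp (Primrec.fst.comp Primrec.fst)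
  have hn : Primrec fun p : (((ℕ × ℕ) × W l × W l) × ℕ) × (W l × W l) => p.1.1.1.1 :=
    Primrec.fst.comp hp
  have hm : Primrec fun p : (((ℕ × ℕ) × W l × W l) × ℕ) × (W l × W l) => p.1.1.1.2 :=
    Primrec.snd.comp hp
  have hu : Primrec fun p : (((ℕ × ℕ) × W l × W l) × ℕ) × (W l × W l) => p.1.1.2 :=
    Primrec.snd.comp (Primrec.fst.comp Primrec.fst)
  have hx : Primrec fun p : (((ℕ × ℕ) × W l × W l) × ℕ) × (W l × W l) => p.1.2 :=
    Primrec.snd.comp Primrec.fst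
  have hv : Primrec fun p : (((ℕ × ℕ) × W l × W l) × ℕ) × (W l × W l) => p.2 := Primrec.snd
  refine Ar.imp hS (Ar.and hS ?_ ?_) (Ar.not hS ?_)
  · exact (ar_IsWin hS hs).comp hS (f := fun p : (((ℕ × ℕ) × W l × W l) × ℕ) × (W l × W l) =>
      ((p.1.2, p.1.1.1.2), (p.1.1.2.1, p.2.1)))
      ((hx.pair hm).pair ((Primrec.fst.comp hu).pair (Primrec.fst.comp hv)))
  · exact (ar_IsWin hS hs).comp hS (f := fun p : (((ℕ × ℕ) × W l × W l) × ℕ) × (W l × W l) =>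
      ((p.1.2, p.1.1.1.2), (p.1.1.2.2, p.2.2)))
      ((hx.pair hm).pair ((Primrec.snd.comp hu).pair (Primrec.snd.comp hv)))
  · exact hR.comp hS (f := fun p : (((ℕ × ℕ) × W l × W l) × ℕ) × (W l × W l) =>
      (p.1.1.1.1, p.2)) (hn.pair hv)

/-- parameters: the level, `(j, m, N, n)` and the list of words -/
abbrev P (l : ℕ) : Type := (ℕ × ℕ × ℕ × ℕ × ℕ) × List (List (Fin l))

theorem ar_Cond (hS : Cl S) (hs : Primrec s)
    (hR : Ar S fun p : ℕ × List (Fin l) × List (Fin l) => pre2 (R p.1) p.2) (hc : ArF S c) :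
    Ar S fun p : P l => Cond s f c (R p.1.1) (R (p.1.1 + 1)) p.1.2 fun i => p.2.getD i [] := by
  unfold Cond
  have hgd : ∀ {α : Type} [Primcodable α] {U : α → List (List (Fin l))} {i : α → ℕ}, Primrec U →
      Primrec i → Primrec fun a => (U a).getD (i a) [] := by
    intro α _ U i hU hi
    exact (Primrec.list_getD []).comp hU hi
  have hn : Primrec fun p : P l => p.1.1 := Primrec.fst.comp Primrec.fst
  have hn1 : Primrec fun p : P l => p.1.1 + 1 := Primrec.succ.comp hn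
  have hj : Primrec fun p : P l => p.1.2.1 := Primrec.fst.comp (Primrec.snd.comp Primrec.fst)
  have hm : Primrec fun p : P l => p.1.2.2.1 :=
    Primrec.fst.comp (Primrec.snd.comp (Primrec.snd.comp Primrec.fst))
  have hN : Primrec fun p : P l => p.1.2.2.2.1 :=
    Primrec.fst.comp (Primrec.snd.comp (Primrec.snd.comp (Primrec.snd.comp Primrec.fst)))
  have hr : Primrec fun p : P l => p.1.2.2.2.2 :=
    Primrec.snd.comp (Primrec.snd.comp (Primrec.snd.comp (Primrec.snd.comp Primrec.fst)))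
  have hU : Primrec fun p : P l => p.2 := Primrec.snd
  have hU0 : Primrec fun p : P l => p.2.getD 0 [] := hgd hU (Primrec.const 0)
  have hU1 : Primrec fun p : P l => p.2.getD 1 [] := hgd hU (Primrec.const 1)
  have hUa : Primrec fun p : P l × ℕ => p.1.2.getD (p.2 + 2) [] :=
    hgd (hU.comp Primrec.fst) (Primrec.nat_add.comp Primrec.snd (Primrec.const 2))
  refine Ar.and hS ?_ ?_
  · exact hR.comp hS (f := fun p : P l => (p.1.1 + 1, (p.2.getD 1 [], p.2.getD 0 [])))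
      (hn1.pair (hU1.pair hU0))
  refine Ar.ball hS (R := fun (p : P l) (a : ℕ) =>
    pre2 (R p.1.1) (p.2.getD 1 [], p.2.getD (a + 2) []) ∧
    BadW s f c (R (p.1.1 + 1)) p.1.2.2.1 p.1.2.2.2.1 (p.2.getD (a + 2) []) ∧
    SepW s (R (p.1.1 + 1)) p.1.2.2.2.2 (p.2.getD 1 [], p.2.getD (a + 2) []) ∧
    ∀ b < p.1.2.1, b ≠ a → SepW s (R (p.1.1 + 1)) p.1.2.2.2.2
      (p.2.getD (b + 2) [], p.2.getD (a + 2) [])) ?_ (ArF.of_primrec hS hj)
  refine Ar.and hS ?_ (Ar.and hS ?_ (Ar.and hS ?_ ?_))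
  · exact hR.comp hS (f := fun p : P l × ℕ => (p.1.1.1, (p.1.2.getD 1 [], p.1.2.getD (p.2 + 2) [])))
      ((hn.comp Primrec.fst).pair ((hU1.comp Primrec.fst).pair hUa))
  · exact (ar_BadW hS hs hR hc).comp hS (f := fun p : P l × ℕ =>
      ((p.1.1.1 + 1, (p.1.1.2.2.1, p.1.1.2.2.2.1)), p.1.2.getD (p.2 + 2) []))
      (((hn1.comp Primrec.fst).pair ((hm.comp Primrec.fst).pair (hN.comp Primrec.fst))).pair hUa)
  · exact (ar_SepW hS hs hR).comp hS (f := fun p : P l × ℕ =>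
      ((p.1.1.1 + 1, p.1.1.2.2.2.2), (p.1.2.getD 1 [], p.1.2.getD (p.2 + 2) [])))
      (((hn1.comp Primrec.fst).pair (hr.comp Primrec.fst)).pair
        ((hU1.comp Primrec.fst).pair hUa))
  refine Ar.ball hS (R := fun (p : P l × ℕ) (b : ℕ) => b ≠ p.2 →
    SepW s (R (p.1.1.1 + 1)) p.1.1.2.2.2.2 (p.1.2.getD (b + 2) [], p.1.2.getD (p.2 + 2) [])) ?_
    (ArF.of_primrec hS (hj.comp Primrec.fst))
  refine Ar.imp hS (Ar.not hS (Ar.eq hS (ArF.snd hS)
    (ArF.of_primrec hS (Primrec.snd.comp Primrec.fst)))) ?_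
  refine (ar_SepW hS hs hR).comp hS (f := fun p : (P l × ℕ) × ℕ =>
      ((p.1.1.1.1 + 1, p.1.1.1.2.2.2.2), (p.1.1.2.getD (p.2 + 2) [],
        p.1.1.2.getD (p.1.2 + 2) []))) ?_
  have hUb : Primrec fun p : (P l × ℕ) × ℕ => p.1.1.2.getD (p.2 + 2) [] :=
    hgd (hU.comp (Primrec.fst.comp Primrec.fst)) (Primrec.nat_add.comp Primrec.snd
      (Primrec.const 2))
  exact ((hn1.comp (Primrec.fst.comp Primrec.fst)).pair
    (hr.comp (Primrec.fst.comp Primrec.fst))).pair (hUb.pair (hUa.comp Primrec.fst))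

theorem ar_D (hS : Cl S) (hs : Primrec s)
    (hR : Ar S fun p : ℕ × List (Fin l) × List (Fin l) => pre2 (R p.1) p.2) (hc : ArF S c) :
    Ar S fun p : (ℕ × ℕ × ℕ × ℕ × ℕ) × W l =>
      D s f c (R p.1.1) (R (p.1.1 + 1)) p.1.2 p.2 := by
  unfold D
  refine Ar.all hS (R := fun (p : (ℕ × ℕ × ℕ × ℕ × ℕ) × W l) (L : ℕ) => p.2.length ≤ L →
    ∃ U : List (List (Fin l)), ((∀ i < p.1.2.1 + 2, (U.getD i []).length = L) ∧
    (U.getD 0 []).take p.2.length = p.2) ∧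
      Cond s f c (R p.1.1) (R (p.1.1 + 1)) p.1.2 fun i => U.getD i []) ?_
  refine Ar.imp hS ?_ ?_
  · exact Ar.le hS (ArF.of_primrec hS (Primrec.list_length.comp (Primrec.snd.comp Primrec.fst)))
      (ArF.snd hS)
  refine Ar.ex hS (R := fun (p : ((ℕ × ℕ × ℕ × ℕ × ℕ) × W l) × ℕ) (U : List (List (Fin l))) =>
    ((∀ i < p.1.1.2.1 + 2, (U.getD i []).length = p.2) ∧
    (U.getD 0 []).take p.1.2.length = p.1.2) ∧
      Cond s f c (R p.1.1.1) (R (p.1.1.1 + 1)) p.1.1.2 fun i => U.getD i []) ?_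
  have hgd : ∀ {α : Type} [Primcodable α] {U : α → List (List (Fin l))} {i : α → ℕ}, Primrec U →
      Primrec i → Primrec fun a => (U a).getD (i a) [] := by
    intro α _ U i hU hi
    exact (Primrec.list_getD []).comp hU hi
  have h1 : Primrec fun p : (((ℕ × ℕ × ℕ × ℕ × ℕ) × W l) × ℕ) × List (List (Fin l)) =>
      p.1.1.1 := Primrec.fst.comp (Primrec.fst.comp Primrec.fst)
  have hj : Primrec fun p : (((ℕ × ℕ × ℕ × ℕ × ℕ) × W l) × ℕ) × List (List (Fin l)) =>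
      p.1.1.1.2.1 := Primrec.fst.comp (Primrec.snd.comp h1)
  have hw : Primrec fun p : (((ℕ × ℕ × ℕ × ℕ × ℕ) × W l) × ℕ) × List (List (Fin l)) =>
      p.1.1.2 := Primrec.snd.comp (Primrec.fst.comp Primrec.fst)
  have hL : Primrec fun p : (((ℕ × ℕ × ℕ × ℕ × ℕ) × W l) × ℕ) × List (List (Fin l)) =>
      p.1.2 := Primrec.snd.comp Primrec.fst
  refine Ar.and hS (Ar.and hS ?_ ?_) ?_
  · refine Ar.ball hS (R := fun (p : (((ℕ × ℕ × ℕ × ℕ × ℕ) × W l) × ℕ) × List (List (Fin l)))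
      (i : ℕ) => (p.2.getD i []).length = p.1.2) ?_
      (ArF.of_primrec hS (Primrec.nat_add.comp hj (Primrec.const 2)))
    refine Ar.eq hS (ArF.of_primrec hS ?_) (ArF.of_primrec hS (hL.comp Primrec.fst))
    exact Primrec.list_length.comp (hgd (Primrec.snd.comp Primrec.fst) Primrec.snd)
  · refine Ar.eq hS (ArF.of_primrec hS ?_) (ArF.of_primrec hS hw)
    exact Primrec.list_take.comp (Primrec.list_length.comp hw)
      (hgd Primrec.snd (Primrec.const 0))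
  · exact (ar_Cond hS hs hR hc).comp hS
      (f := fun p : (((ℕ × ℕ × ℕ × ℕ × ℕ) × W l) × ℕ) × List (List (Fin l)) =>
        (p.1.1.1, p.2)) (h1.pair Primrec.snd)

end ar

end XC4

theorem I_C4 : StC4 := by
  intro k l S hS s hs X R hX hICER hR f c hc
  refine ⟨fun n q => ?_, ?_⟩
  · have h : AA s f c (R n) (R (n + 1)) q =
        {y | ∀ m, XC4.D s f c (R n) (R (n + 1)) q (XC3.pf y m)} := by
      ext y
      exact XC4.mem_AA' (hICER n).closed (hICER (n + 1)).closed q y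
    rw [h]
    exact XC3.isClosed_pf _
  · exact Ar.congr (XC4.ar_D hS hs hR hc)
      fun p => XC4.pre_AA (hICER p.1.1).closed (hICER (p.1.1 + 1)).closed p.1.2 p.2

end Pool.Agent.Work.MP_69fea5_lc.TX
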