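import Pool.Agent.Work.MP_69fea5_lc.TX.Stmts
import Pool.Agent.Work.MP_69fea5_lc.TW.MX_C7

/-!
# Item C7 of the block TX: a generic point
-/

set_option autoImplicit false

namespace Pool.Agent.Work.MP_69fea5_lc.TX

open HK
open TW (Close pre pre2)

namespace XC7

open TW.XC2

variable {k l : ℕ}

theorem bound (g : ℕ → ℕ) (n : ℕ) : ∃ L, ∀ j < n, g j < L :=
  ⟨(Finset.range n).sup g + 1, fun j hj =>
    Nat.lt_succ_of_le (Finset.le_sup (f := g) (Finset.mem_range.2 hj))⟩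

/-- the requirement `n` on words -/
def Q (s : ℕ → ℕ) (f : Fin l → Fin k) (c : ℕ → Fin k)
    (R : Set ((ℕ → Fin l) × (ℕ → Fin l))) (n : ℕ) (w : List (Fin l)) : Prop :=
  ∃ x : ℕ, ∃ v : List (Fin l), ∃ u : List (Fin l), ((n ≤ x ∧ v.length = n) ∧ pre2 R (v, u)) ∧
    (∀ j < n, v[j]? = w[s^[x] j]?) ∧ ∀ j < n, ∃ b : Fin l, u[s^[j] 0]? = some b ∧ f b = c (x + j)

theorem primrec_iter {α : Type*} [Primcodable α] {s : ℕ → ℕ} (hs : Primrec s) {g h : α → ℕ}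
    (hg : Primrec g) (hh : Primrec h) : Primrec fun a => s^[g a] (h a) :=
  Primrec.nat_iterate hg hh (hs.comp Primrec.snd).to₂

theorem ar_Q {S : Set (Set ℕ)} (hS : Cl S) {s : ℕ → ℕ} (hs : Primrec s)
    {R : Set ((ℕ → Fin l) × (ℕ → Fin l))} (hR : Ar S (pre2 R)) (f : Fin l → Fin k)
    {c : ℕ → Fin k} (hc : ArF S c) : Ar S fun p : ℕ × List (Fin l) => Q s f c R p.1 p.2 := by
  unfold Q
  refine Ar.ex hS (R := fun (p : ℕ × List (Fin l)) (x : ℕ) => ∃ v : List (Fin l),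
    ∃ u : List (Fin l), ((p.1 ≤ x ∧ v.length = p.1) ∧ pre2 R (v, u)) ∧
    (∀ j < p.1, v[j]? = p.2[s^[x] j]?) ∧
    ∀ j < p.1, ∃ b : Fin l, u[s^[j] 0]? = some b ∧ f b = c (x + j)) ?_
  refine Ar.ex hS (R := fun (p : (ℕ × List (Fin l)) × ℕ) (v : List (Fin l)) =>
    ∃ u : List (Fin l), ((p.1.1 ≤ p.2 ∧ v.length = p.1.1) ∧ pre2 R (v, u)) ∧
    (∀ j < p.1.1, v[j]? = p.1.2[s^[p.2] j]?) ∧
    ∀ j < p.1.1, ∃ b : Fin l, u[s^[j] 0]? = some b ∧ f b = c (p.2 + j)) ?_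
  refine Ar.ex hS (R := fun (p : ((ℕ × List (Fin l)) × ℕ) × List (Fin l)) (u : List (Fin l)) =>
    ((p.1.1.1 ≤ p.1.2 ∧ p.2.length = p.1.1.1) ∧ pre2 R (p.2, u)) ∧
    (∀ j < p.1.1.1, p.2[j]? = p.1.1.2[s^[p.1.2] j]?) ∧
    ∀ j < p.1.1.1, ∃ b : Fin l, u[s^[j] 0]? = some b ∧ f b = c (p.1.2 + j)) ?_
  have en : Primrec fun q : (((ℕ × List (Fin l)) × ℕ) × List (Fin l)) × List (Fin l) =>
      q.1.1.1.1 := Primrec.fst.comp (Primrec.fst.comp (Primrec.fst.comp Primrec.fst))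
  have ew : Primrec fun q : (((ℕ × List (Fin l)) × ℕ) × List (Fin l)) × List (Fin l) =>
      q.1.1.1.2 := Primrec.snd.comp (Primrec.fst.comp (Primrec.fst.comp Primrec.fst))
  have ex : Primrec fun q : (((ℕ × List (Fin l)) × ℕ) × List (Fin l)) × List (Fin l) =>
      q.1.1.2 := Primrec.snd.comp (Primrec.fst.comp Primrec.fst)
  have ev : Primrec fun q : (((ℕ × List (Fin l)) × ℕ) × List (Fin l)) × List (Fin l) =>
      q.1.2 := Primrec.snd.comp Primrec.fst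
  have eu : Primrec fun q : (((ℕ × List (Fin l)) × ℕ) × List (Fin l)) × List (Fin l) =>
      q.2 := Primrec.snd
  refine Ar.and hS (Ar.and hS (Ar.and hS ?_ ?_) ?_) (Ar.and hS ?_ ?_)
  · exact Ar.le hS (ArF.of_primrec hS en) (ArF.of_primrec hS ex)
  · exact Ar.eq hS (ArF.of_primrec hS (Primrec.list_length.comp ev)) (ArF.of_primrec hS en)
  · exact hR.comp hS (ev.pair eu)
  · refine Ar.ball hS (R := fun (q : (((ℕ × List (Fin l)) × ℕ) × List (Fin l)) × List (Fin l))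
      (j : ℕ) => q.1.2[j]? = q.1.1.1.2[s^[q.1.1.2] j]?) ?_ (ArF.of_primrec hS en)
    refine Ar.eq hS (ArF.of_primrec hS ?_) (ArF.of_primrec hS ?_)
    · exact Primrec.list_getElem?.comp (ev.comp Primrec.fst) Primrec.snd
    · exact Primrec.list_getElem?.comp (ew.comp Primrec.fst)
        (primrec_iter hs (ex.comp Primrec.fst) Primrec.snd)
  · refine Ar.ball hS (R := fun (q : (((ℕ × List (Fin l)) × ℕ) × List (Fin l)) × List (Fin l))
      (j : ℕ) => ∃ b : Fin l, q.2[s^[j] 0]? = some b ∧ f b = c (q.1.1.2 + j)) ?_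
      (ArF.of_primrec hS en)
    refine Ar.ex hS (R := fun (q : ((((ℕ × List (Fin l)) × ℕ) × List (Fin l)) ×
      List (Fin l)) × ℕ) (b : Fin l) => q.1.2[s^[q.2] 0]? = some b ∧
        f b = c (q.1.1.1.2 + q.2)) ?_
    refine Ar.and hS (Ar.eq hS (ArF.of_primrec hS ?_) (ArF.of_primrec hS ?_))
      (Ar.eq hS (ArF.of_primrec hS ?_) ?_)
    · exact Primrec.list_getElem?.comp (eu.comp (Primrec.fst.comp Primrec.fst))
        (primrec_iter hs (Primrec.snd.comp Primrec.fst) (Primrec.const 0))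
    · exact Primrec.option_some.comp Primrec.snd
    · exact (Primrec.dom_finite f).comp Primrec.snd
    · refine hc.comp hS (f := fun q : (((((ℕ × List (Fin l)) × ℕ) × List (Fin l)) ×
        List (Fin l)) × ℕ) × Fin l => q.1.1.1.1.2 + q.1.2) (ArF.of_primrec hS ?_)
      exact Primrec.nat_add.comp (ex.comp (Primrec.fst.comp Primrec.fst))
        (Primrec.snd.comp Primrec.fst)

theorem meets {s : ℕ → ℕ} {R : Set ((ℕ → Fin l) × (ℕ → Fin l))} {f : Fin l → Fin k}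
    {c : ℕ → Fin k} {K : Set (ℕ → Fin l)}
    (h : ∀ a ∈ K, ∀ m N, ∃ a' ∈ K, (∀ i < m, a' i = a i) ∧ ∃ x, N ≤ x ∧
      CloseC s f c R m (sh s x a') x) (n : ℕ) (w : List (Fin l)) (hw : pre K w) :
    ∃ w' : List (Fin l), w'.take w.length = w ∧ w.length ≤ w'.length ∧ pre K w' ∧
      Q s f c R n w' := by
  obtain ⟨z, hz, hzw⟩ := (pre_iff _ _).1 hw
  obtain ⟨a, ha, haz, x, hx, p, hp, hp1, hp2⟩ := h z hz (max w.length n) n
  obtain ⟨L, hL⟩ := bound (fun j => s^[x] j) n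
  obtain ⟨L', hL'⟩ := bound (fun j => s^[j] 0) n
  refine ⟨pf a (max w.length L), ?_, by simp, (pre_iff _ _).2 ⟨a, ha, by simp⟩,
    x, pf p.1 n, pf p.2 L', ⟨⟨hx, by simp⟩, ?_⟩, ?_, ?_⟩
  · rw [pf_take a (le_max_left _ _), ← hzw]
    simp only [pf_length]
    exact pf_congr fun i hi => haz i (lt_of_lt_of_le hi (le_max_left _ _))
  · exact (pre2_iff _ _ _).2 ⟨p, hp, by simp, by simp⟩
  · intro j hj
    rw [pf_getElem? _ _ _ hj, pf_getElem? _ _ _ (lt_of_lt_of_le (hL j hj) (le_max_right _ _)),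
      hp1 j (lt_of_lt_of_le hj (le_max_right _ _))]
    rfl
  · intro j hj
    exact ⟨_, pf_getElem? _ _ _ (hL' j hj), hp2 j (lt_of_lt_of_le hj (le_max_right _ _))⟩

theorem right_of {s : ℕ → ℕ} {R : Set ((ℕ → Fin l) × (ℕ → Fin l))} {f : Fin l → Fin k}
    {c : ℕ → Fin k} {z : ℕ → Fin l} (h : ∀ n, ∃ m, Q s f c R n (pf z m)) :
    Right s f c R z := by
  intro m N
  obtain ⟨M, x, v, u, ⟨⟨hx, hv⟩, p, hp, hp1, hp2⟩, h1, h2⟩ := h (max m N)
  simp only at hp1 hp2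
  refine ⟨x, le_trans (le_max_right _ _) hx, p, hp, fun i hi => ?_, fun i hi => ?_⟩
  · have hi' : i < max m N := lt_of_lt_of_le hi (le_max_left _ _)
    have hiv : i < v.length := by rw [hv]; exact hi'
    have h3 := h1 i hi'
    rw [List.getElem?_eq_getElem hiv] at h3
    have hM : s^[x] i < M := by
      by_contra hcon
      rw [List.getElem?_eq_none (by simpa using not_lt.1 hcon)] at h3
      exact absurd h3 (by simp)
    rw [pf_getElem? _ _ _ hM, Option.some.injEq] at h3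
    rw [hp1 i hiv, h3]
    rfl
  · obtain ⟨b, hb, hb'⟩ := h2 i (lt_of_lt_of_le hi (le_max_left _ _))
    obtain ⟨h4, h5⟩ := List.getElem?_eq_some_iff.1 hb
    rw [hp2 _ h4, h5, hb']

end XC7

theorem I_C7 : StC7 := by
  intro k l S hS s hs R _ hR f c hc K hK hne hKS h
  obtain ⟨y, hy, hyS, hyQ⟩ := TW.MX.baire hS hK hne hKS (XC7.ar_Q hS hs hR f hc)
    (XC7.meets h)
  exact ⟨y, hy, hyS, XC7.right_of hyQ⟩

end Pool.Agent.Work.MP_69fea5_lc.TX
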