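import Pool.Agent.Work.MP_69fea5_lc.TX.Defs2
import Pool.Agent.Work.MP_69fea5_lc.TX.I_C3

/-!
# Item C8 of the block TX: `isoD` is coded
-/

set_option autoImplicit false

namespace Pool.Agent.Work.MP_69fea5_lc.TX

open HK Filter Topology
open TW (Close pre pre2)

namespace XC8

open XC3

variable {l : ℕ}

theorem pf_inj {y z : ℕ → Fin l} {m : ℕ} (h : pf y m = pf z m) : ∀ i < m, y i = z i := by
  intro i hi
  have h1 := pf_getElem? y m i hi
  rw [h, pf_getElem? z m i hi] at h1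
  exact (Option.some.inj h1).symm

theorem pre2_iff (R : Set ((ℕ → Fin l) × (ℕ → Fin l))) (w : List (Fin l) × List (Fin l)) :
    pre2 R w ↔ ∃ p ∈ R, pf p.1 w.1.length = w.1 ∧ pf p.2 w.2.length = w.2 := by
  unfold pre2
  simp only [pf_eq_iff]

/-- compactness for pairs of members of a closed relation -/
theorem cluster4 {R R' : Set ((ℕ → Fin l) × (ℕ → Fin l))} (hR : IsClosed R) (hR' : IsClosed R')
    (Z Z' : ℕ → (ℕ → Fin l) × (ℕ → Fin l)) (hZ : ∀ n, Z n ∈ R) (hZ' : ∀ n, Z' n ∈ R') :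
    ∃ z ∈ R, ∃ z' ∈ R', ∀ n L₀, ∃ L, L₀ ≤ L ∧ ∀ i < n, (Z L).1 i = z.1 i ∧ (Z L).2 i = z.2 i ∧
      (Z' L).1 i = z'.1 i ∧ (Z' L).2 i = z'.2 i := by
  obtain ⟨⟨z, z'⟩, ⟨hz, hz'⟩, φ, hφ, ht⟩ := (hR.prod hR').isCompact.tendsto_subseq
    (x := fun n => (Z n, Z' n)) fun n => ⟨hZ n, hZ' n⟩
  refine ⟨z, hz, z', hz', fun n L₀ => ?_⟩
  rw [Prod.tendsto_iff] at ht
  obtain ⟨ht1, ht2⟩ := ht
  rw [Prod.tendsto_iff] at ht1 ht2
  obtain ⟨ht1, ht3⟩ := ht1
  obtain ⟨ht2, ht4⟩ := ht2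
  rw [tendsto_pi_nhds] at ht1 ht2 ht3 ht4
  have hh : ∀ i ∈ Finset.range n, ∀ᶠ l in atTop, (Z (φ l)).1 i = z.1 i ∧
      (Z (φ l)).2 i = z.2 i ∧ (Z' (φ l)).1 i = z'.1 i ∧ (Z' (φ l)).2 i = z'.2 i := by
    intro i _
    have e1 := ht1 i
    have e2 := ht2 i
    have e3 := ht3 i
    have e4 := ht4 i
    rw [nhds_discrete, tendsto_pure] at e1 e2 e3 e4
    exact e1.and (e3.and (e2.and e4))
  have h2 := (Filter.eventually_all_finset (Finset.range n)).2 hh
  obtain ⟨L, hL, hL'⟩ := (h2.and (eventually_ge_atTop L₀)).exists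
  exact ⟨φ L, le_trans hL' (hφ.id_le L), fun i hi => hL i (by simpa using hi)⟩

/-- the semantic condition on pairs of words -/
def J (s : ℕ → ℕ) (Q : Set ((ℕ → Fin l) × (ℕ → Fin l))) (m : ℕ)
    (v : List (Fin l) × List (Fin l)) : Prop :=
  ∃ y a b, (y, a) ∈ Q ∧ (y, b) ∈ Q ∧ (∀ i < m, a i = b i) ∧ ∃ x, ∀ i < m,
    v.1[i]? = some (sh s x a i) ∧ v.2[i]? = some (sh s x b i)

/-- the inner condition: words `u` are prefixes of points related to one point -/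
def B (Q : Set ((ℕ → Fin l) × (ℕ → Fin l))) (u : List (Fin l) × List (Fin l)) : Prop :=
  ∀ n : ℕ, ∃ e : List (Fin l), ∃ u' : List (Fin l) × List (Fin l),
    (e.length = n ∧ u'.1.take u.1.length = u.1 ∧ u'.2.take u.2.length = u.2) ∧
      pre2 Q (e, u'.1) ∧ pre2 Q (e, u'.2)

/-- the arithmetical condition on pairs of words -/
def A (s : ℕ → ℕ) (Q : Set ((ℕ → Fin l) × (ℕ → Fin l))) (m : ℕ)
    (v : List (Fin l) × List (Fin l)) : Prop :=
  ∃ x : ℕ, ∃ u : List (Fin l) × List (Fin l), (m ≤ u.1.length ∧ m ≤ u.2.length) ∧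
    (∀ i < m, u.1[i]? = u.2[i]? ∧ v.1[i]? ≠ none ∧ v.2[i]? ≠ none ∧ v.1[i]? = u.1[s^[x] i]? ∧
      v.2[i]? = u.2[s^[x] i]?) ∧ B Q u

theorem B_iff {Q : Set ((ℕ → Fin l) × (ℕ → Fin l))} (hQ : IsClosed Q)
    (u : List (Fin l) × List (Fin l)) :
    B Q u ↔ ∃ y a b, (y, a) ∈ Q ∧ (y, b) ∈ Q ∧ pf a u.1.length = u.1 ∧ pf b u.2.length = u.2 := by
  constructor
  · intro h
    choose e u' h1 h2 h3 using h
    have h2' := fun n => (pre2_iff Q _).1 (h2 n)
    have h3' := fun n => (pre2_iff Q _).1 (h3 n)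
    simp only at h2' h3'
    choose Z hZ hZ1 hZ2 using h2'
    choose Z' hZ' hZ1' hZ2' using h3'
    obtain ⟨z, hz, z', hz', hcl⟩ := cluster4 hQ hQ Z Z' hZ hZ'
    have hlen : ∀ n, u.1.length ≤ (u' n).1.length := fun n => by
      have := congrArg List.length (h1 n).2.1
      rw [List.length_take] at this
      omega
    have hlen' : ∀ n, u.2.length ≤ (u' n).2.length := fun n => by
      have := congrArg List.length (h1 n).2.2
      rw [List.length_take] at this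
      omega
    have hy : z.1 = z'.1 := by
      funext i
      obtain ⟨L, hL, hag⟩ := hcl (i + 1) (i + 1)
      obtain ⟨g1, _, g3, _⟩ := hag i (by omega)
      rw [← g1, ← g3]
      have : pf (Z L).1 (e L).length = pf (Z' L).1 (e L).length := by
        rw [hZ1 L, hZ1' L]
      exact pf_inj this i (by rw [(h1 L).1]; omega)
    refine ⟨z.1, z.2, z'.2, hz, ?_, ?_, ?_⟩
    · rw [hy]
      exact hz'
    · obtain ⟨L, hL, hag⟩ := hcl u.1.length 0
      rw [← pf_congr (y := (Z L).2) fun i hi => (hag i hi).2.1, ← pf_take _ (hlen L), hZ2 L,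
        (h1 L).2.1]
    · obtain ⟨L, hL, hag⟩ := hcl u.2.length 0
      rw [← pf_congr (y := (Z' L).2) fun i hi => (hag i hi).2.2.2, ← pf_take _ (hlen' L), hZ2' L,
        (h1 L).2.2]
  · rintro ⟨y, a, b, ha, hb, h1, h2⟩ n
    refine ⟨pf y n, u, ⟨by simp, by simp, by simp⟩, ?_, ?_⟩
    · rw [pre2_iff]
      exact ⟨(y, a), ha, by simp, h1⟩
    · rw [pre2_iff]
      exact ⟨(y, b), hb, by simp, h2⟩

theorem A_iff {s : ℕ → ℕ} {Q : Set ((ℕ → Fin l) × (ℕ → Fin l))} (hQ : IsClosed Q) (m : ℕ)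
    (v : List (Fin l) × List (Fin l)) : A s Q m v ↔ J s Q m v := by
  constructor
  · rintro ⟨x, u, ⟨hm1, hm2⟩, h1, h2⟩
    obtain ⟨y, a, b, ha, hb, ha', hb'⟩ := (B_iff hQ u).1 h2
    have key : ∀ (w : List (Fin l)) (a : ℕ → Fin l), pf a w.length = w → ∀ j, w[j]? ≠ none →
        w[j]? = some (a j) := by
      intro w a hw j hj
      have hlt : j < w.length := by
        by_contra hge
        exact hj (List.getElem?_eq_none (by omega))
      rw [← hw, pf_getElem? _ _ _ hlt]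
    refine ⟨y, a, b, ha, hb, fun i hi => ?_, x, fun i hi => ?_⟩
    · have e := (h1 i hi).1
      rw [← ha', ← hb', pf_getElem? _ _ _ (by omega), pf_getElem? _ _ _ (by omega)] at e
      exact Option.some.inj e
    · obtain ⟨_, n1, n2, e1, e2⟩ := h1 i hi
      constructor
      · rw [e1]
        exact key _ _ ha' _ (by rw [← e1]; exact n1)
      · rw [e2]
        exact key _ _ hb' _ (by rw [← e2]; exact n2)
  · rintro ⟨y, a, b, ha, hb, hab, x, hx⟩
    obtain ⟨N, hN⟩ := bnd (fun i => s^[x] i) m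
    refine ⟨x, (pf a (m + N), pf b (m + N)), ⟨by simp, by simp⟩, fun i hi => ?_,
      (B_iff hQ _).2 ⟨y, a, b, ha, hb, by simp, by simp⟩⟩
    have hNi := hN i hi
    simp only at hNi ⊢
    rw [pf_getElem? a _ _ (by omega), pf_getElem? b _ _ (by omega), pf_getElem? a _ _ (by omega),
      pf_getElem? b _ _ (by omega), (hx i hi).1, (hx i hi).2, hab i hi]
    refine ⟨rfl, by simp, by simp, rfl, rfl⟩

theorem pre2_isoD {s : ℕ → ℕ} {Q : Set ((ℕ → Fin l) × (ℕ → Fin l))} (hQ : IsClosed Q)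
    (w : List (Fin l) × List (Fin l)) :
    pre2 (isoD s Q) w ↔ ∀ n : ℕ, (w.1.length ≤ n ∧ w.2.length ≤ n) →
      ∃ v : List (Fin l) × List (Fin l), (v.1.length = n ∧ v.2.length = n ∧
        v.1.take w.1.length = w.1 ∧ v.2.take w.2.length = w.2) ∧ A s Q n v := by
  constructor
  · intro h n hn
    obtain ⟨q, hq, h1, h2⟩ := (pre2_iff _ w).1 h
    refine ⟨(pf q.1 n, pf q.2 n), ⟨by simp, by simp, ?_, ?_⟩, (A_iff hQ n _).2 ?_⟩
    · rw [pf_take _ hn.1, h1]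
    · rw [pf_take _ hn.2, h2]
    · obtain ⟨y, a, b, ha, hb, hab, x, hx⟩ := hq n
      refine ⟨y, a, b, ha, hb, hab, x, fun i hi => ?_⟩
      simp only
      rw [pf_getElem? _ _ _ hi, pf_getElem? _ _ _ hi, (hx i hi).1, (hx i hi).2]
      exact ⟨rfl, rfl⟩
  · intro h
    have h0 : ∀ n : ℕ, ∃ q : (ℕ → Fin l) × (ℕ → Fin l), ∃ y a b, (y, a) ∈ Q ∧ (y, b) ∈ Q ∧
        (∀ i < w.1.length + w.2.length + n, a i = b i) ∧ (∃ x, q = (sh s x a, sh s x b)) ∧
        pf q.1 w.1.length = w.1 ∧ pf q.2 w.2.length = w.2 := by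
      intro n
      obtain ⟨v, ⟨hv1, hv2, ht1, ht2⟩, hA⟩ := h (w.1.length + w.2.length + n) (by omega)
      obtain ⟨y, a, b, ha, hb, hab, x, hx⟩ := (A_iff hQ _ _).1 hA
      refine ⟨(sh s x a, sh s x b), y, a, b, ha, hb, hab, ⟨x, rfl⟩, ?_, ?_⟩
      · have e : v.1 = pf (sh s x a) (w.1.length + w.2.length + n) :=
          list_eq_pf hv1 fun i hi => (hx i hi).1
        rw [← ht1, e, pf_take _ (by omega)]
        simp
      · have e : v.2 = pf (sh s x b) (w.1.length + w.2.length + n) :=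
          list_eq_pf hv2 fun i hi => (hx i hi).2
        rw [← ht2, e, pf_take _ (by omega)]
        simp
    choose Z hZ using h0
    obtain ⟨z, _, _, _, hcl⟩ := cluster4 (R := Set.univ) (R' := Set.univ) isClosed_univ
      isClosed_univ Z Z (fun _ => trivial) (fun _ => trivial)
    rw [pre2_iff]
    refine ⟨z, fun m => ?_, ?_, ?_⟩
    · obtain ⟨L, hL, hag⟩ := hcl m m
      obtain ⟨y, a, b, ha, hb, hab, ⟨x, hx⟩, _, _⟩ := hZ L
      refine ⟨y, a, b, ha, hb, fun i hi => hab i (by omega), x, fun i hi => ?_⟩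
      obtain ⟨g1, g2, _, _⟩ := hag i hi
      rw [← g1, ← g2, hx]
      exact ⟨rfl, rfl⟩
    · obtain ⟨L, hL, hag⟩ := hcl w.1.length 0
      obtain ⟨y, a, b, _, _, _, _, h1, _⟩ := hZ L
      rw [← pf_congr (y := (Z L).1) fun i hi => (hag i hi).1]
      exact h1
    · obtain ⟨L, hL, hag⟩ := hcl w.2.length 0
      obtain ⟨y, a, b, _, _, _, _, _, h2⟩ := hZ L
      rw [← pf_congr (y := (Z L).2) fun i hi => (hag i hi).2.1]
      exact h2

section ar

variable {S : Set (Set ℕ)} {s : ℕ → ℕ} {Q : Set ((ℕ → Fin l) × (ℕ → Fin l))}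

abbrev W (l : ℕ) : Type := List (Fin l) × List (Fin l)

theorem ar_B (hS : Cl S) (hQ : Ar S (pre2 Q)) : Ar S (B Q) := by
  unfold B
  refine Ar.all hS (R := fun (u : W l) (n : ℕ) => ∃ e : List (Fin l), ∃ u' : W l,
    (e.length = n ∧ u'.1.take u.1.length = u.1 ∧ u'.2.take u.2.length = u.2) ∧
      pre2 Q (e, u'.1) ∧ pre2 Q (e, u'.2)) ?_
  refine Ar.ex hS (R := fun (p : W l × ℕ) (e : List (Fin l)) => ∃ u' : W l,
    (e.length = p.2 ∧ u'.1.take p.1.1.length = p.1.1 ∧ u'.2.take p.1.2.length = p.1.2) ∧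
      pre2 Q (e, u'.1) ∧ pre2 Q (e, u'.2)) ?_
  refine Ar.ex hS (R := fun (p : (W l × ℕ) × List (Fin l)) (u' : W l) =>
    (p.2.length = p.1.2 ∧ u'.1.take p.1.1.1.length = p.1.1.1 ∧
      u'.2.take p.1.1.2.length = p.1.1.2) ∧ pre2 Q (p.2, u'.1) ∧ pre2 Q (p.2, u'.2)) ?_
  have he : Primrec fun q : ((W l × ℕ) × List (Fin l)) × W l => q.1.2 :=
    Primrec.snd.comp Primrec.fst
  have h1 : Primrec fun q : ((W l × ℕ) × List (Fin l)) × W l => q.2.1 :=
    Primrec.fst.comp Primrec.snd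
  have h2 : Primrec fun q : ((W l × ℕ) × List (Fin l)) × W l => q.2.2 :=
    Primrec.snd.comp Primrec.snd
  have hu : Primrec fun q : ((W l × ℕ) × List (Fin l)) × W l => q.1.1.1 :=
    Primrec.fst.comp (Primrec.fst.comp Primrec.fst)
  have hu1 : Primrec fun q : ((W l × ℕ) × List (Fin l)) × W l => q.1.1.1.1 :=
    Primrec.fst.comp hu
  have hu2 : Primrec fun q : ((W l × ℕ) × List (Fin l)) × W l => q.1.1.1.2 :=
    Primrec.snd.comp hu
  refine Ar.and hS (Ar.and hS ?_ (Ar.and hS ?_ ?_)) (Ar.and hS ?_ ?_)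
  · exact Ar.eq hS (ArF.of_primrec hS (Primrec.list_length.comp he))
      (ArF.of_primrec hS (Primrec.snd.comp (Primrec.fst.comp Primrec.fst)))
  · exact Ar.eq hS (ArF.of_primrec hS (Primrec.list_take.comp (Primrec.list_length.comp hu1) h1))
      (ArF.of_primrec hS hu1)
  · exact Ar.eq hS (ArF.of_primrec hS (Primrec.list_take.comp (Primrec.list_length.comp hu2) h2))
      (ArF.of_primrec hS hu2)
  · exact hQ.comp hS (he.pair h1)
  · exact hQ.comp hS (he.pair h2)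

theorem ar_A (hS : Cl S) (hs : Primrec s) (hQ : Ar S (pre2 Q)) :
    Ar S fun p : ℕ × W l => A s Q p.1 p.2 := by
  unfold A
  refine Ar.ex hS (R := fun (p : ℕ × W l) (x : ℕ) => ∃ u : W l,
    (p.1 ≤ u.1.length ∧ p.1 ≤ u.2.length) ∧
    (∀ i < p.1, u.1[i]? = u.2[i]? ∧ p.2.1[i]? ≠ none ∧ p.2.2[i]? ≠ none ∧
      p.2.1[i]? = u.1[s^[x] i]? ∧ p.2.2[i]? = u.2[s^[x] i]?) ∧ B Q u) ?_
  refine Ar.ex hS (R := fun (p : (ℕ × W l) × ℕ) (u : W l) =>
    (p.1.1 ≤ u.1.length ∧ p.1.1 ≤ u.2.length) ∧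
    (∀ i < p.1.1, u.1[i]? = u.2[i]? ∧ p.1.2.1[i]? ≠ none ∧ p.1.2.2[i]? ≠ none ∧
      p.1.2.1[i]? = u.1[s^[p.2] i]? ∧ p.1.2.2[i]? = u.2[s^[p.2] i]?) ∧ B Q u) ?_
  have hm : Primrec fun q : ((ℕ × W l) × ℕ) × W l => q.1.1.1 :=
    Primrec.fst.comp (Primrec.fst.comp Primrec.fst)
  have h1 : Primrec fun q : ((ℕ × W l) × ℕ) × W l => q.2.1 := Primrec.fst.comp Primrec.snd
  have h2 : Primrec fun q : ((ℕ × W l) × ℕ) × W l => q.2.2 := Primrec.snd.comp Primrec.snd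
  refine Ar.and hS (Ar.and hS ?_ ?_) (Ar.and hS ?_ ?_)
  · exact Ar.le hS (ArF.of_primrec hS hm) (ArF.of_primrec hS (Primrec.list_length.comp h1))
  · exact Ar.le hS (ArF.of_primrec hS hm) (ArF.of_primrec hS (Primrec.list_length.comp h2))
  · refine Ar.ball hS (R := fun (q : ((ℕ × W l) × ℕ) × W l) (i : ℕ) =>
      q.2.1[i]? = q.2.2[i]? ∧ q.1.1.2.1[i]? ≠ none ∧ q.1.1.2.2[i]? ≠ none ∧
      q.1.1.2.1[i]? = q.2.1[s^[q.1.2] i]? ∧ q.1.1.2.2[i]? = q.2.2[s^[q.1.2] i]?) ?_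
      (ArF.of_primrec hS hm)
    have g1 : Primrec fun q : (((ℕ × W l) × ℕ) × W l) × ℕ => q.1.2.1 := h1.comp Primrec.fst
    have g2 : Primrec fun q : (((ℕ × W l) × ℕ) × W l) × ℕ => q.1.2.2 := h2.comp Primrec.fst
    have gv : Primrec fun q : (((ℕ × W l) × ℕ) × W l) × ℕ => q.1.1.1.2 :=
      Primrec.snd.comp (Primrec.fst.comp (Primrec.fst.comp Primrec.fst))
    have gx : Primrec fun q : (((ℕ × W l) × ℕ) × W l) × ℕ => q.1.1.2 :=
      Primrec.snd.comp (Primrec.fst.comp Primrec.fst)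
    have g3 : Primrec fun q : (((ℕ × W l) × ℕ) × W l) × ℕ => q.1.1.1.2.1 := Primrec.fst.comp gv
    have g4 : Primrec fun q : (((ℕ × W l) × ℕ) × W l) × ℕ => q.1.1.1.2.2 := Primrec.snd.comp gv
    have gi : Primrec fun q : (((ℕ × W l) × ℕ) × W l) × ℕ => q.2 := Primrec.snd
    refine Ar.and hS ?_ (Ar.and hS ?_ (Ar.and hS ?_ (Ar.and hS ?_ ?_)))
    · exact Ar.eq hS (ArF.of_primrec hS (Primrec.list_getElem?.comp g1 gi))
        (ArF.of_primrec hS (Primrec.list_getElem?.comp g2 gi))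
    · exact Ar.not hS (Ar.eq hS (ArF.of_primrec hS (Primrec.list_getElem?.comp g3 gi))
        (ArF.const hS none))
    · exact Ar.not hS (Ar.eq hS (ArF.of_primrec hS (Primrec.list_getElem?.comp g4 gi))
        (ArF.const hS none))
    · exact Ar.eq hS (ArF.of_primrec hS (Primrec.list_getElem?.comp g3 gi))
        (ArF.of_primrec hS (Primrec.list_getElem?.comp g1 (primrec_it hs gx gi)))
    · exact Ar.eq hS (ArF.of_primrec hS (Primrec.list_getElem?.comp g4 gi))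
        (ArF.of_primrec hS (Primrec.list_getElem?.comp g2 (primrec_it hs gx gi)))
  · exact (ar_B hS hQ).comp hS Primrec.snd

end ar

end XC8

theorem I_C8 : StC8 := by
  intro l S hS s hs Q hQc hQ
  refine Ar.congr (R := fun w : XC8.W l => ∀ n : ℕ, (w.1.length ≤ n ∧ w.2.length ≤ n) →
      ∃ v : XC8.W l, (v.1.length = n ∧ v.2.length = n ∧
        v.1.take w.1.length = w.1 ∧ v.2.take w.2.length = w.2) ∧ XC8.A s Q n v) ?_
      fun w => XC8.pre2_isoD hQc w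
  have l1 : Primrec fun q : XC8.W l × ℕ => q.1.1.length :=
    Primrec.list_length.comp (Primrec.fst.comp Primrec.fst)
  have l2 : Primrec fun q : XC8.W l × ℕ => q.1.2.length :=
    Primrec.list_length.comp (Primrec.snd.comp Primrec.fst)
  refine Ar.all hS (R := fun (w : XC8.W l) (n : ℕ) => (w.1.length ≤ n ∧ w.2.length ≤ n) →
      ∃ v : XC8.W l, (v.1.length = n ∧ v.2.length = n ∧
        v.1.take w.1.length = w.1 ∧ v.2.take w.2.length = w.2) ∧ XC8.A s Q n v) ?_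
  refine Ar.imp hS (Ar.and hS (Ar.le hS (ArF.of_primrec hS l1) (ArF.snd hS))
    (Ar.le hS (ArF.of_primrec hS l2) (ArF.snd hS))) ?_
  refine Ar.ex hS (R := fun (p : XC8.W l × ℕ) (v : XC8.W l) => (v.1.length = p.2 ∧
      v.2.length = p.2 ∧ v.1.take p.1.1.length = p.1.1 ∧ v.2.take p.1.2.length = p.1.2) ∧
        XC8.A s Q p.2 v) ?_
  have hn : Primrec fun q : (XC8.W l × ℕ) × XC8.W l => q.1.2 := Primrec.snd.comp Primrec.fst
  have w1 : Primrec fun q : (XC8.W l × ℕ) × XC8.W l => q.1.1.1 :=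
    Primrec.fst.comp (Primrec.fst.comp Primrec.fst)
  have w2 : Primrec fun q : (XC8.W l × ℕ) × XC8.W l => q.1.1.2 :=
    Primrec.snd.comp (Primrec.fst.comp Primrec.fst)
  have v1 : Primrec fun q : (XC8.W l × ℕ) × XC8.W l => q.2.1 := Primrec.fst.comp Primrec.snd
  have v2 : Primrec fun q : (XC8.W l × ℕ) × XC8.W l => q.2.2 := Primrec.snd.comp Primrec.snd
  refine Ar.and hS (Ar.and hS ?_ (Ar.and hS ?_ (Ar.and hS ?_ ?_))) ?_
  · exact Ar.eq hS (ArF.of_primrec hS (Primrec.list_length.comp v1)) (ArF.of_primrec hS hn)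
  · exact Ar.eq hS (ArF.of_primrec hS (Primrec.list_length.comp v2)) (ArF.of_primrec hS hn)
  · exact Ar.eq hS (ArF.of_primrec hS (Primrec.list_take.comp (Primrec.list_length.comp w1) v1))
      (ArF.of_primrec hS w1)
  · exact Ar.eq hS (ArF.of_primrec hS (Primrec.list_take.comp (Primrec.list_length.comp w2) v2))
      (ArF.of_primrec hS w2)
  · exact (XC8.ar_A hS hs hQ).comp hS (hn.pair Primrec.snd)

end Pool.Agent.Work.MP_69fea5_lc.TX
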