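import Pool.Agent.Work.MP_69fea5_lc.TX.Defs2
import Pool.Agent.Work.MP_69fea5_lc.TX.I_C8

/-!
# Item C9 of the block TX: `apD` is coded
-/

set_option autoImplicit false

namespace Pool.Agent.Work.MP_69fea5_lc.TX

open HK Filter Topology
open TW (Close pre pre2)

namespace XC9

open XC3
open XC8 (pre2_iff cluster4 W)

variable {l : ℕ}

/-- a common bound for iterates -/
theorem bnd2 (s : ℕ → ℕ) (n m : ℕ) : ∃ B, ∀ x < n, ∀ i < m, s^[x] i < B := by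
  have h : ∀ x, ∃ B, ∀ i < m, s^[x] i < B := fun x => bnd (fun i => s^[x] i) m
  choose B hB using h
  obtain ⟨C, hC⟩ := bnd B n
  exact ⟨C, fun x hx i hi => (hB x i hi).trans (hC x hx)⟩

/-- the semantic condition on pairs of words -/
def J (s : ℕ → ℕ) (Q : Set ((ℕ → Fin l) × (ℕ → Fin l))) (m : ℕ) (v : W l) : Prop :=
  ∃ g a b, (a, b) ∈ Q ∧ ∀ t, ∃ x, t ≤ x ∧ x < t + g ∧ ∀ i < m,
    v.1[i]? = some (sh s x a i) ∧ v.2[i]? = some (sh s x b i)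

/-- the arithmetical condition on pairs of words -/
def A (s : ℕ → ℕ) (Q : Set ((ℕ → Fin l) × (ℕ → Fin l))) (m : ℕ) (v : W l) : Prop :=
  ∃ g : ℕ, ∀ L : ℕ, ∃ u : W l, ((L ≤ u.1.length ∧ L ≤ u.2.length) ∧ pre2 Q u) ∧
    ∀ t < L, ∃ x < t + g, t ≤ x ∧ ∀ i < m, L ≤ s^[x] i ∨
      ((v.1[i]? ≠ none ∧ v.2[i]? ≠ none) ∧ v.1[i]? = u.1[s^[x] i]? ∧ v.2[i]? = u.2[s^[x] i]?)

theorem A_iff {s : ℕ → ℕ} {Q : Set ((ℕ → Fin l) × (ℕ → Fin l))} (hQ : IsClosed Q) (m : ℕ)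
    (v : W l) : A s Q m v ↔ J s Q m v := by
  constructor
  · rintro ⟨g, h⟩
    choose u hu h1 using h
    have h2 := fun L => (pre2_iff Q _).1 (hu L).2
    choose Z hZ hZ1 hZ2 using h2
    obtain ⟨z, hz, _, _, hcl⟩ := cluster4 hQ hQ Z Z hZ hZ
    refine ⟨g, z.1, z.2, hz, fun t => ?_⟩
    obtain ⟨B, hB⟩ := bnd2 s (t + g) m
    obtain ⟨L, hL, hag⟩ := hcl B (B + t + 1)
    obtain ⟨x, hx, htx, hi⟩ := h1 L t (by omega)
    refine ⟨x, htx, hx, fun i him => ?_⟩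
    have hBx := hB x hx i him
    rcases hi i him with h3 | ⟨-, h4, h5⟩
    · omega
    · have e1 : (u L).1[s^[x] i]? = some (z.1 (s^[x] i)) := by
        rw [← hZ1 L, pf_getElem? _ _ _ (by have := (hu L).1.1; omega), (hag _ hBx).1]
      have e2 : (u L).2[s^[x] i]? = some (z.2 (s^[x] i)) := by
        rw [← hZ2 L, pf_getElem? _ _ _ (by have := (hu L).1.2; omega), (hag _ hBx).2.1]
      exact ⟨h4.trans e1, h5.trans e2⟩
  · rintro ⟨g, a, b, hab, h⟩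
    refine ⟨g, fun L => ⟨(pf a L, pf b L), ⟨⟨by simp, by simp⟩, ?_⟩, fun t _ => ?_⟩⟩
    · rw [pre2_iff]
      exact ⟨(a, b), hab, by simp, by simp⟩
    · obtain ⟨x, htx, hx, hi⟩ := h t
      refine ⟨x, hx, htx, fun i him => ?_⟩
      obtain ⟨e1, e2⟩ := hi i him
      rcases Nat.lt_or_ge (s^[x] i) L with h3 | h3
      · refine Or.inr ⟨⟨?_, ?_⟩, ?_, ?_⟩
        · rw [e1]
          simp
        · rw [e2]
          simp
        · rw [e1, pf_getElem? _ _ _ h3]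
          rfl
        · rw [e2, pf_getElem? _ _ _ h3]
          rfl
      · exact Or.inl h3

theorem pre2_apD {s : ℕ → ℕ} {Q : Set ((ℕ → Fin l) × (ℕ → Fin l))} (hQ : IsClosed Q)
    (w : W l) :
    pre2 (apD s Q) w ↔ ∀ n : ℕ, (w.1.length ≤ n ∧ w.2.length ≤ n) →
      ∃ v : W l, (v.1.length = n ∧ v.2.length = n ∧
        v.1.take w.1.length = w.1 ∧ v.2.take w.2.length = w.2) ∧ A s Q n v := by
  constructor
  · intro h n hn
    obtain ⟨q, hq, h1, h2⟩ := (pre2_iff _ w).1 h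
    refine ⟨(pf q.1 n, pf q.2 n), ⟨by simp, by simp, ?_, ?_⟩, (A_iff hQ n _).2 ?_⟩
    · rw [pf_take _ hn.1, h1]
    · rw [pf_take _ hn.2, h2]
    · obtain ⟨g, a, b, hab, hx⟩ := hq n
      refine ⟨g, a, b, hab, fun t => ?_⟩
      obtain ⟨x, htx, hxg, hv⟩ := hx t
      refine ⟨x, htx, hxg, fun i hi => ?_⟩
      simp only
      rw [pf_getElem? _ _ _ hi, pf_getElem? _ _ _ hi, (hv i hi).1, (hv i hi).2]
      exact ⟨rfl, rfl⟩
  · intro h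
    have h0 : ∀ n : ℕ, ∃ q : (ℕ → Fin l) × (ℕ → Fin l),
        (∃ g a b, (a, b) ∈ Q ∧ ∀ t, ∃ x, t ≤ x ∧ x < t + g ∧
          Vis s (w.1.length + w.2.length + n) q a b x) ∧
        pf q.1 w.1.length = w.1 ∧ pf q.2 w.2.length = w.2 := by
      intro n
      obtain ⟨v, ⟨hv1, hv2, ht1, ht2⟩, hA⟩ := h (w.1.length + w.2.length + n) (by omega)
      obtain ⟨g, a, b, hab, hx⟩ := (A_iff hQ _ _).1 hA
      obtain ⟨x₀, -, -, hx₀⟩ := hx 0
      have e1 : v.1 = pf (sh s x₀ a) (w.1.length + w.2.length + n) :=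
        list_eq_pf hv1 fun i hi => (hx₀ i hi).1
      have e2 : v.2 = pf (sh s x₀ b) (w.1.length + w.2.length + n) :=
        list_eq_pf hv2 fun i hi => (hx₀ i hi).2
      refine ⟨(sh s x₀ a, sh s x₀ b), ⟨g, a, b, hab, fun t => ?_⟩, ?_, ?_⟩
      · obtain ⟨x, htx, hxg, hv⟩ := hx t
        refine ⟨x, htx, hxg, fun i hi => ?_⟩
        obtain ⟨f1, f2⟩ := hv i hi
        obtain ⟨g1, g2⟩ := hx₀ i hi
        rw [g1] at f1
        rw [g2] at f2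
        exact ⟨(Option.some.inj f1).symm, (Option.some.inj f2).symm⟩
      · rw [← ht1, e1, pf_take _ (by omega)]
        simp
      · rw [← ht2, e2, pf_take _ (by omega)]
        simp
    choose Z hZ using h0
    obtain ⟨z, _, _, _, hcl⟩ := cluster4 (R := Set.univ) (R' := Set.univ) isClosed_univ
      isClosed_univ Z Z (fun _ => trivial) (fun _ => trivial)
    rw [pre2_iff]
    refine ⟨z, fun m => ?_, ?_, ?_⟩
    · obtain ⟨L, hL, hag⟩ := hcl m m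
      obtain ⟨⟨g, a, b, hab, hx⟩, _, _⟩ := hZ L
      refine ⟨g, a, b, hab, fun t => ?_⟩
      obtain ⟨x, htx, hxg, hv⟩ := hx t
      refine ⟨x, htx, hxg, fun i hi => ?_⟩
      obtain ⟨g1, g2, _, _⟩ := hag i hi
      rw [← g1, ← g2]
      exact hv i (by omega)
    · obtain ⟨L, hL, hag⟩ := hcl w.1.length 0
      rw [← pf_congr (y := (Z L).1) fun i hi => (hag i hi).1]
      exact (hZ L).2.1
    · obtain ⟨L, hL, hag⟩ := hcl w.2.length 0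
      rw [← pf_congr (y := (Z L).2) fun i hi => (hag i hi).2.1]
      exact (hZ L).2.2

section ar

variable {S : Set (Set ℕ)} {s : ℕ → ℕ} {Q : Set ((ℕ → Fin l) × (ℕ → Fin l))}

theorem ar_A (hS : Cl S) (hs : Primrec s) (hQ : Ar S (pre2 Q)) :
    Ar S fun p : ℕ × W l => A s Q p.1 p.2 := by
  unfold A
  refine Ar.ex hS (R := fun (p : ℕ × W l) (g : ℕ) => ∀ L : ℕ, ∃ u : W l,
    ((L ≤ u.1.length ∧ L ≤ u.2.length) ∧ pre2 Q u) ∧
    ∀ t < L, ∃ x < t + g, t ≤ x ∧ ∀ i < p.1, L ≤ s^[x] i ∨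
      ((p.2.1[i]? ≠ none ∧ p.2.2[i]? ≠ none) ∧ p.2.1[i]? = u.1[s^[x] i]? ∧
        p.2.2[i]? = u.2[s^[x] i]?)) ?_
  refine Ar.all hS (R := fun (p : (ℕ × W l) × ℕ) (L : ℕ) => ∃ u : W l,
    ((L ≤ u.1.length ∧ L ≤ u.2.length) ∧ pre2 Q u) ∧
    ∀ t < L, ∃ x < t + p.2, t ≤ x ∧ ∀ i < p.1.1, L ≤ s^[x] i ∨
      ((p.1.2.1[i]? ≠ none ∧ p.1.2.2[i]? ≠ none) ∧ p.1.2.1[i]? = u.1[s^[x] i]? ∧
        p.1.2.2[i]? = u.2[s^[x] i]?)) ?_
  refine Ar.ex hS (R := fun (p : ((ℕ × W l) × ℕ) × ℕ) (u : W l) =>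
    ((p.2 ≤ u.1.length ∧ p.2 ≤ u.2.length) ∧ pre2 Q u) ∧
    ∀ t < p.2, ∃ x < t + p.1.2, t ≤ x ∧ ∀ i < p.1.1.1, p.2 ≤ s^[x] i ∨
      ((p.1.1.2.1[i]? ≠ none ∧ p.1.1.2.2[i]? ≠ none) ∧ p.1.1.2.1[i]? = u.1[s^[x] i]? ∧
        p.1.1.2.2[i]? = u.2[s^[x] i]?)) ?_
  have h1 : Primrec fun q : (((ℕ × W l) × ℕ) × ℕ) × W l => q.2.1 := Primrec.fst.comp Primrec.snd
  have h2 : Primrec fun q : (((ℕ × W l) × ℕ) × ℕ) × W l => q.2.2 := Primrec.snd.comp Primrec.snd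
  have hL : Primrec fun q : (((ℕ × W l) × ℕ) × ℕ) × W l => q.1.2 :=
    Primrec.snd.comp Primrec.fst
  refine Ar.and hS (Ar.and hS (Ar.and hS ?_ ?_) ?_) ?_
  · exact Ar.le hS (ArF.of_primrec hS hL) (ArF.of_primrec hS (Primrec.list_length.comp h1))
  · exact Ar.le hS (ArF.of_primrec hS hL) (ArF.of_primrec hS (Primrec.list_length.comp h2))
  · exact hQ.comp hS Primrec.snd
  refine Ar.ball hS (R := fun (q : (((ℕ × W l) × ℕ) × ℕ) × W l) (t : ℕ) =>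
    ∃ x < t + q.1.1.2, t ≤ x ∧ ∀ i < q.1.1.1.1, q.1.2 ≤ s^[x] i ∨
      ((q.1.1.1.2.1[i]? ≠ none ∧ q.1.1.1.2.2[i]? ≠ none) ∧ q.1.1.1.2.1[i]? = q.2.1[s^[x] i]? ∧
        q.1.1.1.2.2[i]? = q.2.2[s^[x] i]?)) ?_ (ArF.of_primrec hS hL)
  have hg : Primrec fun q : ((((ℕ × W l) × ℕ) × ℕ) × W l) × ℕ => q.2 + q.1.1.1.2 :=
    Primrec.nat_add.comp Primrec.snd
      (Primrec.snd.comp (Primrec.fst.comp (Primrec.fst.comp Primrec.fst)))
  refine Ar.bex hS (R := fun (q : ((((ℕ × W l) × ℕ) × ℕ) × W l) × ℕ) (x : ℕ) =>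
    q.2 ≤ x ∧ ∀ i < q.1.1.1.1.1, q.1.1.2 ≤ s^[x] i ∨
      ((q.1.1.1.1.2.1[i]? ≠ none ∧ q.1.1.1.1.2.2[i]? ≠ none) ∧
        q.1.1.1.1.2.1[i]? = q.1.2.1[s^[x] i]? ∧
        q.1.1.1.1.2.2[i]? = q.1.2.2[s^[x] i]?)) ?_ (ArF.of_primrec hS hg)
  have hm : Primrec fun q : (((((ℕ × W l) × ℕ) × ℕ) × W l) × ℕ) × ℕ => q.1.1.1.1.1.1 :=
    Primrec.fst.comp (Primrec.fst.comp (Primrec.fst.comp (Primrec.fst.comp (Primrec.fst.comp
      Primrec.fst))))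
  refine Ar.and hS ?_ ?_
  · exact Ar.le hS (ArF.of_primrec hS (Primrec.snd.comp Primrec.fst)) (ArF.snd hS)
  refine Ar.ball hS (R := fun (q : (((((ℕ × W l) × ℕ) × ℕ) × W l) × ℕ) × ℕ) (i : ℕ) =>
    q.1.1.1.2 ≤ s^[q.2] i ∨
      ((q.1.1.1.1.1.2.1[i]? ≠ none ∧ q.1.1.1.1.1.2.2[i]? ≠ none) ∧
        q.1.1.1.1.1.2.1[i]? = q.1.1.2.1[s^[q.2] i]? ∧
        q.1.1.1.1.1.2.2[i]? = q.1.1.2.2[s^[q.2] i]?)) ?_ (ArF.of_primrec hS hm)
  have gi : Primrec fun q : ((((((ℕ × W l) × ℕ) × ℕ) × W l) × ℕ) × ℕ) × ℕ => q.2 := Primrec.snd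
  have gx : Primrec fun q : ((((((ℕ × W l) × ℕ) × ℕ) × W l) × ℕ) × ℕ) × ℕ => q.1.2 :=
    Primrec.snd.comp Primrec.fst
  have gu : Primrec fun q : ((((((ℕ × W l) × ℕ) × ℕ) × W l) × ℕ) × ℕ) × ℕ => q.1.1.1.2 :=
    Primrec.snd.comp (Primrec.fst.comp (Primrec.fst.comp Primrec.fst))
  have g1 : Primrec fun q : ((((((ℕ × W l) × ℕ) × ℕ) × W l) × ℕ) × ℕ) × ℕ => q.1.1.1.2.1 :=
    Primrec.fst.comp gu
  have g2 : Primrec fun q : ((((((ℕ × W l) × ℕ) × ℕ) × W l) × ℕ) × ℕ) × ℕ => q.1.1.1.2.2 :=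
    Primrec.snd.comp gu
  have gL : Primrec fun q : ((((((ℕ × W l) × ℕ) × ℕ) × W l) × ℕ) × ℕ) × ℕ => q.1.1.1.1.2 :=
    Primrec.snd.comp (Primrec.fst.comp (Primrec.fst.comp (Primrec.fst.comp Primrec.fst)))
  have gv : Primrec fun q : ((((((ℕ × W l) × ℕ) × ℕ) × W l) × ℕ) × ℕ) × ℕ =>
      q.1.1.1.1.1.1.2 :=
    Primrec.snd.comp (Primrec.fst.comp (Primrec.fst.comp (Primrec.fst.comp (Primrec.fst.comp
      (Primrec.fst.comp Primrec.fst)))))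
  have g3 : Primrec fun q : ((((((ℕ × W l) × ℕ) × ℕ) × W l) × ℕ) × ℕ) × ℕ =>
      q.1.1.1.1.1.1.2.1 := Primrec.fst.comp gv
  have g4 : Primrec fun q : ((((((ℕ × W l) × ℕ) × ℕ) × W l) × ℕ) × ℕ) × ℕ =>
      q.1.1.1.1.1.1.2.2 := Primrec.snd.comp gv
  refine Ar.or hS ?_ (Ar.and hS (Ar.and hS ?_ ?_) (Ar.and hS ?_ ?_))
  · exact Ar.le hS (ArF.of_primrec hS gL) (ArF.of_primrec hS (primrec_it hs gx gi))
  · exact Ar.not hS (Ar.eq hS (ArF.of_primrec hS (Primrec.list_getElem?.comp g3 gi))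
      (ArF.const hS none))
  · exact Ar.not hS (Ar.eq hS (ArF.of_primrec hS (Primrec.list_getElem?.comp g4 gi))
      (ArF.const hS none))
  · exact Ar.eq hS (ArF.of_primrec hS (Primrec.list_getElem?.comp g3 gi))
      (ArF.of_primrec hS (Primrec.list_getElem?.comp g1 (primrec_it hs gx gi)))
  · exact Ar.eq hS (ArF.of_primrec hS (Primrec.list_getElem?.comp g4 gi))
      (ArF.of_primrec hS (Primrec.list_getElem?.comp g2 (primrec_it hs gx gi)))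

end ar

end XC9

theorem I_C9 : StC9 := by
  intro l S hS s hs Q hQc hQ
  refine Ar.congr (R := fun w : XC8.W l => ∀ n : ℕ, (w.1.length ≤ n ∧ w.2.length ≤ n) →
      ∃ v : XC8.W l, (v.1.length = n ∧ v.2.length = n ∧
        v.1.take w.1.length = w.1 ∧ v.2.take w.2.length = w.2) ∧ XC9.A s Q n v) ?_
      fun w => XC9.pre2_apD hQc w
  have l1 : Primrec fun q : XC8.W l × ℕ => q.1.1.length :=
    Primrec.list_length.comp (Primrec.fst.comp Primrec.fst)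
  have l2 : Primrec fun q : XC8.W l × ℕ => q.1.2.length :=
    Primrec.list_length.comp (Primrec.snd.comp Primrec.fst)
  refine Ar.all hS (R := fun (w : XC8.W l) (n : ℕ) => (w.1.length ≤ n ∧ w.2.length ≤ n) →
      ∃ v : XC8.W l, (v.1.length = n ∧ v.2.length = n ∧
        v.1.take w.1.length = w.1 ∧ v.2.take w.2.length = w.2) ∧ XC9.A s Q n v) ?_
  refine Ar.imp hS (Ar.and hS (Ar.le hS (ArF.of_primrec hS l1) (ArF.snd hS))
    (Ar.le hS (ArF.of_primrec hS l2) (ArF.snd hS))) ?_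
  refine Ar.ex hS (R := fun (p : XC8.W l × ℕ) (v : XC8.W l) => (v.1.length = p.2 ∧
      v.2.length = p.2 ∧ v.1.take p.1.1.length = p.1.1 ∧ v.2.take p.1.2.length = p.1.2) ∧
        XC9.A s Q p.2 v) ?_
  have hn : Primrec fun q : (XC8.W l × ℕ) × XC8.W l => q.1.2 := Primrec.snd.comp Primrec.fst
  have w1 : Primrec fun q : (XC8.W l × ℕ) × XC8.W l => q.1.1.1 :=
    Primrec.fst.comp (Primrec.fst.comp Primrec.fst)
  have w2 : Primrec fun q : (XC8.W l × ℕ) × XC8.W l => q.1.1.2 :=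
    Primrec.snd.comp (Primrec.fst.comp Primrec.fst)
  have v1 : Primrec fun q : (XC8.W l × ℕ) × XC8.W l => q.2.1 := Primrec.fst.comp Primrec.snd
  have v2 : Primrec fun q : (XC8.W l × ℕ) × XC8.W l => q.2.2 := Primrec.snd.comp Primrec.snd
  refine Ar.and hS (Ar.and hS ?_ (Ar.and hS ?_ (Ar.and hS ?_ ?_))) ?_
  · exact Ar.eq hS (ArF.of_primrec hS (Primrec.list_length.comp v1)) (ArF.of_primrec hS hn)
  · exact Ar.eq hS (ArF.of_primrec hS (Primrec.list_length.comp v2)) (ArF.of_primrec hS hn)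
  · exact Ar.eq hS (ArF.of_primrec hS (Primrec.list_take.comp (Primrec.list_length.comp w1) v1))
      (ArF.of_primrec hS w1)
  · exact Ar.eq hS (ArF.of_primrec hS (Primrec.list_take.comp (Primrec.list_length.comp w2) v2))
      (ArF.of_primrec hS w2)
  · exact (XC9.ar_A hS hs hQ).comp hS (hn.pair Primrec.snd)

end Pool.Agent.Work.MP_69fea5_lc.TX
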