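import Pool.Agent.Work.MP_69fea5_lc.TX.Defs

/-!
# Statements of the items of the block TX
-/

set_option autoImplicit false

namespace Pool.Agent.Work.MP_69fea5_lc.TX

open HK
open TW (Close pre pre2)

/-! ### coding (the items TW.I_C1, TW.I_C2, TW.I_C5, TW.I_C6 are used as they are) -/

/-- C3: the set `Ret` -/
def StC3 : Prop := ∀ (k l : ℕ) (S : Set (Set ℕ)), Cl S → ∀ (s : ℕ → ℕ), Primrec s →
  ∀ (X : Set (ℕ → Fin l)) (R : Set ((ℕ → Fin l) × (ℕ → Fin l))), ICER s X R → Ar S (pre2 R) →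
  ∀ (f : Fin l → Fin k) (c : ℕ → Fin k), ArF S c → ∀ K : Set (ℕ → Fin l), IsClosed K → K ⊆ X →
  Ar S (pre K) → IsClosed (Ret s f c R K) ∧ Ar S (pre (Ret s f c R K))

/-- C4: the sets `AA`, uniformly -/
def StC4 : Prop := ∀ (k l : ℕ) (S : Set (Set ℕ)), Cl S → ∀ (s : ℕ → ℕ), Primrec s →
  ∀ (X : Set (ℕ → Fin l)) (R : ℕ → Set ((ℕ → Fin l) × (ℕ → Fin l))), IsClosed X →
  (∀ n, ICER s X (R n)) →
  (Ar S fun p : ℕ × List (Fin l) × List (Fin l) => pre2 (R p.1) p.2) →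
  ∀ (f : Fin l → Fin k) (c : ℕ → Fin k), ArF S c →
  (∀ n q, IsClosed (AA s f c (R n) (R (n + 1)) q)) ∧
  Ar S fun p : (ℕ × ℕ × ℕ × ℕ × ℕ) × List (Fin l) =>
    pre (AA s f c (R p.1.1) (R (p.1.1 + 1)) p.1.2) p.2

/-- C7: a generic point -/
def StC7 : Prop := ∀ (k l : ℕ) (S : Set (Set ℕ)), Cl S → ∀ (s : ℕ → ℕ), Primrec s →
  ∀ (R : Set ((ℕ → Fin l) × (ℕ → Fin l))), IsClosed R → Ar S (pre2 R) →
  ∀ (f : Fin l → Fin k) (c : ℕ → Fin k), ArF S c → ∀ K : Set (ℕ → Fin l), IsClosed K →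
  K.Nonempty → Ar S (pre K) →
  (∀ a ∈ K, ∀ m N, ∃ a' ∈ K, (∀ i < m, a' i = a i) ∧ ∃ x, N ≤ x ∧
    CloseC s f c R m (sh s x a') x) →
  ∃ z ∈ K, ArF S z ∧ Right s f c R z

/-! ### dynamics -/

/-- D1: no dead ends: every class of a right point contains a point that is right for all `R'` -/
def StD1 : Prop := ∀ (k l : ℕ) (s : ℕ → ℕ) (X : Set (ℕ → Fin l)), Minimal s X →
  ∀ (R : Set ((ℕ → Fin l) × (ℕ → Fin l))), ICER s X R → ∀ (f : Fin l → Fin k) (c : ℕ → Fin k)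
  (y : ℕ → Fin l), y ∈ X → Right s f c R y →
  ∃ z, (y, z) ∈ R ∧ ∀ R', ICER s X R' → Right s f c R' z

/-- D2: proximal steps -/
def StD2 : Prop := ∀ (k l : ℕ) (s : ℕ → ℕ) (X : Set (ℕ → Fin l)), Minimal s X →
  ∀ (R R' : Set ((ℕ → Fin l) × (ℕ → Fin l))), ICER s X R → ICER s X R' → ProxStep s R R' →
  ∀ (f : Fin l → Fin k) (c : ℕ → Fin k) (y : ℕ → Fin l), Right s f c R y → Right s f c R' y

/-- D3: the relation `Right` is invariant under `R` -/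
def StD3 : Prop := ∀ (k l : ℕ) (s : ℕ → ℕ) (X : Set (ℕ → Fin l))
  (R : Set ((ℕ → Fin l) × (ℕ → Fin l))), ICER s X R → ∀ (f : Fin l → Fin k) (c : ℕ → Fin k)
  (y z : ℕ → Fin l), (y, z) ∈ R → Right s f c R y → Right s f c R z

/-- D4: distal steps -/
def StD4 : Prop := ∀ (k l : ℕ) (s : ℕ → ℕ) (X : Set (ℕ → Fin l)), Minimal s X →
  ∀ (R R' : Set ((ℕ → Fin l) × (ℕ → Fin l))), ICER s X R → ICER s X R' → R' ⊆ R →
  DistStep s R R' → ∀ (f : Fin l → Fin k) (c : ℕ → Fin k) (y : ℕ → Fin l), y ∈ X →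
  Right s f c R y → (Ret s f c R' {z | (y, z) ∈ R}).Nonempty

/-- D5: the first step -/
def StD5 : Prop := ∀ (k l : ℕ) (s : ℕ → ℕ) (X : Set (ℕ → Fin l)), Minimal s X →
  ∀ (R : Set ((ℕ → Fin l) × (ℕ → Fin l))), ICER s X R → ∀ (f : Fin l → Fin k) (c : ℕ → Fin k)
  (y : ℕ → Fin l), y ∈ X → (∀ m, ∃ x, CloseC s f c R m (sh s x y) x) →
  (∀ z ∈ X, ProxMod s R y z → (y, z) ∈ R) → y ∈ Ret s f c R X

/-- D6: points of `Ret` are right, `Ret` is saturated -/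
def StD6 : Prop := ∀ (k l : ℕ) (s : ℕ → ℕ) (X : Set (ℕ → Fin l))
  (R : Set ((ℕ → Fin l) × (ℕ → Fin l))), ICER s X R → ∀ (f : Fin l → Fin k) (c : ℕ → Fin k)
  (K : Set (ℕ → Fin l)), K ⊆ X → (∀ y ∈ K, ∀ z, (y, z) ∈ R → z ∈ K) →
  (∀ y ∈ Ret s f c R K, Right s f c R y) ∧
    ∀ y ∈ Ret s f c R K, ∀ z, (y, z) ∈ R → z ∈ Ret s f c R K

/-- D7: finite steps: at the maximal number of separated bad classes everything is right -/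
def StD7 : Prop := ∀ (k l : ℕ) (s : ℕ → ℕ) (X : Set (ℕ → Fin l)), Minimal s X →
  ∀ (R R' : Set ((ℕ → Fin l) × (ℕ → Fin l))), ICER s X R → ICER s X R' → R' ⊆ R →
  DistStep s R R' → ∀ (f : Fin l → Fin k) (c : ℕ → Fin k)
  (E : Set (ℕ → Fin l)), E ⊆ X → (∀ y ∈ E, ∀ z, (y, z) ∈ R → z ∈ E) →
  (∀ y ∈ E, Right s f c R y) → ∀ q : ℕ × ℕ × ℕ × ℕ,
  (∀ q' : ℕ × ℕ × ℕ × ℕ, q.1 < q'.1 → ¬ (E ∩ AA s f c R R' q').Nonempty) →
  ∀ y ∈ E ∩ AA s f c R R' q, Right s f c R' y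

/-- D8: the bound for finite steps -/
def StD8 : Prop := ∀ (k l : ℕ) (s : ℕ → ℕ) (X : Set (ℕ → Fin l))
  (R R' : Set ((ℕ → Fin l) × (ℕ → Fin l))), ICER s X R → ICER s X R' → R' ⊆ R → FinStep R R' →
  ∀ (f : Fin l → Fin k) (c : ℕ → Fin k), ∃ p, ∀ q : ℕ × ℕ × ℕ × ℕ, p < q.1 →
    AA s f c R R' q = ∅

/-- D9: limits of towers -/
def StD9 : Prop := ∀ (k l : ℕ) (s : ℕ → ℕ) (X : Set (ℕ → Fin l))
  (R : ℕ → Set ((ℕ → Fin l) × (ℕ → Fin l))), (∀ n, ICER s X (R n)) → (∀ n, R (n + 1) ⊆ R n) →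
  ∀ (f : Fin l → Fin k) (c : ℕ → Fin k) (y : ℕ → Fin l), (∀ n, Right s f c (R n) y) →
  Right s f c (⋂ n, R n) y

/-- D10: mixing steps: the points that are right for `R'` are dense in every class of a right
point of `R` -/
def StD10 : Prop := ∀ (k l : ℕ) (s : ℕ → ℕ) (X : Set (ℕ → Fin l)), Minimal s X →
  ∀ (R R' : Set ((ℕ → Fin l) × (ℕ → Fin l))), ICER s X R → Mixes s X R R' →
  ∀ (f : Fin l → Fin k) (c : ℕ → Fin k) (y : ℕ → Fin l), y ∈ X → Right s f c R y →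
  ∀ a, (a, y) ∈ R → ∀ m, ∃ a', (a', y) ∈ R ∧ (∀ i < m, a' i = a i) ∧ Right s f c R' a'

end Pool.Agent.Work.MP_69fea5_lc.TX
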