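import Pool.Agent.Work.MP_69fea5_lc.PR.GreedyC
import Pool.Agent.Work.MP_69fea5_lc.TX.Stmts

/-!
# The greedy minimal subshift of the limit set is coded in every omega-model containing `c`
-/

set_option autoImplicit false

namespace Pool.Agent.Work.MP_69fea5_lc.TX

open HK

variable {k : ℕ} {S : Set (Set ℕ)} {c : ℕ → Fin k}

theorem ar_occ (hS : Cl S) (hc : ArF S c) : Ar S fun p : ℕ × ℕ => PR.occ c p.1 p.2 := by
  unfold PR.occ
  refine Ar.ball hS (R := fun (p : ℕ × ℕ) i => (c (p.2 + i) : ℕ) = (PR.wd p.1).getD i 0) ?_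
    (ArF.of_primrec hS (Primrec.list_length.comp (PR.wd_prim.comp Primrec.fst)))
  refine Ar.eq hS ?_ (ArF.of_primrec hS ?_)
  · refine ArF.map hS (g := fun a : Fin k => (a : ℕ)) Primrec.fin_val ?_
    exact hc.comp hS (f := fun q : (ℕ × ℕ) × ℕ => q.1.2 + q.2) (ArF.of_primrec hS
      (Primrec.nat_add.comp (Primrec.snd.comp Primrec.fst) Primrec.snd))
  · exact (Primrec.list_getD 0).comp (PR.wd_prim.comp (Primrec.fst.comp Primrec.fst)) Primrec.snd

theorem ar_Av (hS : Cl S) (hc : ArF S c) : Ar S fun s : ℕ => PR.Av c s := by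
  unfold PR.Av PR.Avoid
  refine Ar.all hS (R := fun s n => ∃ x, n ≤ x ∧ ∀ e < s, PD.dig 2 s e = 1 → ∀ j < n + 1,
    j + (PR.wd e).length ≤ n → ¬ PR.occ c e (x + j)) ?_
  refine Ar.ex hS (R := fun (p : ℕ × ℕ) x => p.2 ≤ x ∧ ∀ e < p.1, PD.dig 2 p.1 e = 1 →
    ∀ j < p.2 + 1, j + (PR.wd e).length ≤ p.2 → ¬ PR.occ c e (x + j)) ?_
  refine Ar.and hS (Ar.le hS (ArF.of_primrec hS (Primrec.snd.comp Primrec.fst)) (ArF.snd hS)) ?_
  refine Ar.ball hS (R := fun (q : (ℕ × ℕ) × ℕ) e => PD.dig 2 q.1.1 e = 1 →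
    ∀ j < q.1.2 + 1, j + (PR.wd e).length ≤ q.1.2 → ¬ PR.occ c e (q.2 + j)) ?_
    (ArF.of_primrec hS (Primrec.fst.comp Primrec.fst))
  refine Ar.imp hS (Ar.eq hS (ArF.of_primrec hS ((PD.dig_prim 2).comp
    (Primrec.fst.comp (Primrec.fst.comp Primrec.fst)) Primrec.snd)) (ArF.const hS 1)) ?_
  refine Ar.ball hS (R := fun (q : ((ℕ × ℕ) × ℕ) × ℕ) j => j + (PR.wd q.2).length ≤ q.1.1.2 →
    ¬ PR.occ c q.2 (q.1.2 + j)) ?_ (ArF.of_primrec hS (Primrec.succ.comp
      (Primrec.snd.comp (Primrec.fst.comp Primrec.fst))))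
  refine Ar.imp hS (Ar.le hS (ArF.of_primrec hS ?_) (ArF.of_primrec hS ?_)) (Ar.not hS ?_)
  · exact Primrec.nat_add.comp Primrec.snd (Primrec.list_length.comp (PR.wd_prim.comp
      (Primrec.snd.comp Primrec.fst)))
  · exact Primrec.snd.comp (Primrec.fst.comp (Primrec.fst.comp Primrec.fst))
  · refine (ar_occ hS hc).comp hS (f := fun q : (((ℕ × ℕ) × ℕ) × ℕ) × ℕ =>
      (q.1.2, q.1.1.2 + q.2)) ?_
    exact (Primrec.snd.comp Primrec.fst).pair (Primrec.nat_add.comp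
      (Primrec.snd.comp (Primrec.fst.comp Primrec.fst)) Primrec.snd)

theorem pow_prim : Primrec fun n : ℕ => 2 ^ n := by
  have h : Primrec fun n : ℕ => (fun m => 2 * m)^[n] 1 :=
    Primrec.nat_iterate Primrec.id (Primrec.const 1)
      (Primrec.nat_mul.comp (Primrec.const 2) Primrec.snd)
  refine h.of_eq fun n => ?_
  rw [mul_left_iterate]
  exact mul_one _

theorem arF_gs (hS : Cl S) (hc : ArF S c) : ArF S fun n : ℕ => PR.gs c n := by
  classical
  have h1 : Primrec fun p : ℕ × ℕ × ℕ => p.2.2 + 2 ^ p.2.1 :=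
    Primrec.nat_add.comp (Primrec.snd.comp Primrec.snd)
      (pow_prim.comp (Primrec.fst.comp Primrec.snd))
  have h := ArF.rec hS (α := ℕ) (β := ℕ) (b := fun _ => 0) (ArF.const hS 0)
    (G := fun _ n b => if PR.Av c (b + 2 ^ n) then b + 2 ^ n else b)
    (ArF.ite hS ((ar_Av hS hc).comp hS h1) (ArF.of_primrec hS h1)
      (ArF.of_primrec hS (Primrec.snd.comp Primrec.snd)))
    (f := fun _ n => PR.gs c n) (fun _ => rfl) fun _ n => PR.gs_succ c n
  exact h.comp hS (f := fun n : ℕ => (0, n)) ((ArF.const hS 0).pair hS (ArF.id hS))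

theorem ar_EE (hS : Cl S) (hc : ArF S c) : Ar S fun n : ℕ => n ∈ PR.EE c := by
  refine Ar.sub hS (ar_Av hS hc) (f := fun n => PR.gs c n + 2 ^ n) ?_
  exact ArF.map₂ hS (g := fun a b : ℕ => a + b) Primrec.nat_add (arF_gs hS hc)
    (ArF.of_primrec hS pow_prim)

/-- the language of the greedy minimal subshift -/
theorem ar_MM (hS : Cl S) (hc : ArF S c) : Ar S (TW.pre (PR.MM c)) := by
  have h1 : Primrec fun w : List (Fin k) => Encodable.encode (w.map fun a : Fin k => (a : ℕ)) :=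
    Primrec.encode.comp (Primrec.list_map Primrec.id (Primrec.fin_val.comp Primrec.snd))
  refine Ar.congr (R := fun w : List (Fin k) =>
    ¬ Encodable.encode (w.map fun a : Fin k => (a : ℕ)) ∈ PR.EE c)
    (Ar.not hS ((ar_EE hS hc).comp hS h1)) fun w => ?_
  rw [← Set.mem_compl_iff, ← PR.language_MM, PR.mem_language_iff]
  unfold TW.pre PR.occ
  simp only [PR.wd_encode, List.length_map, Nat.zero_add]
  refine exists_congr fun z => and_congr_right fun _ => forall_congr' fun i => ?_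
  refine forall_congr' fun hi => ?_
  have : ((w.map fun a : Fin k => (a : ℕ)).getD i 0) = (w[i] : ℕ) := by
    simp [List.getD, hi]
  rw [this]
  exact ⟨fun h => by rw [h], fun h => Fin.ext h⟩

theorem exists_coded_minimal (hS : Cl S) (hc : ArF S c) :
    ∃ M : Set (ℕ → Fin k), TW.MinimalSubshift M ∧
      (∀ z ∈ M, ∀ m N, ∃ x, N ≤ x ∧ ∀ i < m, c (x + i) = z i) ∧ Ar S (TW.pre M) := by
  have h := PR.MM_minimal c
  exact ⟨PR.MM c, ⟨h.nonempty, h.closed, h.shift, h.minimal⟩, PR.MM_limit c, ar_MM hS hc⟩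

end Pool.Agent.Work.MP_69fea5_lc.TX
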