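import Pool.Agent.Work.MP_69fea5_lc.TX.Asm3
import Pool.Agent.Work.MP_69fea5_lc.TX.MMcode
import Pool.Agent.Work.MP_69fea5_lc.TX.I_C3
import Pool.Agent.Work.MP_69fea5_lc.TX.I_C4
import Pool.Agent.Work.MP_69fea5_lc.TX.I_C7
import Pool.Agent.Work.MP_69fea5_lc.TX.I_C8
import Pool.Agent.Work.MP_69fea5_lc.TX.I_C9
import Pool.Agent.Work.MP_69fea5_lc.TX.I_C10
import Pool.Agent.Work.MP_69fea5_lc.TW.I_C1
import Pool.Agent.Work.MP_69fea5_lc.TW.I_C2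
import Pool.Agent.Work.MP_69fea5_lc.TW.I_C5
import Pool.Agent.Work.MP_69fea5_lc.TW.I_C6

/-!
# The theorem of the block TX
-/

set_option autoImplicit false

namespace Pool.Agent.Work.MP_69fea5_lc.TX

open HK

/-- the set of the codes of the elements of a set in `S` is in `S` -/
theorem mem_of_ar {S : Set (Set ℕ)} (hS : Cl S) {α : Type} [Primcodable α] {R : α → Prop}
    (h : Ar S R) : {n | ∃ a, Encodable.encode a = n ∧ R a} ∈ S := by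
  refine Ar.set (R := fun n : ℕ => ∃ a, Encodable.encode a = n ∧ R a) ?_
  refine Ar.ex hS (R := fun (n : ℕ) (a : α) => Encodable.encode a = n ∧ R a) ?_
  refine Ar.and hS ?_ (h.comp hS Primrec.snd)
  exact Ar.eq hS (ArF.of_primrec hS (Primrec.encode.comp Primrec.snd)) (ArF.fst hS)

variable {k l : ℕ} {s : ℕ → ℕ} {f : Fin l → Fin k} {c : ℕ → Fin k} {X : Set (ℕ → Fin l)}

theorem main {S : Set (Set ℕ)} (hS : Cl S) (hs : Primrec s) (hX : Minimal s X)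
    (hXS : Ar S (TW.pre X))
    (hlim : ∀ z ∈ X, ∀ m N, ∃ x, N ≤ x ∧ ∀ i < m, f (z (s^[i] 0)) = c (x + i))
    (hc : ArF S c) {R : Set ((ℕ → Fin l) × (ℕ → Fin l))}
    (h : Reached S s X f c R) (hf : ∀ a b, (a, b) ∈ R → f (a 0) = f (b 0)) :
    ∃ Y ∈ S, Y.Infinite ∧ (∀ x ∈ Y, 0 < x) ∧
      ∃ i, ∀ F : Finset ℕ, F.Nonempty → (↑F : Set ℕ) ⊆ Y → c (∑ x ∈ F, x) = i := by
  have hR := (inv_of_reached TW.I_C1 TW.I_C2 I_C3 I_C4 TW.I_C5 I_C7 I_C8 I_C9 I_C10 hs hS hX hXS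
    hlim hc h).2
  refine main3_of TW.I_C1 TW.I_C2 I_C3 I_C4 TW.I_C5 TW.I_C6 I_C7 I_C8 I_C9 I_C10 hs hS hX hXS
    hlim hc h fun p hp m => ⟨0, fun i _ => ?_⟩
  have := hf _ _ (hR.sh hp i)
  rw [zero_add]
  exact this

end Pool.Agent.Work.MP_69fea5_lc.TX
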